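import Pool.Agent.H114R2.AsymB

/-! Determinants of sign matrices of every order. -/

namespace Pool.Agent.H114R2

open Finset Matrix

theorem det_descend {N : ℕ} (A : Matrix (Fin (N + 1)) (Fin (N + 1)) ℤ)
    (hA : ∀ i j, A i j = 1 ∨ A i j = -1) : ∃ B : Matrix (Fin N) (Fin N) ℤ,
    (∀ i j, B i j = 1 ∨ B i j = -1) ∧ |A.det| ≤ (N + 1) * |B.det| := by
  by_contra hcon
  push Not at hcon
  have h1 : ∀ j : Fin (N + 1), (N + 1 : ℤ) * |(A.submatrix Fin.succ j.succAbove).det| < |A.det| :=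
    fun j => hcon _ (fun _ _ => hA _ _)
  have h2 : |A.det| ≤ ∑ j : Fin (N + 1), |(A.submatrix Fin.succ j.succAbove).det| := by
    rw [Matrix.det_succ_row_zero]
    refine (Finset.abs_sum_le_sum_abs _ _).trans (Finset.sum_le_sum (fun j _ => ?_))
    rw [abs_mul, abs_mul]
    have h3 : |((-1 : ℤ)) ^ (j : ℕ)| = 1 := by rw [abs_pow, abs_neg, abs_one, one_pow]
    have h4 : |A 0 j| = 1 := by rcases hA 0 j with h | h <;> rw [h] <;> norm_num
    rw [h3, h4]; norm_num
  have h5 : (N + 1 : ℤ) * |A.det| < (N + 1 : ℤ) * |A.det| := by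
    calc (N + 1 : ℤ) * |A.det|
        ≤ (N + 1 : ℤ) * ∑ j : Fin (N + 1), |(A.submatrix Fin.succ j.succAbove).det| :=
          mul_le_mul_of_nonneg_left h2 (by positivity)
      _ = ∑ j : Fin (N + 1), (N + 1 : ℤ) * |(A.submatrix Fin.succ j.succAbove).det| := by
          rw [Finset.mul_sum]
      _ < ∑ _j : Fin (N + 1), |A.det| := Finset.sum_lt_sum_of_nonempty ⟨0, Finset.mem_univ _⟩
          (fun j _ => h1 j)
      _ = (N + 1 : ℤ) * |A.det| := by simp
  exact lt_irrefl _ h5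

theorem det_descend_many {h : ℕ} (n : ℕ) : ∀ d : ℕ, h = n + d →
    ∀ A : Matrix (Fin h) (Fin h) ℤ, (∀ i j, A i j = 1 ∨ A i j = -1) →
    ∃ B : Matrix (Fin n) (Fin n) ℤ, (∀ i j, B i j = 1 ∨ B i j = -1) ∧
      |A.det| ≤ (h : ℤ) ^ d * |B.det| := by
  intro d
  induction d generalizing h with
  | zero =>
    intro hh A hA
    obtain rfl : h = n := by omega
    exact ⟨A, hA, by simp⟩
  | succ d ih =>
    intro hh A hA
    obtain rfl : h = (n + d) + 1 := by omega
    obtain ⟨B, hB, hAB⟩ := det_descend A hA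
    obtain ⟨C, hC, hBC⟩ := ih rfl B hB
    refine ⟨C, hC, hAB.trans ?_⟩
    have h1 : ((n + d : ℕ) : ℤ) ^ d ≤ ((n + d + 1 : ℕ) : ℤ) ^ d :=
      pow_le_pow_left₀ (by positivity) (by push_cast; linarith) d
    calc (((n + d : ℕ) : ℤ) + 1) * |B.det|
        ≤ (((n + d : ℕ) : ℤ) + 1) * (((n + d : ℕ) : ℤ) ^ d * |C.det|) :=
          mul_le_mul_of_nonneg_left hBC (by positivity)
      _ ≤ (((n + d : ℕ) : ℤ) + 1) * (((n + d + 1 : ℕ) : ℤ) ^ d * |C.det|) := by
          apply mul_le_mul_of_nonneg_left _ (by positivity)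
          exact mul_le_mul_of_nonneg_right h1 (abs_nonneg _)
      _ = ((n + d + 1 : ℕ) : ℤ) ^ (d + 1) * |C.det| := by push_cast; ring

/-- A Hadamard matrix of order `n + d` gives a sign matrix of order `n` with large determinant. -/
theorem det_of_had {n d : ℕ} (hn : 0 < n) (h : HasHad (n + d)) :
    ∃ B : Matrix (Fin n) (Fin n) ℤ, (∀ i j, B i j = 1 ∨ B i j = -1) ∧ 0 ≤ B.det ∧
      ((n + d : ℕ) : ℤ) ^ (n + d) ≤ (((n + d : ℕ) : ℤ) ^ d * B.det) ^ 2 := by
  obtain ⟨H, hH, hHH⟩ := h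
  obtain ⟨B, hB, hdet⟩ := det_descend_many n d rfl H hH
  have h1 : H.det ^ 2 = ((n + d : ℕ) : ℤ) ^ (n + d) := by
    have h2 := congrArg Matrix.det hHH
    rw [Matrix.det_mul, Matrix.det_transpose, Matrix.det_smul, Matrix.det_one, Fintype.card_fin,
      mul_one] at h2
    rw [sq, h2]
  have h3 : ((n + d : ℕ) : ℤ) ^ (n + d) ≤ (((n + d : ℕ) : ℤ) ^ d * |B.det|) ^ 2 := by
    rw [← h1, ← sq_abs]
    exact pow_le_pow_left₀ (abs_nonneg _) hdet 2
  obtain ⟨m, rfl⟩ := Nat.exists_eq_succ_of_ne_zero hn.ne'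
  rcases le_total 0 B.det with h0 | h0
  · refine ⟨B, hB, h0, ?_⟩
    rwa [abs_of_nonneg h0] at h3
  · -- negate the first row
    refine ⟨B.updateRow 0 (fun j => (-1 : ℤ) * B 0 j), ?_, ?_, ?_⟩
    · intro i j
      by_cases hi : i = 0
      · subst hi
        rw [Matrix.updateRow_self]
        rcases hB 0 j with h | h <;> rw [h] <;> norm_num
      · rw [Matrix.updateRow_ne hi]
        exact hB i j
    · have h4 : (B.updateRow 0 (fun j => (-1 : ℤ) * B 0 j)).det = -B.det := by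
        have h5 := Matrix.det_updateRow_smul B 0 (-1 : ℤ) (B 0)
        have h6 : B.updateRow 0 (B 0) = B := Matrix.updateRow_eq_self B 0
        rw [h6] at h5
        have h7 : (fun j => (-1 : ℤ) * B 0 j) = (-1 : ℤ) • B 0 := by
          funext j; simp
        rw [h7, h5]; ring
      rw [h4]; linarith
    · have h4 : (B.updateRow 0 (fun j => (-1 : ℤ) * B 0 j)).det = -B.det := by
        have h5 := Matrix.det_updateRow_smul B 0 (-1 : ℤ) (B 0)
        have h6 : B.updateRow 0 (B 0) = B := Matrix.updateRow_eq_self B 0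
        rw [h6] at h5
        have h7 : (fun j => (-1 : ℤ) * B 0 j) = (-1 : ℤ) • B 0 := by
          funext j; simp
        rw [h7, h5]; ring
      rw [h4]
      rwa [abs_of_nonpos h0] at h3

end Pool.Agent.H114R2
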