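import Pool.Agent.H114R2.Fam

/-! Short representations of integers as sums of numbers `2 ^ a * 10 ^ b`. -/

namespace Pool.Agent.H114R2

open Finset

theorem pow5 (k : ℕ) : ∃ c : ℕ, 5 ^ (2 ^ k) = 1 + 2 ^ (k + 2) + 2 ^ (k + 3) * c := by
  induction k with
  | zero => exact ⟨0, by norm_num⟩
  | succ k ih =>
    obtain ⟨c, hc⟩ := ih
    refine ⟨c + 2 ^ k * (1 + 2 * c) ^ 2, ?_⟩
    rw [pow_succ, pow_mul, hc]
    ring

theorem exists_pow5 (k : ℕ) : ∀ m : ℕ, m % 4 = 1 → ∃ b, b < 2 ^ k ∧ 5 ^ b ≡ m [MOD 2 ^ (k + 2)] := by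
  induction k with
  | zero =>
    intro m hm
    refine ⟨0, by norm_num, ?_⟩
    unfold Nat.ModEq
    norm_num
    exact hm.symm
  | succ k ih =>
    intro m hm
    obtain ⟨b, hb, hbm⟩ := ih m hm
    -- either the congruence lifts or it is off by `2 ^ (k + 2)`
    have hdvd : ((2 ^ (k + 2) : ℕ) : ℤ) ∣ (m : ℤ) - (5 ^ b : ℕ) := (Nat.modEq_iff_dvd).1 hbm
    obtain ⟨e, he⟩ := hdvd
    rcases Int.even_or_odd' e with ⟨f, hf | hf⟩
    · refine ⟨b, by rw [pow_succ]; omega, ?_⟩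
      rw [Nat.modEq_iff_dvd]
      refine ⟨f, ?_⟩
      rw [he, hf]
      push_cast
      ring
    · obtain ⟨c, hc⟩ := pow5 k
      -- `5 ^ b` is odd
      have hodd : Odd (5 ^ b : ℕ) := by
        apply Odd.pow; decide
      obtain ⟨g, hg⟩ := hodd
      refine ⟨b + 2 ^ k, by rw [pow_succ]; omega, ?_⟩
      rw [Nat.modEq_iff_dvd]
      refine ⟨f - (g : ℤ) - (5 ^ b : ℕ) * c, ?_⟩
      have h1 : (m : ℤ) = (5 ^ b : ℕ) + 2 ^ (k + 2) * (2 * f + 1) := by
        rw [hf] at he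
        push_cast at he ⊢
        linarith
      have h2 : ((5 ^ (b + 2 ^ k) : ℕ) : ℤ) = (5 ^ b : ℕ) * (1 + 2 ^ (k + 2) + 2 ^ (k + 3) * c) := by
        rw [pow_add, hc]; push_cast; ring
      rw [h1, h2]
      have h3 : ((5 ^ b : ℕ) : ℤ) = 2 * g + 1 := by rw [hg]; push_cast; ring
      rw [h3]
      push_cast
      ring

/-- admissible terms at level `A` -/
def GA (A x : ℕ) : Prop := ∃ i b, b ≤ A + i ∧ x = 2 ^ i * 5 ^ b

/-- `m` is a sum of at most `K` admissible terms at level `A` -/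
def RepA (A K m : ℕ) : Prop := ∃ l : List ℕ, l.length ≤ K ∧ (∀ x ∈ l, GA A x) ∧ l.sum = m

theorem RepA.mono {A K K' m : ℕ} (h : RepA A K m) (hK : K ≤ K') : RepA A K' m := by
  obtain ⟨l, h1, h2, h3⟩ := h
  exact ⟨l, h1.trans hK, h2, h3⟩

theorem RepA.cons {A K m x : ℕ} (h : RepA A K m) (hx : GA A x) : RepA A (K + 1) (x + m) := by
  obtain ⟨l, h1, h2, h3⟩ := h
  refine ⟨x :: l, by simpa using h1, ?_, by simp [h3]⟩
  intro y hy
  rcases List.mem_cons.1 hy with h | h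
  · rw [h]; exact hx
  · exact h2 y h

/-- multiply by a power of two, lowering the level -/
theorem RepA.shift {A B K m : ℕ} (h : RepA (A + B) K m) : RepA A K (2 ^ B * m) := by
  obtain ⟨l, h1, h2, h3⟩ := h
  refine ⟨l.map (fun x => 2 ^ B * x), by simpa using h1, ?_, ?_⟩
  · intro y hy
    obtain ⟨x, hx, rfl⟩ := List.mem_map.1 hy
    obtain ⟨i, b, hb, rfl⟩ := h2 x hx
    exact ⟨B + i, b, by omega, by rw [pow_add, mul_assoc]⟩
  · rw [List.sum_map_mul_left, List.map_id', h3]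

theorem RepA.add {A K K' m m' : ℕ} (h : RepA A K m) (h' : RepA A K' m') :
    RepA A (K + K') (m + m') := by
  obtain ⟨l, h1, h2, h3⟩ := h
  obtain ⟨l', h1', h2', h3'⟩ := h'
  refine ⟨l ++ l', by simp; omega, ?_, by simp [h3, h3']⟩
  intro x hx
  rcases List.mem_append.1 hx with h | h
  · exact h2 x h
  · exact h2' x h

/-- binary expansion -/
theorem repA_binary (A D : ℕ) : ∀ m, m < 2 ^ D → RepA A D m := by
  induction D with
  | zero =>
    intro m hm
    have : m = 0 := by simpa using hm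
    subst this
    exact ⟨[], by simp, by simp, by simp⟩
  | succ D ih =>
    intro m hm
    by_cases h : m < 2 ^ D
    · exact (ih m h).mono (by omega)
    · have h1 : m - 2 ^ D < 2 ^ D := by rw [pow_succ] at hm; omega
      have h2 := (ih _ h1).cons (x := 2 ^ D) ⟨D, 0, by omega, by simp⟩
      have h3 : 2 ^ D + (m - 2 ^ D) = m := by omega
      rwa [h3] at h2

theorem log_div (m s : ℕ) (h : 2 ^ s ≤ m) : Nat.log 2 (m / 2 ^ s) + s = Nat.log 2 m := by
  induction s with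
  | zero => simp
  | succ s ih =>
    have h0 : 2 ^ s ≤ m := le_trans (Nat.pow_le_pow_right (by norm_num) (by omega)) h
    have h1 := ih h0
    have h2 : 2 ≤ m / 2 ^ s := by
      rw [Nat.le_div_iff_mul_le (by positivity)]
      rw [pow_succ] at h; omega
    have h3 : m / 2 ^ (s + 1) = m / 2 ^ s / 2 := by
      rw [pow_succ, Nat.div_div_eq_div_mul]
    rw [h3, Nat.log_div_base]
    have h4 : 1 ≤ Nat.log 2 (m / 2 ^ s) := by
      have h5 := Nat.log_mono_right (b := 2) h2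
      have h6 : Nat.log 2 2 = 1 := by decide
      omega
    omega

/-- main estimate -/
theorem repA_main (k D : ℕ) (hD : 5 + 2 * 5 ^ (2 ^ k) ≤ 2 ^ D) : ∀ m A : ℕ, 2 ^ k ≤ A →
    ∃ K, RepA A K m ∧ K * (k + 2) ≤ 2 * Nat.log 2 m + D * (k + 2) := by
  intro m
  induction m using Nat.strong_induction_on with
  | _ m ih =>
  intro A hA
  have hkA : 1 ≤ A := le_trans Nat.one_le_two_pow hA
  by_cases hm0 : m = 0
  · subst hm0
    exact ⟨0, ⟨[], by simp, by simp, by simp⟩, by simp⟩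
  by_cases heven : m % 2 = 0
  · -- even case
    have h1 : m / 2 < m := by omega
    obtain ⟨K, hK, hK2⟩ := ih (m / 2) h1 (A + 1) (by omega)
    refine ⟨K, ?_, ?_⟩
    · have := hK.shift
      have h2 : 2 ^ 1 * (m / 2) = m := by omega
      rwa [h2] at this
    · refine hK2.trans ?_
      have := Nat.log_mono_right (b := 2) h1.le
      omega
  by_cases hsmall : m < 2 ^ D
  · exact ⟨D, repA_binary A D m hsmall, by omega⟩
  push Not at hsmall
  have hbig : 5 + 2 * 5 ^ (2 ^ k) ≤ m := hD.trans hsmall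
  -- a general step
  have step : ∀ (τ s : ℕ) (c : ℕ), c ≤ 2 → k + 2 ≤ s → (∀ K m', RepA A K m' → RepA A (K + c) (τ + m')) →
      0 < τ → τ ≤ m → τ ≡ m [MOD 2 ^ s] →
      ∃ K, RepA A K m ∧ K * (k + 2) ≤ 2 * Nat.log 2 m + D * (k + 2) := by
    intro τ s c hc hs hτ hτ0 hτm hmod
    obtain ⟨m', hm'⟩ := (Nat.modEq_iff_dvd' hτm).1 hmod
    have h1 : m' < m := by
      have : 1 ≤ 2 ^ s := Nat.one_le_two_pow
      have : m' ≤ 2 ^ s * m' := Nat.le_mul_of_pos_left _ (by positivity)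
      omega
    have h4 : τ + 2 ^ s * m' = m := by omega
    by_cases hm'0 : m' = 0
    · refine ⟨c, ?_, ?_⟩
      · have h3 := hτ 0 0 ⟨[], by simp, by simp, by simp⟩
        rw [hm'0, mul_zero, add_zero] at h4
        rw [add_zero, h4, zero_add] at h3
        exact h3
      · have : c ≤ D := by
          by_contra hcD
          push Not at hcD
          have : D ≤ 1 := by omega
          have h5 : 2 ^ D ≤ 2 ^ 1 := Nat.pow_le_pow_right (by norm_num) this
          have h6 : 1 ≤ 5 ^ 2 ^ k := Nat.one_le_pow _ _ (by norm_num)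
          omega
        have := Nat.mul_le_mul_right (k + 2) this
        omega
    · obtain ⟨K, hK, hK2⟩ := ih m' h1 (A + s) (by omega)
      have h3 := hτ _ _ hK.shift
      rw [h4] at h3
      refine ⟨K + c, h3, ?_⟩
      have h5 : 2 ^ s ≤ m := by
        have : 2 ^ s * 1 ≤ 2 ^ s * m' := Nat.mul_le_mul_left _ (by omega)
        omega
      have h6 : m' ≤ m / 2 ^ s := by
        rw [Nat.le_div_iff_mul_le (by positivity)]
        rw [mul_comm]; omega
      have h7 := Nat.log_mono_right (b := 2) h6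
      have h8 := log_div m s h5
      nlinarith
  have hpow : ∀ b, b < 2 ^ k → 5 ^ b ≤ 5 ^ 2 ^ k := fun b hb =>
    Nat.pow_le_pow_right (by norm_num) hb.le
  have hpos : ∀ b, 0 < 5 ^ b := fun b => by positivity
  have hlift : ∀ x y : ℕ, x ≡ y [MOD 2 ^ (k + 2)] → ∀ z, z + 2 * x ≡ z + 2 * y [MOD 2 ^ (k + 3)] := by
    intro x y h z
    have h1 := Nat.ModEq.mul_left' 2 h
    have h2 : 2 * 2 ^ (k + 2) = 2 ^ (k + 3) := by ring
    rw [h2] at h1
    exact h1.add_left z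
  have hcase : m % 4 = 1 ∨ m % 8 = 3 ∨ m % 8 = 7 := by omega
  rcases hcase with h | h | h
  · obtain ⟨b, hb, hbm⟩ := exists_pow5 k m h
    have := hpow b hb
    exact step (5 ^ b) (k + 2) 1 (by norm_num) le_rfl
      (fun K m' hK => hK.cons ⟨0, b, by omega, by simp⟩) (hpos b) (by omega) hbm
  · obtain ⟨b, hb, hbm⟩ := exists_pow5 k ((m - 1) / 2) (by omega)
    have := hpow b hb
    have h1 := hlift _ _ hbm 1
    have h2 : 1 + 2 * ((m - 1) / 2) = m := by omega
    rw [h2] at h1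
    refine step (1 + 2 * 5 ^ b) (k + 3) 2 le_rfl (by omega)
      (fun K m' hK => ?_) (by omega) (by omega) h1
    have h3 := (hK.cons (x := 2 * 5 ^ b) ⟨1, b, by omega, by simp⟩).cons (x := 1)
      ⟨0, 0, by omega, by simp⟩
    rw [← add_assoc] at h3
    exact h3
  · obtain ⟨b, hb, hbm⟩ := exists_pow5 k ((m - 5) / 2) (by omega)
    have := hpow b hb
    have h1 := hlift _ _ hbm 5
    have h2 : 5 + 2 * ((m - 5) / 2) = m := by omega
    rw [h2] at h1
    refine step (5 + 2 * 5 ^ b) (k + 3) 2 le_rfl (by omega)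
      (fun K m' hK => ?_) (by omega) (by omega) h1
    have h3 := (hK.cons (x := 2 * 5 ^ b) ⟨1, b, by omega, by simp⟩).cons (x := 5)
      ⟨0, 1, by omega, by simp⟩
    rw [← add_assoc] at h3
    exact h3

/-- the terminal size -/
theorem size_bound (k : ℕ) : 5 + 2 * 5 ^ (2 ^ k) ≤ 2 ^ (3 * 2 ^ k + 1) := by
  have h1 : 5 ^ (2 ^ k) + 3 ≤ 8 ^ (2 ^ k) := by
    have h2 : ∀ n : ℕ, 1 ≤ n → 5 ^ n + 3 ≤ 8 ^ n := by
      intro n hn
      induction n, hn using Nat.le_induction with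
      | base => norm_num
      | succ n _ ih => rw [pow_succ, pow_succ]; omega
    exact h2 _ Nat.one_le_two_pow
  have h3 : 2 ^ (3 * 2 ^ k + 1) = 2 * 8 ^ (2 ^ k) := by
    rw [pow_succ, pow_mul]; norm_num; ring
  rw [h3]; omega

/-- Every `n` is a sum of few numbers of the form `2 ^ a * 10 ^ b`. -/
theorem rep_bound (k n : ℕ) : ∃ K : ℕ, K * (k + 2) ≤ 2 * Nat.log 2 n + (3 * 2 ^ k + 1) * (k + 2) ∧
    ∃ l : List ℕ, l.length ≤ 2 ^ k + K ∧ (∀ x ∈ l, IsG x) ∧ l.sum = n := by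
  obtain ⟨K, hK, hK2⟩ := repA_main k (3 * 2 ^ k + 1) (size_bound k) (n / 2 ^ (2 ^ k)) (2 ^ k) le_rfl
  refine ⟨K, ?_, ?_⟩
  · refine hK2.trans ?_
    have := Nat.log_mono_right (b := 2) (Nat.div_le_self n (2 ^ (2 ^ k)))
    omega
  · have h1 : RepA 0 K (2 ^ (2 ^ k) * (n / 2 ^ (2 ^ k))) := by
      have : RepA (0 + 2 ^ k) K (n / 2 ^ (2 ^ k)) := by rwa [zero_add]
      exact this.shift
    have h2 : RepA 0 (2 ^ k) (n % 2 ^ (2 ^ k)) := repA_binary 0 (2 ^ k) _ (Nat.mod_lt _ (by positivity))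
    have h3 := h2.add h1
    rw [Nat.mod_add_div] at h3
    obtain ⟨l, h4, h5, h6⟩ := h3
    refine ⟨l, h4, ?_, h6⟩
    intro x hx
    obtain ⟨i, b, hb, rfl⟩ := h5 x hx
    rw [zero_add] at hb
    refine ⟨i - b, b, ?_⟩
    have h7 : (10 : ℕ) ^ b = 2 ^ b * 5 ^ b := by rw [← mul_pow]; norm_num
    rw [h7, ← mul_assoc, ← pow_add, Nat.sub_add_cancel hb]

end Pool.Agent.H114R2
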