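import Pool.Agent.H114R2.Had
import Pool.Agent.H114R2.Rep

/-! Asymptotic existence of Hadamard matrices. -/

namespace Pool.Agent.H114R2

open Finset Matrix

/-- combinatorial form of the bound -/
theorem had_comb (k q : ℕ) (hq : 0 < q) : ∃ K : ℕ,
    K * (k + 2) ≤ 2 * Nat.log 2 q + (3 * 2 ^ k + 1) * (k + 2) ∧
    ∀ t, 10 * (2 ^ k + K) + 2 ≤ t → HasHad (2 ^ t * q) := by
  obtain ⟨K, hK, l, hl, hG, hs⟩ := rep_bound k q
  refine ⟨K, hK, fun t ht => ?_⟩
  have hN : 1 ≤ 2 ^ k + K := le_trans Nat.one_le_two_pow (Nat.le_add_right _ _)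
  have h1 : 2 ^ k + K ≤ 2 ^ (Nat.clog 2 (2 ^ k + K)) := Nat.le_pow_clog (by norm_num) _
  have h2 : 2 ^ (Nat.clog 2 (2 ^ k + K)) ≤ 2 * (2 ^ k + K) := by
    rcases Nat.eq_or_lt_of_le hN with h | h
    · rw [← h]; norm_num
    · have h3 := Nat.pow_pred_clog_lt_self (b := 2) (by norm_num) h
      have h4 : 0 < Nat.clog 2 (2 ^ k + K) := Nat.clog_pos (by norm_num) h
      have h5 : Nat.clog 2 (2 ^ k + K) = (Nat.clog 2 (2 ^ k + K)).pred + 1 := by
        rw [Nat.pred_eq_sub_one]; omega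
      rw [h5, pow_succ]
      omega
  have h3 : Nat.clog 2 (2 ^ k + K) + 1 ≤ 2 ^ (Nat.clog 2 (2 ^ k + K)) := Nat.lt_two_pow_self
  have h4 := had_of_list (hl.trans h1) hG (by rw [hs]; exact hq) (t := t) (by omega)
  rwa [hs] at h4

theorem log_le_half {y : ℝ} (hy : 0 < y) : Real.log y ≤ y / 2 := by
  have h1 : Real.log (y / 2) ≤ y / 2 - 1 := Real.log_le_sub_one_of_pos (by positivity)
  rw [Real.log_div hy.ne' (by norm_num)] at h1
  have h2 : Real.log 2 < 1 := by
    have := Real.log_two_lt_d9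
    linarith
  linarith

theorem asym (q t : ℕ) (hq : 3 ≤ q) (ht : 100 * Real.log q / Real.log (Real.log q) ≤ t) :
    HasHad (2 ^ t * q) := by
  set x := Real.log q with hx
  set y := Real.log x with hy
  have hq0 : (0 : ℝ) < q := by positivity
  have hx1 : 1 < x := by
    rw [hx, Real.lt_log_iff_exp_lt hq0]
    have h1 : Real.exp 1 < 2.7182818286 := Real.exp_one_lt_d9
    have h2 : (3 : ℝ) ≤ q := by exact_mod_cast hq
    linarith
  have hy0 : 0 < y := Real.log_pos hx1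
  have hyx : y ≤ x - 1 := Real.log_le_sub_one_of_pos (by linarith)
  have hr : 1 < x / y := by
    rw [lt_div_iff₀ hy0]; linarith
  -- choice of `k`
  set r := ⌊x / y⌋₊ with hrdef
  have hr1 : 1 ≤ r := by
    rw [hrdef, Nat.one_le_floor_iff]; exact hr.le
  set k := Nat.log 2 r with hk
  have h2k : (2 : ℝ) ^ k ≤ x / y := by
    have h1 : 2 ^ k ≤ r := Nat.pow_log_le_self 2 (by omega)
    have h2 : ((2 ^ k : ℕ) : ℝ) ≤ r := by exact_mod_cast h1
    have h3 : (r : ℝ) ≤ x / y := Nat.floor_le (by positivity)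
    push_cast at h2
    linarith
  have h2k' : x / y < (2 : ℝ) ^ (k + 1) := by
    have h1 : r < 2 ^ (k + 1) := Nat.lt_pow_succ_log_self (by norm_num) _
    have h2 : r + 1 ≤ 2 ^ (k + 1) := h1
    have h3 : ((r + 1 : ℕ) : ℝ) ≤ ((2 ^ (k + 1) : ℕ) : ℝ) := by exact_mod_cast h2
    have h4 : x / y < r + 1 := Nat.lt_floor_add_one _
    push_cast at h3
    linarith
  obtain ⟨K, hK, hT⟩ := had_comb k q (by omega)
  apply hT
  -- the estimate
  have hlog2 : 0 < Real.log 2 := Real.log_pos (by norm_num)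
  have hklog : y / 2 ≤ (k + 2) * Real.log 2 := by
    have h1 : Real.log (x / y) < Real.log ((2 : ℝ) ^ (k + 1)) :=
      Real.log_lt_log (by positivity) h2k'
    rw [Real.log_div (by linarith) hy0.ne', Real.log_pow, ← hy] at h1
    have h2 := log_le_half hy0
    push_cast at h1
    nlinarith
  have hlogq : (Nat.log 2 q : ℝ) * Real.log 2 ≤ x := by
    have h1 : 2 ^ Nat.log 2 q ≤ q := Nat.pow_log_le_self 2 (by omega)
    have h2 : ((2 ^ Nat.log 2 q : ℕ) : ℝ) ≤ q := by exact_mod_cast h1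
    have h3 : Real.log ((2 : ℝ) ^ Nat.log 2 q) ≤ Real.log q := by
      apply Real.log_le_log (by positivity)
      push_cast at h2
      exact h2
    rwa [Real.log_pow] at h3
  have hKr : (K : ℝ) * (k + 2) ≤ 2 * Nat.log 2 q + (3 * 2 ^ k + 1) * (k + 2) := by
    exact_mod_cast hK
  have hk2 : (0 : ℝ) < k + 2 := by positivity
  have h1 : ((K : ℝ) - (3 * 2 ^ k + 1)) * (y / 2) ≤ 2 * x := by
    by_cases hneg : (K : ℝ) - (3 * 2 ^ k + 1) ≤ 0
    · have : ((K : ℝ) - (3 * 2 ^ k + 1)) * (y / 2) ≤ 0 :=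
        mul_nonpos_of_nonpos_of_nonneg hneg (by positivity)
      linarith
    · push Not at hneg
      calc ((K : ℝ) - (3 * 2 ^ k + 1)) * (y / 2)
          ≤ ((K : ℝ) - (3 * 2 ^ k + 1)) * ((k + 2) * Real.log 2) :=
            mul_le_mul_of_nonneg_left hklog hneg.le
        _ = ((K : ℝ) * (k + 2) - (3 * 2 ^ k + 1) * (k + 2)) * Real.log 2 := by ring
        _ ≤ (2 * Nat.log 2 q) * Real.log 2 := mul_le_mul_of_nonneg_right (by linarith) hlog2.le
        _ ≤ 2 * x := by linarith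
  have h2 : (K : ℝ) ≤ 4 * (x / y) + 3 * 2 ^ k + 1 := by
    have h3 : (K : ℝ) - (3 * 2 ^ k + 1) ≤ 4 * (x / y) := by
      rw [show 4 * (x / y) = (2 * x) / (y / 2) by field_simp; ring]
      rw [le_div_iff₀ (by positivity)]
      exact h1
    linarith
  have h3 : (10 * (2 ^ k + K) + 2 : ℝ) ≤ 100 * x / y := by
    have : 100 * x / y = 100 * (x / y) := by ring
    rw [this]
    nlinarith
  have h4 : ((10 * (2 ^ k + K) + 2 : ℕ) : ℝ) ≤ t := by
    push_cast
    linarith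
  exact_mod_cast h4

end Pool.Agent.H114R2
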