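import Pool.Agent.H114R2.Paley
import Pool.Agent.H341R2.Stepanov

/-! All sign patterns occur in Paley matrices of large order. -/

namespace Pool.Agent.H114R2

open Finset Polynomial

section
variable {p : ℕ} [Fact p.Prime]

theorem natDegree_C_sub_X' (a : ZMod p) : (C a - X : (ZMod p)[X]).natDegree = 1 := by
  have : (C a - X : (ZMod p)[X]) = C (-1) * X + C a := by
    simp
    ring
  rw [this]
  exact natDegree_linear (by rw [neg_ne_zero]; exact one_ne_zero)

theorem prod_ne_sq {A : Finset (ZMod p)} (hA : A.Nonempty) (c : ZMod p) (h : (ZMod p)[X]) :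
    ∏ a ∈ A, (C a - X) ≠ C c * h ^ 2 := by
  intro he
  obtain ⟨a, ha⟩ := hA
  have h0 : ∏ a ∈ A, (C a - X) ≠ (0 : (ZMod p)[X]) := by
    rw [Finset.prod_ne_zero_iff]
    intro b _ hb
    have := congrArg natDegree hb
    rw [natDegree_C_sub_X'] at this
    simp at this
  have h1 : ∏ a ∈ A, (C a - X) = C ((-1) ^ A.card : ZMod p) * ∏ a ∈ A, (X - C a) := by
    have : ∀ a ∈ A, (C a - X : (ZMod p)[X]) = (C (-1)) * (X - C a) := by
      intro a _
      simp
    rw [Finset.prod_congr rfl this, Finset.prod_mul_distrib, Finset.prod_const, C_pow]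
  have hneg : ((-1) ^ A.card : ZMod p) ≠ 0 := by
    apply pow_ne_zero
    rw [neg_ne_zero]
    exact one_ne_zero
  have hr1 : (∏ a ∈ A, (C a - X) : (ZMod p)[X]).roots = A.val := by
    rw [h1, roots_C_mul _ hneg]
    exact roots_prod_X_sub_C A
  have hc : c ≠ 0 := by
    rintro rfl
    rw [he] at h0
    simp at h0
  have hr2 : (C c * h ^ 2).roots = 2 • h.roots := by
    rw [roots_C_mul _ hc, roots_pow]
  rw [he, hr2] at hr1
  have hcount := congrArg (Multiset.count a) hr1
  rw [Multiset.count_nsmul] at hcount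
  have h3 : Multiset.count a A.val = 1 := Multiset.count_eq_one_of_mem A.nodup ha
  omega

theorem eval_prod_sub (A : Finset (ZMod p)) (y : ZMod p) :
    (∏ a ∈ A, (C a - X : (ZMod p)[X])).eval y = ∏ a ∈ A, (a - y) := by
  rw [eval_prod]
  simp

theorem qc_prod {ι : Type} (s : Finset ι) (f : ι → ZMod p) :
    qc p (∏ i ∈ s, f i) = ∏ i ∈ s, qc p (f i) := by
  unfold qc
  exact map_prod _ _ _

theorem weil_prod (hp : p ≠ 2) {A : Finset (ZMod p)} (hA : A.Nonempty) :
    |(∑ y : ZMod p, ∏ a ∈ A, qc p (a - y) : ℤ)| ≤ 5 * A.card * Real.sqrt p := by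
  have hdeg : (∏ a ∈ A, (C a - X : (ZMod p)[X])).natDegree = A.card := by
    rw [natDegree_prod]
    · simp [natDegree_C_sub_X']
    · intro b _ hb
      have := congrArg natDegree hb
      rw [natDegree_C_sub_X'] at this
      simp at this
  have := Pool.Agent.H341R2.weil_bound (F := ZMod p) (ringChar_ne hp)
    (∏ a ∈ A, (C a - X)) (by rw [hdeg]; exact hA.card_pos) (fun c h => prod_ne_sq hA c h)
  rw [hdeg, ZMod.card] at this
  refine le_trans (le_of_eq ?_) this
  push_cast
  have h3 : ∀ y ∈ (Finset.univ : Finset (ZMod p)), ∏ i ∈ A, (qc p (i - y) : ℝ) =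
      ((quadraticChar (ZMod p)) (eval y (∏ a ∈ A, (C a - X))) : ℝ) := by
    intro y _
    rw [eval_prod_sub]
    have h2 : (quadraticChar (ZMod p)) (∏ a ∈ A, (a - y)) = ∏ a ∈ A, qc p (a - y) := qc_prod A _
    rw [h2]
    push_cast
    rfl
  exact congrArg abs (Finset.sum_congr rfl h3)

/-- every sign pattern on a set `A` of residues is realised, when `p` is large -/
theorem pattern (hp : p ≠ 2) (A : Finset (ZMod p)) (s : ZMod p → ℤ)
    (hs : ∀ a, s a = 1 ∨ s a = -1)
    (hbig : (A.card : ℝ) * 2 ^ A.card + 5 * A.card * 2 ^ A.card * Real.sqrt p < p) :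
    ∃ y : ZMod p, ∀ a ∈ A, qc p (a - y) = s a := by
  by_contra hno
  push Not at hno
  -- the sum
  have h1 : ∑ y : ZMod p, ∏ a ∈ A, (1 + s a * qc p (a - y)) =
      ∑ B ∈ A.powerset, (∏ a ∈ B, s a) * ∑ y : ZMod p, ∏ a ∈ B, qc p (a - y) := by
    have : ∀ y : ZMod p, ∏ a ∈ A, (1 + s a * qc p (a - y)) =
        ∑ B ∈ A.powerset, (∏ a ∈ B, s a) * ∏ a ∈ B, qc p (a - y) := by
      intro y
      rw [Finset.prod_one_add]
      refine Finset.sum_congr rfl fun B _ => ?_
      rw [Finset.prod_mul_distrib]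
    simp_rw [this]
    rw [Finset.sum_comm]
    refine Finset.sum_congr rfl fun B _ => ?_
    rw [Finset.mul_sum]
  have hsabs : ∀ B : Finset (ZMod p), |∏ a ∈ B, s a| = 1 := by
    intro B
    rw [Finset.abs_prod]
    refine Finset.prod_eq_one fun a _ => ?_
    rcases hs a with h | h <;> rw [h] <;> norm_num
  -- lower bound
  have h2 : (p : ℝ) - 5 * A.card * 2 ^ A.card * Real.sqrt p ≤
      ((∑ y : ZMod p, ∏ a ∈ A, (1 + s a * qc p (a - y)) : ℤ) : ℝ) := by
    rw [h1]
    have hmem : (∅ : Finset (ZMod p)) ∈ A.powerset := Finset.empty_mem_powerset A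
    rw [← Finset.add_sum_erase _ _ hmem]
    simp only [Finset.prod_empty, Finset.sum_const, Finset.card_univ, ZMod.card, nsmul_eq_mul,
      mul_one, one_mul]
    push_cast
    have h3 : |((∑ B ∈ A.powerset.erase ∅, (∏ a ∈ B, s a) * ∑ y : ZMod p, ∏ a ∈ B, qc p (a - y) : ℤ) : ℝ)|
        ≤ 5 * A.card * 2 ^ A.card * Real.sqrt p := by
      push_cast
      refine (Finset.abs_sum_le_sum_abs _ _).trans ?_
      have h4 : ∀ B ∈ A.powerset.erase ∅,
          |((∏ a ∈ B, (s a : ℝ)) * ∑ y : ZMod p, ∏ a ∈ B, (qc p (a - y) : ℝ))| ≤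
          5 * A.card * Real.sqrt p := by
        intro B hB
        rw [Finset.mem_erase, Finset.mem_powerset] at hB
        have hBn : B.Nonempty := Finset.nonempty_iff_ne_empty.2 hB.1
        rw [abs_mul]
        have e1 : |∏ a ∈ B, (s a : ℝ)| = 1 := by
          have := hsabs B
          have h' : ((|∏ a ∈ B, s a| : ℤ) : ℝ) = 1 := by rw [this]; norm_num
          push_cast at h'
          exact h'
        rw [e1, one_mul]
        have e2 := weil_prod hp hBn
        push_cast at e2
        refine e2.trans ?_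
        have : (B.card : ℝ) ≤ A.card := by exact_mod_cast Finset.card_le_card hB.2
        have hsq := Real.sqrt_nonneg (p : ℝ)
        nlinarith
      refine (Finset.sum_le_sum h4).trans ?_
      rw [Finset.sum_const, nsmul_eq_mul]
      have h5 : ((A.powerset.erase ∅).card : ℝ) ≤ 2 ^ A.card := by
        have : (A.powerset.erase ∅).card ≤ A.powerset.card := Finset.card_le_card (Finset.erase_subset _ _)
        rw [Finset.card_powerset] at this
        exact_mod_cast this
      have h6 : 0 ≤ 5 * (A.card : ℝ) * Real.sqrt p := by positivity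
      calc ((A.powerset.erase ∅).card : ℝ) * (5 * A.card * Real.sqrt p)
          ≤ 2 ^ A.card * (5 * A.card * Real.sqrt p) := mul_le_mul_of_nonneg_right h5 h6
        _ = _ := by ring
    push_cast at h3
    have := (abs_le.1 h3).1
    linarith
  -- upper bound
  have h7 : ((∑ y : ZMod p, ∏ a ∈ A, (1 + s a * qc p (a - y)) : ℤ) : ℝ) ≤ A.card * 2 ^ A.card := by
    have h8 : ∀ y : ZMod p, ∏ a ∈ A, (1 + s a * qc p (a - y)) ≤ if y ∈ A then (2 : ℤ) ^ A.card else 0 := by
      intro y
      split_ifs with hy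
      · have h10 : ∀ a ∈ A, 0 ≤ 1 + s a * qc p (a - y) ∧ 1 + s a * qc p (a - y) ≤ 2 := by
          intro a _
          rcases hs a with h | h <;> rw [h] <;>
            (by_cases hz : a - y = 0
             · rw [hz, qc_zero]; norm_num
             · rcases qc_sign hz with h' | h' <;> rw [h'] <;> norm_num)
        calc ∏ a ∈ A, (1 + s a * qc p (a - y)) ≤ ∏ a ∈ A, (2 : ℤ) :=
              Finset.prod_le_prod (fun a ha => (h10 a ha).1) (fun a ha => (h10 a ha).2)
          _ = 2 ^ A.card := by rw [Finset.prod_const]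
      · obtain ⟨a, ha, hne⟩ := hno y
        have hz : a - y ≠ 0 := by
          intro h
          rw [sub_eq_zero] at h
          exact hy (h ▸ ha)
        refine le_of_eq (Finset.prod_eq_zero ha ?_)
        rcases hs a with h | h <;> rcases qc_sign hz with h' | h' <;> rw [h, h'] at hne ⊢
        · exact absurd rfl hne
        · norm_num
        · norm_num
        · exact absurd rfl hne
    have h9 : (∑ y : ZMod p, ∏ a ∈ A, (1 + s a * qc p (a - y)) : ℤ) ≤ A.card * 2 ^ A.card := by
      refine (Finset.sum_le_sum fun y _ => h8 y).trans (le_of_eq ?_)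
      rw [Finset.sum_ite_mem, Finset.univ_inter, Finset.sum_const, nsmul_eq_mul]
    exact_mod_cast h9
  linarith

theorem large_enough (t : ℕ) : ∃ P : ℕ, ∀ p : ℕ, P ≤ p →
    (t : ℝ) * 2 ^ t + 5 * t * 2 ^ t * Real.sqrt p < p ∧ t ≤ p := by
  refine ⟨(10 * t * 2 ^ t + 1) ^ 2, fun p hp => ?_⟩
  have h1 : ((10 * t * 2 ^ t + 1 : ℕ) : ℝ) ≤ Real.sqrt p := by
    apply Real.le_sqrt_of_sq_le
    exact_mod_cast hp
  have hsq : Real.sqrt (p : ℝ) * Real.sqrt p = p := Real.mul_self_sqrt (Nat.cast_nonneg p)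
  have h2 : (1 : ℝ) ≤ 2 ^ t := one_le_pow₀ (by norm_num)
  have h3 : (0 : ℝ) ≤ (t : ℝ) * 2 ^ t := by positivity
  have h4 : (t : ℝ) ≤ t * 2 ^ t := by
    have : (0 : ℝ) ≤ t := Nat.cast_nonneg t
    nlinarith
  push_cast at h1
  have h5 : (1 : ℝ) ≤ Real.sqrt p := by nlinarith
  have h6 : ((t : ℝ) * 2 ^ t) * 10 * Real.sqrt p + Real.sqrt p ≤ p := by
    nlinarith
  constructor
  · nlinarith
  · have : (t : ℝ) ≤ p := by nlinarith
    exact_mod_cast this

/-- every sign matrix occurs in the Paley matrix, for large primes -/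
theorem universal {S : Type} [Fintype S] [DecidableEq S] (hp : p ≠ 2)
    (hbig : ((2 * Fintype.card S : ℕ) : ℝ) * 2 ^ (2 * Fintype.card S) +
      5 * ((2 * Fintype.card S : ℕ) : ℝ) * 2 ^ (2 * Fintype.card S) * Real.sqrt p < p)
    (hle : 2 * Fintype.card S ≤ p)
    (A : S → S → ℤ) (hA : ∀ j l, A j l = 1 ∨ A j l = -1) :
    ∃ x y : S → ZMod p, Function.Injective x ∧ Function.Injective y ∧
      ∀ j l, qc p (x j - y l) = A j l := by
  have hcard : Fintype.card (S ⊕ S) = 2 * Fintype.card S := by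
    rw [Fintype.card_sum]
    ring
  obtain ⟨e⟩ : Nonempty (S ⊕ S ↪ ZMod p) :=
    Function.Embedding.nonempty_of_card_le (by rw [hcard, ZMod.card]; exact hle)
  let T : Finset (ZMod p) := Finset.univ.map e
  have hT : T.card = 2 * Fintype.card S := by
    simp only [T, Finset.card_map, Finset.card_univ, hcard]
  let f : S → S ⊕ S → ℤ := fun l => Sum.elim (fun j => A j l) (fun i => if i = l then -1 else 1)
  have hf : ∀ l a, f l a = 1 ∨ f l a = -1 := by
    rintro l (a | a)
    · exact hA a l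
    · simp only [f, Sum.elim_inr]
      split_ifs
      · exact Or.inr rfl
      · exact Or.inl rfl
  have hpat : ∀ l : S, ∃ y : ZMod p, ∀ a : S ⊕ S, qc p (e a - y) = f l a := by
    intro l
    obtain ⟨y, hy⟩ := pattern hp T (Function.extend e (f l) (fun _ => 1)) (by
      intro a
      by_cases ha : ∃ b, e b = a
      · obtain ⟨b, rfl⟩ := ha
        rw [e.injective.extend_apply]
        exact hf l b
      · rw [Function.extend_apply' _ _ _ ha]
        exact Or.inl rfl) (by rw [hT]; exact hbig)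
    refine ⟨y, fun a => ?_⟩
    rw [hy (e a) (by simp [T]), e.injective.extend_apply]
  choose y hy using hpat
  refine ⟨fun j => e (Sum.inl j), y, fun a b h => Sum.inl_injective (e.injective h), ?_,
    fun j l => hy l (Sum.inl j)⟩
  intro a b hab
  by_contra hne
  have h1 := hy a (Sum.inr a)
  have h2 := hy b (Sum.inr a)
  rw [hab, h2] at h1
  simp [f, hne] at h1

end

end Pool.Agent.H114R2
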