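import Pool.Agent.H114R2.Paley

/-! Weighing matrices of odd order from projective planes. -/

namespace Pool.Agent.H114R2

open Finset Matrix

/-- there is a weighing matrix of order `s` and weight `k` -/
def HasW (s k : ℕ) : Prop :=
  ∃ M : Matrix (Fin s) (Fin s) ℤ, (∀ i j, M i j = 0 ∨ M i j = 1 ∨ M i j = -1) ∧
    M * Mᵀ = (k : ℤ) • 1

theorem hasW_of_type {ι : Type} [Fintype ι] [DecidableEq ι] {s k : ℕ} (hN : Fintype.card ι = s)
    (W : Matrix ι ι ℤ) (hW : ∀ i j, W i j = 0 ∨ W i j = 1 ∨ W i j = -1)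
    (hWW : W * Wᵀ = (k : ℤ) • 1) : HasW s k := by
  let e : ι ≃ Fin s := Fintype.equivFinOfCardEq hN
  refine ⟨W.submatrix e.symm e.symm, fun i j => hW _ _, ?_⟩
  rw [Matrix.transpose_submatrix, Matrix.submatrix_mul_equiv, hWW]
  ext i j
  rw [Matrix.submatrix_apply, Matrix.smul_apply, Matrix.smul_apply, Matrix.one_apply,
    Matrix.one_apply]
  simp only [e.symm.injective.eq_iff]

theorem type_of_hasW {ι : Type} [Fintype ι] [DecidableEq ι] {s k : ℕ} (hN : Fintype.card ι = s)
    (h : HasW s k) : ∃ W : Matrix ι ι ℤ, (∀ i j, W i j = 0 ∨ W i j = 1 ∨ W i j = -1) ∧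
      W * Wᵀ = (k : ℤ) • 1 := by
  obtain ⟨M, hM, hMM⟩ := h
  let e : ι ≃ Fin s := Fintype.equivFinOfCardEq hN
  refine ⟨M.submatrix e e, fun i j => hM _ _, ?_⟩
  rw [Matrix.transpose_submatrix, Matrix.submatrix_mul_equiv, hMM]
  ext i j
  rw [Matrix.submatrix_apply, Matrix.smul_apply, Matrix.smul_apply, Matrix.one_apply,
    Matrix.one_apply]
  simp only [e.injective.eq_iff]

theorem hasW_kron {s k s' k' : ℕ} (h : HasW s k) (h' : HasW s' k') : HasW (s * s') (k * k') := by
  obtain ⟨M, hM, hMM⟩ := h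
  obtain ⟨M', hM', hMM'⟩ := h'
  refine hasW_of_type (ι := Fin s × Fin s') (by simp) (Matrix.kroneckerMap (· * ·) M M') ?_ ?_
  · intro i j
    rw [Matrix.kroneckerMap_apply]
    rcases hM i.1 j.1 with h | h | h <;> rcases hM' i.2 j.2 with h' | h' | h' <;> rw [h, h'] <;>
      norm_num
  · have := kron_tr M M'
    rw [this, ← Matrix.mul_kronecker_mul, hMM, hMM', Matrix.smul_kronecker,
        Matrix.kronecker_smul, Matrix.one_kronecker_one, smul_smul]
    push_cast
    rfl

theorem hasW_of_hasHad {n : ℕ} (h : HasHad n) : HasW n n := by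
  obtain ⟨H, hH, hHH⟩ := h
  exact ⟨H, fun i j => Or.inr (hH i j), hHH⟩

section
variable (p : ℕ) [Fact p.Prime]

/-- points of the projective plane over `ZMod p` -/
abbrev Pt (p : ℕ) : Type := (ZMod p × ZMod p) ⊕ (ZMod p ⊕ Unit)

/-- representatives -/
def rep : Pt p → ZMod p × ZMod p × ZMod p
  | Sum.inl (a, b) => (1, a, b)
  | Sum.inr (Sum.inl a) => (0, 1, a)
  | Sum.inr (Sum.inr _) => (0, 0, 1)

/-- the standard form -/
def dot (x y : ZMod p × ZMod p × ZMod p) : ZMod p := x.1 * y.1 + x.2.1 * y.2.1 + x.2.2 * y.2.2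

variable {p}

theorem sum_cone (f : ZMod p × ZMod p × ZMod p → ℤ) (h0 : f 0 = 0)
    (hf : ∀ (c : ZMod p) v, c ≠ 0 → f (c * v.1, c * v.2.1, c * v.2.2) = f v) :
    ∑ v, f v = ((p : ℤ) - 1) * ∑ x : Pt p, f (rep p x) := by
  have hcard : ∀ z : ℤ, ∑ c : ZMod p, (if c = 0 then 0 else z) = ((p : ℤ) - 1) * z := by
    intro z
    have h1 : ∀ c : ZMod p, (if c = 0 then 0 else z) = z - if c = 0 then z else 0 := by
      intro c
      split_ifs <;> ring
    simp_rw [h1]
    rw [Finset.sum_sub_distrib, Finset.sum_const, Finset.card_univ, ZMod.card, Finset.sum_ite_eq']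
    simp
    ring
  -- sums over the last coordinate
  have e3 : ∑ c : ZMod p, f (0, 0, c) = ((p : ℤ) - 1) * f (0, 0, 1) := by
    rw [← hcard]
    refine Finset.sum_congr rfl fun c _ => ?_
    split_ifs with hc
    · rw [hc]
      exact h0
    · have := hf c (0, 0, 1) hc
      simpa using this
  have e2 : ∀ b : ZMod p, b ≠ 0 → ∑ c : ZMod p, f (0, b, c) = ∑ c : ZMod p, f (0, 1, c) := by
    intro b hb
    rw [← Equiv.sum_comp (Equiv.mulLeft₀ b hb)]
    refine Finset.sum_congr rfl fun c _ => ?_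
    have := hf b (0, 1, c) hb
    simpa using this
  have e1 : ∀ a : ZMod p, a ≠ 0 → ∑ b : ZMod p, ∑ c : ZMod p, f (a, b, c) =
      ∑ b : ZMod p, ∑ c : ZMod p, f (1, b, c) := by
    intro a ha
    rw [← Equiv.sum_comp (Equiv.mulLeft₀ a ha)]
    refine Finset.sum_congr rfl fun b _ => ?_
    rw [← Equiv.sum_comp (Equiv.mulLeft₀ a ha)]
    refine Finset.sum_congr rfl fun c _ => ?_
    have := hf a (1, b, c) ha
    simpa using this
  have e2' : ∑ b : ZMod p, ∑ c : ZMod p, f (0, b, c) =
      ((p : ℤ) - 1) * (∑ c : ZMod p, f (0, 1, c)) + ((p : ℤ) - 1) * f (0, 0, 1) := by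
    have h1 : ∀ b : ZMod p, ∑ c : ZMod p, f (0, b, c) =
        (if b = 0 then 0 else ∑ c : ZMod p, f (0, 1, c)) +
          (if b = 0 then ((p : ℤ) - 1) * f (0, 0, 1) else 0) := by
      intro b
      by_cases hb : b = 0
      · subst hb
        rw [if_pos rfl, if_pos rfl, zero_add]
        exact e3
      · rw [if_neg hb, if_neg hb, add_zero]
        exact e2 b hb
    rw [Finset.sum_congr rfl (fun b _ => h1 b), Finset.sum_add_distrib, hcard,
      Finset.sum_ite_eq', if_pos (Finset.mem_univ _)]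
  have e1' : ∑ a : ZMod p, ∑ b : ZMod p, ∑ c : ZMod p, f (a, b, c) =
      ((p : ℤ) - 1) * (∑ b : ZMod p, ∑ c : ZMod p, f (1, b, c)) +
        (((p : ℤ) - 1) * (∑ c : ZMod p, f (0, 1, c)) + ((p : ℤ) - 1) * f (0, 0, 1)) := by
    have h1 : ∀ a : ZMod p, ∑ b : ZMod p, ∑ c : ZMod p, f (a, b, c) =
        (if a = 0 then 0 else ∑ b : ZMod p, ∑ c : ZMod p, f (1, b, c)) +
          (if a = 0 then (((p : ℤ) - 1) * (∑ c : ZMod p, f (0, 1, c)) +
            ((p : ℤ) - 1) * f (0, 0, 1)) else 0) := by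
      intro a
      by_cases ha : a = 0
      · subst ha
        rw [if_pos rfl, if_pos rfl, zero_add]
        exact e2'
      · rw [if_neg ha, if_neg ha, add_zero]
        exact e1 a ha
    rw [Finset.sum_congr rfl (fun b _ => h1 b), Finset.sum_add_distrib, hcard,
      Finset.sum_ite_eq', if_pos (Finset.mem_univ _)]
  rw [Fintype.sum_prod_type, Finset.sum_congr rfl (fun a _ => Fintype.sum_prod_type _), e1',
    Fintype.sum_sum_type, Fintype.sum_sum_type, Fintype.sum_prod_type]
  simp only [rep, Finset.univ_unique, Finset.sum_singleton]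
  ring

theorem dot_smul (c : ZMod p) (x v : ZMod p × ZMod p × ZMod p) :
    dot p x (c * v.1, c * v.2.1, c * v.2.2) = c * dot p x v := by
  unfold dot
  ring

theorem dot_add (x v z : ZMod p × ZMod p × ZMod p) (c : ZMod p) :
    dot p x (v.1 + c * z.1, v.2.1 + c * z.2.1, v.2.2 + c * z.2.2) = dot p x v + c * dot p x z := by
  unfold dot
  ring

/-- two distinct points are separated -/
theorem sep (x w : Pt p) (h : x ≠ w) : ∃ z, dot p (rep p x) z = 1 ∧ dot p (rep p w) z = 0 := by
  rcases x with ⟨a, b⟩ | a | _ <;> rcases w with ⟨a', b'⟩ | a' | _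
  · by_cases h1 : a = a'
    · subst h1
      have h2 : b - b' ≠ 0 := sub_ne_zero.2 fun e => h (by rw [e])
      refine ⟨(- b' * (b - b')⁻¹, 0, (b - b')⁻¹), ?_, ?_⟩ <;> simp only [dot, rep]
      · field_simp
        ring
      · field_simp
        ring
    · have h2 : a - a' ≠ 0 := sub_ne_zero.2 h1
      refine ⟨(- a' * (a - a')⁻¹, (a - a')⁻¹, 0), ?_, ?_⟩ <;> simp only [dot, rep]
      · field_simp
        ring
      · field_simp
        ring
  · refine ⟨(1, 0, 0), ?_, ?_⟩ <;> simp [dot, rep]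
  · refine ⟨(1, 0, 0), ?_, ?_⟩ <;> simp [dot, rep]
  · refine ⟨(-a', 1, 0), ?_, ?_⟩ <;> simp [dot, rep]
  · have h2 : a - a' ≠ 0 := sub_ne_zero.2 fun e => h (by rw [e])
    refine ⟨(0, - a' * (a - a')⁻¹, (a - a')⁻¹), ?_, ?_⟩ <;> simp only [dot, rep]
    · field_simp
      ring
    · field_simp
      ring
  · refine ⟨(0, 1, 0), ?_, ?_⟩ <;> simp [dot, rep]
  · refine ⟨(-b', 0, 1), ?_, ?_⟩ <;> simp [dot, rep]
  · refine ⟨(0, -a', 1), ?_, ?_⟩ <;> simp [dot, rep]
  · exact absurd rfl h

theorem sum_dot (hp : p ≠ 2) (x w : Pt p) (h : x ≠ w) :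
    ∑ v, qc p (dot p (rep p x) v) * qc p (dot p (rep p w) v) = 0 := by
  obtain ⟨z, hz, hz'⟩ := sep x w h
  have h1 : ∀ c : ZMod p, ∑ v, qc p (dot p (rep p x) v) * qc p (dot p (rep p w) v) =
      ∑ v, qc p (dot p (rep p x) v + c) * qc p (dot p (rep p w) v) := by
    intro c
    rw [← Equiv.sum_comp (Equiv.addRight ((c * z.1, c * z.2.1, c * z.2.2) :
      ZMod p × ZMod p × ZMod p))]
    refine Finset.sum_congr rfl fun v _ => ?_
    have e : (Equiv.addRight ((c * z.1, c * z.2.1, c * z.2.2) : ZMod p × ZMod p × ZMod p)) v =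
      (v.1 + c * z.1, v.2.1 + c * z.2.1, v.2.2 + c * z.2.2) := rfl
    rw [e, dot_add, dot_add, hz, hz', mul_one, mul_zero, add_zero]
  have h2 : (p : ℤ) * ∑ v, qc p (dot p (rep p x) v) * qc p (dot p (rep p w) v) = 0 := by
    have h3 : ∑ c : ZMod p, ∑ v, qc p (dot p (rep p x) v) * qc p (dot p (rep p w) v) =
        ∑ c : ZMod p, ∑ v, qc p (dot p (rep p x) v + c) * qc p (dot p (rep p w) v) :=
      Finset.sum_congr rfl fun c _ => h1 c
    rw [Finset.sum_const, Finset.card_univ, ZMod.card, nsmul_eq_mul] at h3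
    rw [h3, Finset.sum_comm]
    refine Finset.sum_eq_zero fun v _ => ?_
    rw [← Finset.sum_mul]
    have h4 : ∑ c : ZMod p, qc p (dot p (rep p x) v + c) = 0 := by
      rw [← sum_qc hp]
      exact Fintype.sum_equiv (Equiv.addLeft _) _ _ (fun y => rfl)
    rw [h4, zero_mul]
  have hp0 : (p : ℤ) ≠ 0 := by
    have := (Fact.out : p.Prime).pos
    exact_mod_cast this.ne'
  exact (mul_eq_zero.1 h2).resolve_left hp0

theorem sum_dot_sq (x : Pt p) :
    ∑ v, qc p (dot p (rep p x) v) * qc p (dot p (rep p x) v) = (p : ℤ) ^ 2 * ((p : ℤ) - 1) := by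
  have hcard : ∑ c : ZMod p, qc p c * qc p c = (p : ℤ) - 1 := by
    have h1 : ∀ i : ZMod p, qc p i * qc p i = 1 - if i = 0 then 1 else 0 := by
      intro i
      by_cases hi : i = 0
      · rw [hi, qc_zero, if_pos rfl]
        ring
      · rw [qc_sq hi, if_neg hi]
        ring
    simp_rw [h1]
    rw [Finset.sum_sub_distrib, Finset.sum_const, Finset.card_univ, ZMod.card,
      Finset.sum_ite_eq', if_pos (Finset.mem_univ _)]
    simp
  have key : ∀ c : ZMod p, ∑ y : ZMod p, qc p (y + c) * qc p (y + c) = (p : ℤ) - 1 := by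
    intro c
    rw [← hcard]
    exact Fintype.sum_equiv (Equiv.addRight c) _ _ (fun y => rfl)
  rw [Fintype.sum_prod_type, Finset.sum_congr rfl (fun a _ => Fintype.sum_prod_type _)]
  rcases x with ⟨a, b⟩ | a | _
  · rw [Finset.sum_comm, Finset.sum_congr rfl (fun a _ => Finset.sum_comm)]
    have h1 : ∀ v w : ZMod p, ∑ u : ZMod p, qc p (dot p (rep p (Sum.inl (a, b))) (u, v, w)) *
        qc p (dot p (rep p (Sum.inl (a, b))) (u, v, w)) = (p : ℤ) - 1 := by
      intro v w
      rw [← key (a * v + b * w)]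
      refine Finset.sum_congr rfl fun u _ => ?_
      have : dot p (rep p (Sum.inl (a, b))) (u, v, w) = u + (a * v + b * w) := by
        simp only [dot, rep]
        ring
      rw [this]
    simp_rw [h1]
    simp [ZMod.card]
    ring
  · rw [Finset.sum_congr rfl (fun a _ => Finset.sum_comm)]
    have h1 : ∀ u w : ZMod p, ∑ v : ZMod p, qc p (dot p (rep p (Sum.inr (Sum.inl a))) (u, v, w)) *
        qc p (dot p (rep p (Sum.inr (Sum.inl a))) (u, v, w)) = (p : ℤ) - 1 := by
      intro u w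
      rw [← key (a * w)]
      refine Finset.sum_congr rfl fun v _ => ?_
      have : dot p (rep p (Sum.inr (Sum.inl a))) (u, v, w) = v + a * w := by
        simp only [dot, rep]
        ring
      rw [this]
    simp_rw [h1]
    simp [ZMod.card]
    ring
  · have h1 : ∀ u v : ZMod p, ∑ w : ZMod p, qc p (dot p (rep p (Sum.inr (Sum.inr ()))) (u, v, w)) *
        qc p (dot p (rep p (Sum.inr (Sum.inr ()))) (u, v, w)) = (p : ℤ) - 1 := by
      intro u v
      rw [← key 0]
      refine Finset.sum_congr rfl fun w _ => ?_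
      have : dot p (rep p (Sum.inr (Sum.inr ()))) (u, v, w) = w + 0 := by
        simp only [dot, rep]
        ring
      rw [this]
    simp_rw [h1]
    simp [ZMod.card]
    ring

/-- the weighing matrix of order `p² + p + 1` and weight `p²` -/
theorem hasW_plane (hp : p ≠ 2) : HasW (p ^ 2 + p + 1) (p ^ 2) := by
  refine hasW_of_type (ι := Pt p) ?_
    (Matrix.of fun x y => qc p (dot p (rep p x) (rep p y))) ?_ ?_
  · simp [ZMod.card]
    ring
  · intro x y
    rw [Matrix.of_apply]
    by_cases h : dot p (rep p x) (rep p y) = 0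
    · left
      rw [h, qc_zero]
    · right
      exact qc_sign h
  · have hp1 : ((p : ℤ) - 1) ≠ 0 := by
      have := (Fact.out : p.Prime).one_lt
      have : (1 : ℤ) < p := by exact_mod_cast this
      omega
    ext x w
    rw [Matrix.mul_apply, Matrix.smul_apply, Matrix.one_apply]
    simp only [Matrix.transpose_apply, Matrix.of_apply]
    have h1 := sum_cone (p := p)
      (fun v => qc p (dot p (rep p x) v) * qc p (dot p (rep p w) v)) (by
        have : dot p (rep p x) 0 = 0 := by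
          simp [dot]
        simp only [this, qc_zero, zero_mul]) (by
        intro c v hc
        simp only [dot_smul, qc_mul]
        linear_combination (qc p (dot p (rep p x) v) * qc p (dot p (rep p w) v)) * qc_sq hc)
    by_cases hxw : x = w
    · subst hxw
      rw [if_pos rfl]
      rw [sum_dot_sq] at h1
      apply mul_left_cancel₀ hp1
      rw [← h1]
      simp
      ring
    · rw [if_neg hxw]
      rw [sum_dot hp x w hxw] at h1
      apply mul_left_cancel₀ hp1
      rw [← h1]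
      simp

end

end Pool.Agent.H114R2
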