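import Pool.Agent.H114R2.Parity
import Pool.Agent.H114R2.Univ
import Pool.Agent.H114R2.Weigh

/-! Blow-ups modulo `4 m'` with odd multiplicities. -/

namespace Pool.Agent.H114R2

open Finset Matrix

theorem kron_had {X Y : Type} [Fintype X] [DecidableEq X] [Fintype Y] [DecidableEq Y]
    (A : Matrix X X ℤ) (B : Matrix Y Y ℤ) (a b : ℤ) (hA : A * Aᵀ = a • 1) (hB : B * Bᵀ = b • 1) :
    Matrix.kroneckerMap (· * ·) A B * (Matrix.kroneckerMap (· * ·) A B)ᵀ = (a * b) • 1 := by
  have h4 := kron_tr A B
  rw [h4, ← Matrix.mul_kronecker_mul, hA, hB, Matrix.smul_kronecker,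
      Matrix.kronecker_smul, Matrix.one_kronecker_one, smul_smul]

/-- the sign of a Boolean -/
def bs (b : Bool) : ℤ := if b then -1 else 1

theorem bs_sign (b : Bool) : bs b = 1 ∨ bs b = -1 := by
  cases b
  · exact Or.inl rfl
  · exact Or.inr rfl

section
variable {L : Type} [Fintype L] [DecidableEq L]

/-- the Sylvester matrix -/
def syl (L : Type) [Fintype L] : Matrix (L → Bool) (L → Bool) ℤ :=
  Matrix.of fun σ τ => ∏ i, bs (σ i && τ i)

theorem syl_sign (σ τ : L → Bool) : syl L σ τ = 1 ∨ syl L σ τ = -1 :=
  prod_sign _ _ fun _ => bs_sign _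

theorem syl_mul : syl L * (syl L)ᵀ = ((2 : ℤ) ^ Fintype.card L) • 1 := by
  ext σ σ'
  rw [Matrix.mul_apply, Matrix.smul_apply, Matrix.one_apply]
  simp only [Matrix.transpose_apply, syl, Matrix.of_apply]
  simp_rw [← Finset.prod_mul_distrib]
  have h1 : ∑ τ : L → Bool, ∏ i, bs (σ i && τ i) * bs (σ' i && τ i) =
      ∏ i : L, ∑ b : Bool, bs (σ i && b) * bs (σ' i && b) := by
    rw [Finset.prod_univ_sum, Fintype.piFinset_univ]
  rw [h1]
  by_cases h : σ = σ'
  · subst h
    rw [if_pos rfl]
    have h2 : ∀ i, ∑ b : Bool, bs (σ i && b) * bs (σ i && b) = 2 := by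
      intro i
      cases σ i <;> decide
    simp_rw [h2]
    simp
  · rw [if_neg h]
    obtain ⟨i, hi⟩ := Function.ne_iff.1 h
    rw [Finset.prod_eq_zero (Finset.mem_univ i)]
    · simp
    · revert hi
      cases σ i <;> cases σ' i <;> decide

/-- special columns -/
def dcol (L : Type) [DecidableEq L] : Option L → L → Bool
  | none => fun _ => true
  | some i => fun j => decide (j = i)

theorem syl_false (σ : L → Bool) : syl L σ (fun _ => false) = 1 := by
  simp [syl, bs]

theorem syl_none (σ : L → Bool) : syl L σ (dcol L none) = ∏ i, bs (σ i) := by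
  simp [syl, dcol]

theorem syl_some (σ : L → Bool) (i : L) : syl L σ (dcol L (some i)) = bs (σ i) := by
  simp only [syl, dcol, Matrix.of_apply]
  rw [Finset.prod_eq_single i]
  · simp
  · intro j _ hj
    simp [hj, bs]
  · intro h
    exact absurd (Finset.mem_univ _) h

theorem bs_sq (b : Bool) : bs b * bs b = 1 := by
  cases b <;> decide

theorem syl_prod (σ : L → Bool) : ∏ l : Option L, syl L σ (dcol L l) = 1 := by
  rw [Fintype.prod_option, syl_none]
  simp_rw [syl_some]
  rw [← Finset.prod_mul_distrib]
  exact Finset.prod_eq_one fun i _ => bs_sq _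

theorem dcol_ne [Nonempty L] (l : Option L) : dcol L l ≠ fun _ => false := by
  intro h
  rcases l with _ | i
  · have := congrFun h (Classical.arbitrary L)
    simp [dcol] at this
  · have := congrFun h i
    simp [dcol] at this

theorem sign_div {a b : ℤ} (ha : a = 1 ∨ a = -1) (hb : b = 1 ∨ b = -1) :
    bs (decide (a * b = -1)) = a * b := by
  rcases ha with h | h <;> rcases hb with h' | h' <;> subst h <;> subst h' <;> simp [bs]

/-- sign completion of a weighing matrix row with row product one -/
theorem fill {S : Type} [Fintype S] [DecidableEq S] (M : S → ℤ)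
    (hM : ∀ l, M l = 0 ∨ M l = 1 ∨ M l = -1) (h0 : ∃ l, M l = 0) :
    ∃ A : S → ℤ, (∀ l, A l = 1 ∨ A l = -1) ∧ (∀ l, M l = 0 ∨ M l = A l) ∧ ∏ l, A l = 1 := by
  obtain ⟨z, hz⟩ := h0
  let B : S → ℤ := fun l => if M l = 0 then 1 else M l
  have hB : ∀ l, B l = 1 ∨ B l = -1 := by
    intro l
    simp only [B]
    split_ifs with h
    · exact Or.inl rfl
    · exact (hM l).resolve_left h
  let P : ℤ := ∏ l ∈ Finset.univ.erase z, B l
  have hP : P = 1 ∨ P = -1 := prod_sign _ _ hB
  refine ⟨fun l => if l = z then P else B l, ?_, ?_, ?_⟩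
  · intro l
    simp only []
    split_ifs
    · exact hP
    · exact hB l
  · intro l
    simp only []
    by_cases h : l = z
    · left
      rw [h, hz]
    · rw [if_neg h]
      by_cases h' : M l = 0
      · exact Or.inl h'
      · right
        simp only [B]
        rw [if_neg h']
  · rw [← Finset.mul_prod_erase Finset.univ _ (Finset.mem_univ z)]
    have h1 : ∏ l ∈ Finset.univ.erase z, (if l = z then P else B l) = P := by
      refine Finset.prod_congr rfl fun l hl => ?_
      rw [if_neg (Finset.ne_of_mem_erase hl)]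
    rw [h1]
    simp only [if_true]
    rcases hP with h | h <;> rw [h] <;> norm_num

end

/-- blow-ups modulo `4 m` -/
theorem mod_four_of_core {p : ℕ} [Fact p.Prime] (hp3 : p % 4 = 3)
    (m k g c w : ℕ) (hm : 0 < m) (hmodd : m.Coprime 4) (hw : m ∣ w) (hc : c % 2 = 1)
    (hg : HasHad g) (hg0 : 0 < g) (hW : HasW (2 * (c + 1)) k) (hk2 : 2 ∣ k)
    (hklt : k < 2 * (c + 1))
    (hk : 4 * k ≡ (p + 1) * g * 2 ^ c [MOD m])
    (hbig : ((2 * (2 * (c + 1)) : ℕ) : ℝ) * 2 ^ (2 * (2 * (c + 1))) +
      5 * ((2 * (2 * (c + 1)) : ℕ) : ℝ) * 2 ^ (2 * (2 * (c + 1))) * Real.sqrt p < p)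
    (hle : 2 * (2 * (c + 1)) ≤ p) :
    ModHad (4 * m) ((p + 1) * g * 2 ^ c + 2 * (c + 1) * w) := by
  classical
  have hp2 : p ≠ 2 := by omega
  let L := Fin c
  have hc0 : 0 < c := by omega
  have : Nonempty L := ⟨⟨0, hc0⟩⟩
  let S := Option L × Bool
  have hcS : Fintype.card S = 2 * (c + 1) := by
    simp [S, L]
    ring
  obtain ⟨M, hM, hMM⟩ := type_of_hasW (ι := S) hcS hW
  have hMk : ∀ j, ∑ l, M j l * M j l = k := by
    intro j
    have := congrFun (congrFun hMM j) j
    rw [Matrix.mul_apply, Matrix.smul_apply, Matrix.one_apply_eq] at this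
    simpa using this
  have hM0 : ∀ j, ∃ l, M j l = 0 := by
    intro j
    by_contra hno
    push Not at hno
    have h1 : ∀ l, M j l * M j l = 1 := by
      intro l
      rcases hM j l with h | h | h
      · exact absurd h (hno l)
      · rw [h]; norm_num
      · rw [h]; norm_num
    have h2 := hMk j
    simp_rw [h1] at h2
    rw [Finset.sum_const, Finset.card_univ, hcS] at h2
    simp at h2
    omega
  choose A hA hMA hAprod using fun j => fill (M j) (hM j) (hM0 j)
  obtain ⟨H0, hH0, hHH0, hcore⟩ := paley_one (p := p) hp3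
  obtain ⟨G, hG, hGG⟩ := hg
  let γ : Fin g := ⟨0, hg0⟩
  have hGγ := hG γ γ
  obtain ⟨x, y, hx, hy, hxy⟩ := universal (p := p) (S := S) hp2
    (by rw [hcS]; exact hbig) (by rw [hcS]; exact hle)
    (fun j l => A j (l.1, false) * G γ γ) (fun j l => sign_mul (hA j _) hGγ)
  have hGG1 : G γ γ * G γ γ = 1 := by
    rcases hGγ with h | h <;> rw [h] <;> norm_num
  let ι := (Option (ZMod p) × Fin g) × (L → Bool)
  let H : Matrix ι ι ℤ := Matrix.kroneckerMap (· * ·) (Matrix.kroneckerMap (· * ·) H0 G) (syl L)
  have hHapp : ∀ a b : ι, H a b = H0 a.1.1 b.1.1 * G a.1.2 b.1.2 * syl L a.2 b.2 := by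
    intro a b
    simp only [H, Matrix.kroneckerMap_apply]
  have hH : ∀ i j, H i j = 1 ∨ H i j = -1 :=
    kron_sign _ _ (kron_sign _ _ hH0 hG) syl_sign
  let n0 := (p + 1) * g * 2 ^ c
  have hHH : H * Hᵀ = ((n0 : ℕ) : ℤ) • 1 := by
    have h6 := kron_had _ (syl L) _ _ (kron_had H0 G _ _ hHH0 hGG) syl_mul
    refine h6.trans ?_
    congr 1
    simp [n0, L]
  have hcard : Fintype.card ι = n0 := by
    simp [ι, n0, L, ZMod.card]
  have h4n : 4 ∣ n0 := by
    have : 4 ∣ p + 1 := by omega
    exact (this.mul_right g).mul_right _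
  have h4S : 4 ∣ Fintype.card S := by
    rw [hcS]
    omega
  let X : S → ι := fun j => ((some (x j), γ), fun i =>
    decide (A j (some i, false) * A j (some i, true) = -1))
  let Y : S → ι := fun l => ((some (y (l.1, false)), γ), if l.2 then dcol L l.1 else fun _ => false)
  have hX : Function.Injective X := by
    intro a b hab
    have h1 : some (x a) = some (x b) := by
      have := congrArg (fun t : ι => t.1.1) hab
      exact this
    exact hx (Option.some_injective _ h1)
  have hY : Function.Injective Y := by
    rintro ⟨a, s⟩ ⟨b, t⟩ hab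
    have h1 : some (y (a, false)) = some (y (b, false)) := by
      have := congrArg (fun t : ι => t.1.1) hab
      exact this
    have h2 := hy (Option.some_injective _ h1)
    have h3 : a = b := congrArg Prod.fst h2
    subst h3
    have h4 : (if s then dcol L a else fun _ => false) = (if t then dcol L a else fun _ => false) := by
      have := congrArg (fun t : ι => t.2) hab
      exact this
    cases s <;> cases t
    · rfl
    · simp only [Bool.false_eq_true, if_false, if_true] at h4
      exact absurd h4.symm (dcol_ne a)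
    · simp only [Bool.false_eq_true, if_false, if_true] at h4
      exact absurd h4 (dcol_ne a)
    · rfl
  have hsyl : ∀ j (l : Option L), syl L (X j).2 (dcol L l) = A j (l, false) * A j (l, true) := by
    intro j l
    rcases l with _ | i
    · rw [syl_none]
      have h1 := hAprod j
      rw [Fintype.prod_prod_type, Fintype.prod_option] at h1
      have h2 : ∀ l : Option L, ∏ b : Bool, A j (l, b) = A j (l, true) * A j (l, false) := by
        intro l
        rw [Fintype.prod_bool]
      simp_rw [h2] at h1
      have h3 : ∏ i : L, bs ((X j).2 i) = ∏ i : L, A j (some i, true) * A j (some i, false) := by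
        refine Finset.prod_congr rfl fun i _ => ?_
        simp only [X]
        rw [sign_div (hA j _) (hA j _)]
        ring
      rw [h3]
      have h4 : (A j (none, true) * A j (none, false)) * (A j (none, true) * A j (none, false)) = 1 := by
        rcases hA j (none, true) with h | h <;> rcases hA j (none, false) with h' | h' <;>
          rw [h, h'] <;> norm_num
      calc ∏ i : L, A j (some i, true) * A j (some i, false)
          = (A j (none, true) * A j (none, false)) * (A j (none, true) * A j (none, false)) *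
            ∏ i : L, A j (some i, true) * A j (some i, false) := by rw [h4, one_mul]
        _ = (A j (none, true) * A j (none, false)) * ((A j (none, true) * A j (none, false)) *
            ∏ i : L, A j (some i, true) * A j (some i, false)) := by ring
        _ = _ := by rw [h1]; ring
    · rw [syl_some]
      simp only [X]
      rw [sign_div (hA j _) (hA j _)]
  have hentry : ∀ j l, H (X j) (Y l) = A j l := by
    rintro j ⟨l, b⟩
    have hne : x j ≠ y (l, false) := by
      intro h
      have h2 := hxy j (l, false)
      rw [h, sub_self, qc_zero] at h2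
      rcases sign_mul (hA j (l, false)) hGγ with h3 | h3
      · rw [h3] at h2; norm_num at h2
      · rw [h3] at h2; norm_num at h2
    have h5 : H0 (some (x j)) (some (y (l, false))) * G γ γ = A j (l, false) := by
      rw [hcore _ _ hne, hxy j (l, false)]
      rw [mul_assoc, hGG1, mul_one]
    rw [hHapp]
    cases b
    · show H0 (some (x j)) (some (y (l, false))) * G γ γ * syl L (X j).2 (fun _ => false) = _
      rw [syl_false, mul_one]
      exact h5
    · show H0 (some (x j)) (some (y (l, false))) * G γ γ * syl L (X j).2 (dcol L l) = _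
      rw [h5, hsyl, ← mul_assoc]
      have : A j (l, false) * A j (l, false) = 1 := by
        rcases hA j (l, false) with h | h <;> rw [h] <;> norm_num
      rw [this, one_mul]
  have hprod : ∀ i, ∏ l, H i (Y l) = 1 := by
    intro i
    rw [Fintype.prod_prod_type]
    have h1 : ∀ l : Option L, ∏ b : Bool, H i (Y (l, b)) = syl L i.2 (dcol L l) := by
      intro l
      rw [Fintype.prod_bool, hHapp, hHapp]
      show H0 i.1.1 (some (y (l, false))) * G i.1.2 γ * syl L i.2 (dcol L l) *
        (H0 i.1.1 (some (y (l, false))) * G i.1.2 γ * syl L i.2 (fun _ => false)) = _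
      rw [syl_false]
      rcases hH0 i.1.1 (some (y (l, false))) with h | h <;>
        rcases hG i.1.2 γ with h' | h' <;> rw [h, h'] <;> ring
    simp_rw [h1]
    exact syl_prod _
  have := blowup_four m n0 w hm hmodd H hH hHH hcard h4n h4S X Y hX hY M
    (by
      intro j l
      rw [hentry]
      exact hMA j l) k hk2 hMM hk hw hprod
  rw [hcS] at this
  exact this

end Pool.Agent.H114R2
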