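import Pool.Agent.H114R2.ModA
import Pool.Agent.H114R2.Sylv

/-! Number theory for the choice of the base matrices; Hadamard matrices of order `r (p + 1)`. -/

namespace Pool.Agent.H114R2

open Finset Matrix

theorem solve_mod {a M : ℕ} (h : a.Coprime M) (b : ℕ) : ∃ x, a * x ≡ b [MOD M] := by
  rcases Nat.lt_or_ge 1 M with hM | hM
  · obtain ⟨y, hy⟩ := Nat.exists_mul_mod_eq_one_of_coprime h hM
    have hy' : a * y ≡ 1 [MOD M] := by
      show a * y % _ = 1 % _
      rw [hy.2, Nat.mod_eq_of_lt hM]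
    refine ⟨y * b, ?_⟩
    have := hy'.mul_right b
    rwa [one_mul, mul_assoc] at this
  · interval_cases M
    · rw [Nat.coprime_zero_right] at h
      subst h
      exact ⟨b, by rw [one_mul]⟩
    · exact ⟨0, Nat.modEq_one⟩

theorem crt_prime (m : ℕ) (hm : 0 < m) (t : ℕ) (ht : t % 2 = 1) (b : ℕ → ℕ)
    (hb : ∀ l, l.Prime → l ∣ m → l ≠ 2 → ¬ l ∣ b l) (B : ℕ) :
    ∃ q, B < q ∧ q.Prime ∧ q ≡ t [MOD 8] ∧
      ∀ l, l.Prime → l ∣ m → l ≠ 2 → q ≡ b l [MOD l] := by
  let s : ℕ → ℕ := fun l => if l = 2 then 8 else l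
  let b' : ℕ → ℕ := fun l => if l = 2 then t else b l
  have hs0 : ∀ l ∈ insert 2 m.primeFactors, s l ≠ 0 := by
    intro l hl
    simp only [s]
    split_ifs with h
    · norm_num
    · rw [Finset.mem_insert] at hl
      rcases hl with h' | h'
      · exact absurd h' h
      · exact (Nat.prime_of_mem_primeFactors h').pos.ne'
  have hprime : ∀ l ∈ insert 2 m.primeFactors, l.Prime := by
    intro l hl
    rw [Finset.mem_insert] at hl
    rcases hl with h' | h'
    · rw [h']; exact Nat.prime_two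
    · exact Nat.prime_of_mem_primeFactors h'
  have hpair : Set.Pairwise (↑(insert 2 m.primeFactors) : Set ℕ) (Function.onFun Nat.Coprime s) := by
    intro a ha b' hb hab
    have hpa := hprime a (Finset.mem_coe.1 ha)
    have hpb := hprime b' (Finset.mem_coe.1 hb)
    simp only [Function.onFun, s]
    have hcop := (Nat.coprime_primes hpa hpb).2 hab
    split_ifs with h h' h'
    · exact absurd (h.trans h'.symm) hab
    · subst h
      have := Nat.Coprime.pow_left 3 hcop
      simpa using this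
    · subst h'
      have := Nat.Coprime.pow_right 3 hcop
      simpa using this
    · exact hcop
  obtain ⟨a, ha⟩ := Nat.chineseRemainderOfFinset b' s (insert 2 m.primeFactors) hs0 hpair
  have ha2 : a ≡ t [MOD 8] := by
    have := ha 2 (Finset.mem_insert_self _ _)
    simpa [s, b'] using this
  have hal : ∀ l ∈ m.primeFactors, l ≠ 2 → a ≡ b l [MOD l] := by
    intro l hl hl2
    have := ha l (Finset.mem_insert_of_mem hl)
    simpa [s, b', hl2] using this
  have haodd : a % 2 = 1 := by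
    have h1 : a ≡ t [MOD 2] := ha2.of_dvd (by norm_num)
    have h2 : a % 2 = t % 2 := h1
    omega
  have hcop : a.Coprime (8 * m) := by
    apply Nat.Coprime.mul_right
    · have : a.Coprime 2 := by
        rw [Nat.coprime_comm, Nat.Prime.coprime_iff_not_dvd Nat.prime_two]
        omega
      have := Nat.Coprime.pow_right 3 this
      simpa using this
    · refine Nat.coprime_of_dvd fun l hl hla hlm => ?_
      by_cases hl2 : l = 2
      · subst hl2
        omega
      · have h1 := hal l (Nat.mem_primeFactors.2 ⟨hl, hlm, hm.ne'⟩) hl2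
        exact hb l hl hlm hl2 ((h1.dvd_iff (dvd_refl l)).1 hla)
  obtain ⟨q, hqB, hq, hqa⟩ := Nat.forall_exists_prime_gt_and_modEq B (by positivity : 8 * m ≠ 0) hcop
  refine ⟨q, hqB, hq, (hqa.of_dvd ⟨m, rfl⟩).trans ha2, ?_⟩
  intro l hl hlm hl2
  have h1 : q ≡ a [MOD l] := hqa.of_dvd (hlm.mul_left 8)
  exact h1.trans (hal l (Nat.mem_primeFactors.2 ⟨hl, hlm, hm.ne'⟩) hl2)

/-- a Hadamard order `c0 (q + 1) = 4 r'` with `r'` odd, in good residue classes -/
theorem good_order (m : ℕ) (hm : 0 < m) (n : ℕ) :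
    ∃ R r' : ℕ, HasHad R ∧ R = 4 * r' ∧ r'.Coprime (2 * m) ∧ 0 < r' ∧
      ∀ l, l.Prime → l ∣ m → l ≠ 2 → ¬ R ≡ n [MOD l] := by
  -- the multiplier
  obtain ⟨c0, t, hc0, h3, ht⟩ : ∃ c0 t : ℕ, (c0 = 1 ∧ t = 3 ∨ c0 = 2 ∧ t = 5) ∧
      ¬ n ≡ 2 * c0 [MOD 3] ∧ t % 2 = 1 := by
    by_cases h : n % 3 = 2
    · refine ⟨2, 5, Or.inr ⟨rfl, rfl⟩, ?_, rfl⟩
      intro h'
      have : n % 3 = (2 * 2) % 3 := h'
      omega
    · refine ⟨1, 3, Or.inl ⟨rfl, rfl⟩, ?_, rfl⟩
      intro h'
      have : n % 3 = (2 * 1) % 3 := h'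
      omega
  have hnd : ∀ l, l.Prime → l ≠ 2 → ¬ l ∣ 2 := by
    intro l hl hl2 h
    exact hl2 ((Nat.prime_dvd_prime_iff_eq hl Nat.prime_two).1 h)
  have hndc : ∀ l, l.Prime → l ≠ 2 → ¬ l ∣ c0 := by
    intro l hl hl2 h
    rcases hc0 with ⟨h', _⟩ | ⟨h', _⟩
    · rw [h'] at h
      exact hl.one_lt.ne' (Nat.dvd_one.1 h)
    · rw [h'] at h
      exact hnd l hl hl2 h
  classical
  let b : ℕ → ℕ := fun l => if n ≡ 2 * c0 [MOD l] then 2 else 1
  obtain ⟨q, hq2, hq, hqt, hql⟩ := crt_prime m hm t ht b (by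
    intro l hl _ hl2 h
    simp only [b] at h
    split_ifs at h with h'
    · exact hnd l hl hl2 h
    · exact hl.one_lt.ne' (Nat.dvd_one.1 h)) 2
  have : Fact q.Prime := ⟨hq⟩
  have hqt' : q % 8 = t % 8 := hqt
  have hR : HasHad (c0 * (q + 1)) := by
    rcases hc0 with ⟨h1, h2⟩ | ⟨h1, h2⟩
    · obtain ⟨H, hH, hHH, _⟩ := paley_one (p := q) (by omega)
      rw [h1, one_mul]
      exact hasHad_of_type (by rw [Fintype.card_option, ZMod.card]) H hH hHH
    · obtain ⟨H, hH, hHH, _⟩ := paley_two (p := q) (by omega)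
      rw [h1]
      exact hasHad_of_type (by
        rw [Fintype.card_prod, Fintype.card_option, ZMod.card, Fintype.card_fin]
        ring) H hH hHH
  obtain ⟨r', hr', hr'odd⟩ : ∃ r', c0 * (q + 1) = 4 * r' ∧ r' % 2 = 1 := by
    rcases hc0 with ⟨h1, h2⟩ | ⟨h1, h2⟩
    · refine ⟨(q + 1) / 4, ?_, ?_⟩
      · rw [h1]
        omega
      · omega
    · refine ⟨(q + 1) / 2, ?_, ?_⟩
      · rw [h1]
        omega
      · omega
  have hRl : ∀ l, l.Prime → l ∣ m → l ≠ 2 → c0 * (q + 1) ≡ c0 * (b l + 1) [MOD l] := by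
    intro l hl hlm hl2
    exact ((hql l hl hlm hl2).add_right 1).mul_left c0
  refine ⟨c0 * (q + 1), r', hR, hr', ?_, by omega, ?_⟩
  · refine Nat.coprime_of_dvd fun l hl hla hlm => ?_
    by_cases hl2 : l = 2
    · subst hl2
      omega
    · have hlm' : l ∣ m := by
        have : l.Coprime 2 := (Nat.coprime_primes hl Nat.prime_two).2 hl2
        exact this.dvd_of_dvd_mul_left hlm
      have h1 : l ∣ c0 * (q + 1) := by
        rw [hr']
        exact hla.mul_left 4
      have h2 := ((hRl l hl hlm' hl2).dvd_iff (dvd_refl l)).1 h1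
      rcases (Nat.Prime.dvd_mul hl).1 h2 with h4 | h4
      · exact hndc l hl hl2 h4
      · simp only [b] at h4
        split_ifs at h4 with h'
        · have h5 : l = 3 := (Nat.prime_dvd_prime_iff_eq hl Nat.prime_three).1 h4
          subst h5
          exact h3 h'
        · exact hnd l hl hl2 h4
  · intro l hl hlm hl2 h
    have h1 := (hRl l hl hlm hl2).symm.trans h
    simp only [b] at h1
    split_ifs at h1 with h'
    · have h2 := h1.trans h'
      have h4 : c0 * (2 + 1) = 2 * c0 + c0 := by ring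
      rw [h4] at h2
      have h5 : l ∣ c0 := by
        have := (Nat.modEq_iff_dvd' (by omega : 2 * c0 ≤ 2 * c0 + c0)).1 h2.symm
        simpa using this
      exact hndc l hl hl2 h5
    · apply h'
      have h4 : c0 * (1 + 1) = 2 * c0 := by ring
      rw [h4] at h1
      exact h1.symm

/-! ## Hadamard matrices of order `r (p + 1)` with `r` even -/

def j2 : Matrix (Fin 2) (Fin 2) ℤ := !![0, 1; -1, 0]

theorem j2_mul : j2 * j2ᵀ = 1 := by decide
theorem j2_tr : j2ᵀ = -j2 := by decide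

theorem pal_kron {p : ℕ} [Fact p.Prime] (h1 : p % 4 = 1) (r : ℕ) (hr : HasHad (2 * r)) :
    ∃ (H : Matrix (Option (ZMod p) × (Fin r × Fin 2)) (Option (ZMod p) × (Fin r × Fin 2)) ℤ)
      (G : Matrix (Fin r × Fin 2) (Fin r × Fin 2) ℤ),
      (∀ i j, H i j = 1 ∨ H i j = -1) ∧ (∀ i j, G i j = 1 ∨ G i j = -1) ∧
      H * Hᵀ = ((2 * r * (p + 1) : ℕ) : ℤ) • 1 ∧
      ∀ x y : ZMod p, x ≠ y → ∀ a b, H (some x, a) (some y, b) = qc p (x - y) * G a b := by
  have hp : p ≠ 2 := by omega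
  obtain ⟨G0, hG0, hGG0⟩ := hr
  let e : Fin r × Fin 2 ≃ Fin (2 * r) := Fintype.equivFinOfCardEq (by simp; ring)
  let G : Matrix (Fin r × Fin 2) (Fin r × Fin 2) ℤ := G0.submatrix e e
  have hG : ∀ i j, G i j = 1 ∨ G i j = -1 := fun i j => hG0 _ _
  have hGG : G * Gᵀ = ((2 * r : ℕ) : ℤ) • 1 := by
    simp only [G]
    rw [Matrix.transpose_submatrix, Matrix.submatrix_mul_equiv, hGG0]
    ext i j
    rw [Matrix.submatrix_apply, Matrix.smul_apply, Matrix.smul_apply, Matrix.one_apply,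
      Matrix.one_apply]
    simp only [e.injective.eq_iff]
  let J : Matrix (Fin r × Fin 2) (Fin r × Fin 2) ℤ :=
    Matrix.kroneckerMap (· * ·) (1 : Matrix (Fin r) (Fin r) ℤ) j2
  have hJJ : J * Jᵀ = 1 := by
    have := kron_tr (1 : Matrix (Fin r) (Fin r) ℤ) j2
    simp only [J]
    rw [this, ← Matrix.mul_kronecker_mul, j2_mul, Matrix.transpose_one, mul_one,
      Matrix.one_kronecker_one]
  have hJt : Jᵀ = -J := by
    have := kron_tr (1 : Matrix (Fin r) (Fin r) ℤ) j2
    simp only [J]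
    rw [this, j2_tr, Matrix.transpose_one, kron_neg_right]
  let K := J * G
  have hK : ∀ i j, K i j = 1 ∨ K i j = -1 := by
    rintro ⟨a, i⟩ b
    have h2 : K (a, i) b = ∑ j, j2 i j * G (a, j) b := by
      simp only [K, J]
      rw [Matrix.mul_apply, Fintype.sum_prod_type]
      simp only [Matrix.kroneckerMap_apply, Matrix.one_apply]
      rw [Finset.sum_eq_single a]
      · simp
      · intro c _ hc
        have hac : a ≠ c := hc.symm
        simp [hac]
      · intro h
        exact absurd (Finset.mem_univ _) h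
    rw [h2, Fin.sum_univ_two]
    fin_cases i
    · simp [j2]
      exact hG _ _
    · simp [j2]
      rcases hG (a, 0) b with h | h <;> rw [h] <;> norm_num
  have hKK : K * Kᵀ = ((2 * r : ℕ) : ℤ) • 1 := by
    simp only [K]
    rw [Matrix.transpose_mul, Matrix.mul_assoc, ← Matrix.mul_assoc G, hGG, Matrix.smul_mul,
      Matrix.one_mul, Matrix.mul_smul, hJJ]
  have hGK : G * Kᵀ + K * Gᵀ = 0 := by
    simp only [K]
    rw [Matrix.transpose_mul, ← Matrix.mul_assoc, hGG, Matrix.mul_assoc, hGG, hJt,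
      Matrix.smul_mul, Matrix.mul_smul, Matrix.one_mul, Matrix.mul_one, smul_neg, neg_add_cancel]
  have ht : (pal p)ᵀ = pal p := by
    rw [pal_tr, qc_neg_one_one h1]
    simp
  have hm := pal_mul (p := p) hp
  refine ⟨Matrix.kroneckerMap (· * ·) (pal p) G + Matrix.kroneckerMap (· * ·) 1 K, G, ?_, hG,
    ?_, ?_⟩
  · rintro ⟨i, a⟩ ⟨j, b⟩
    rw [Matrix.add_apply, Matrix.kroneckerMap_apply, Matrix.kroneckerMap_apply, Matrix.one_apply]
    by_cases hij : i = j
    · subst hij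
      rw [pal_diag, if_pos rfl, zero_mul, zero_add, one_mul]
      exact hK a b
    · rw [if_neg hij, zero_mul, add_zero]
      exact sign_mul (pal_zero_or i j hij) (hG a b)
  · rw [Matrix.transpose_add, kron_tr, kron_tr, Matrix.transpose_one, Matrix.add_mul,
      Matrix.mul_add, Matrix.mul_add, ← Matrix.mul_kronecker_mul,
      ← Matrix.mul_kronecker_mul, ← Matrix.mul_kronecker_mul, ← Matrix.mul_kronecker_mul,
      hm, ht, hGG, hKK, Matrix.one_mul, Matrix.one_mul, Matrix.mul_one]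
    have h3 : Matrix.kroneckerMap (· * ·) (pal p) (G * Kᵀ) +
        Matrix.kroneckerMap (· * ·) (pal p) (K * Gᵀ) = 0 := by
      rw [← Matrix.kronecker_add, hGK, Matrix.kronecker_zero]
    rw [Matrix.smul_kronecker, Matrix.kronecker_smul, Matrix.one_kronecker_one, smul_smul]
    have h4 : ((2 * r * (p + 1) : ℕ) : ℤ) • (1 : Matrix (Option (ZMod p) × (Fin r × Fin 2))
          (Option (ZMod p) × (Fin r × Fin 2)) ℤ) =
        ((p : ℤ) * ((2 * r : ℕ) : ℤ)) • 1 + ((2 * r : ℕ) : ℤ) • 1 := by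
      rw [← add_smul]
      push_cast
      congr 1
      ring
    rw [h4, ← sub_eq_zero, ← h3]
    abel
  · intro x y hxy a b
    rw [Matrix.add_apply, Matrix.kroneckerMap_apply, Matrix.kroneckerMap_apply, Matrix.one_apply,
      if_neg (fun h => hxy (Option.some_injective _ h)), zero_mul, add_zero]
    rfl

/-- base matrices: `2 r * (p + 1)`, every odd prime `p` -/
theorem mod_even (m k r : ℕ) (hm : 0 < m) (hr0 : 0 < r) (hr : HasHad (2 * r)) :
    ∃ P : ℕ, ∀ p : ℕ, p.Prime → P ≤ p → p ≠ 2 → ∀ w, m ∣ w →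
      4 * k ≡ 2 * r * (p + 1) [MOD m] → ModHad m (2 * r * (p + 1) + 2 ^ k * w) := by
  obtain ⟨P, hP⟩ := large_enough (2 * 2 ^ k)
  obtain ⟨P1, hP1⟩ := mod_one m k (2 * r) hm (by omega) hr
  refine ⟨max P P1, fun p hp hPp h3 w hw hk => ?_⟩
  have : Fact p.Prime := ⟨hp⟩
  have h13 : p % 4 = 1 ∨ p % 4 = 3 := by
    have := hp.eq_two_or_odd
    omega
  rcases h13 with h13 | h13
  · obtain ⟨h1, h2⟩ := hP p ((le_max_left _ _).trans hPp)
    obtain ⟨H, G, hH, hG, hHH, hcore⟩ := pal_kron (p := p) h13 r hr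
    refine mod_of_core (p := p) h3 m k (2 * r * (p + 1)) w hm hw H hH hHH ?_
      (fun x => (some x, (⟨0, hr0⟩, 0))) ?_ (G (⟨0, hr0⟩, 0) (⟨0, hr0⟩, 0)) (hG _ _) ?_ hk h1 h2
    · simp [ZMod.card]
      ring
    · intro a b hab
      simpa using hab
    · intro x y hxy
      rw [hcore x y hxy]
  · exact hP1 p hp ((le_max_right _ _).trans hPp) h13 w hw hk

end Pool.Agent.H114R2
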