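import Pool.Agent.H114R2.Cliff

/-! Blow-ups of Hadamard matrices to modular Hadamard matrices. -/

namespace Pool.Agent.H114R2

open Finset Matrix

/-- the blow-up -/
def blowE {K S R R' W : Type} [CommRing K] [DecidableEq W]
    (A : Matrix (S ⊕ R) (S ⊕ R') K) (M : Matrix S S K) :
    Matrix ((S × W) ⊕ R) ((S × W) ⊕ R') K
  | Sum.inl (j, t), Sum.inl (l, u) => A (Sum.inl j) (Sum.inl l) - (if t = u then 0 else 2 * M j l)
  | Sum.inl (j, _), Sum.inr r => A (Sum.inl j) (Sum.inr r)
  | Sum.inr r, Sum.inl (l, _) => A (Sum.inr r) (Sum.inl l)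
  | Sum.inr r, Sum.inr r' => A (Sum.inr r) (Sum.inr r')

theorem sum_tag {K W : Type} [CommRing K] [Fintype W] [DecidableEq W] (hW : (Fintype.card W : K) = 1)
    (a b a' b' : K) (t t' : W) :
    ∑ u : W, (a - (if t = u then 0 else 2 * b)) * (a' - (if t' = u then 0 else 2 * b')) =
      a * a' - (if t = t' then 0 else 4 * (b * b')) := by
  have h1 : ∀ u : W, (a - (if t = u then 0 else 2 * b)) * (a' - (if t' = u then 0 else 2 * b')) =
      (a - 2 * b) * (a' - 2 * b') + (if t = u then 2 * b * (a' - 2 * b') else 0) +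
        (if t' = u then 2 * b' * (a - 2 * b) else 0) +
        (if t = u then (if t' = u then 4 * (b * b') else 0) else 0) := by
    intro u
    split_ifs <;> ring
  simp_rw [h1]
  rw [Finset.sum_add_distrib, Finset.sum_add_distrib, Finset.sum_add_distrib]
  simp only [Finset.sum_const, Finset.sum_ite_eq, Finset.mem_univ, if_true, nsmul_eq_mul,
    Finset.card_univ, hW]
  by_cases h : t = t'
  · subst h
    simp
    ring
  · have h' : t' ≠ t := fun e => h e.symm
    simp only [h, h', if_false]
    ring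

theorem sum_tag1 {K W : Type} [CommRing K] [Fintype W] [DecidableEq W] (hW : (Fintype.card W : K) = 1)
    (a b a' : K) (t : W) :
    ∑ u : W, (a - (if t = u then 0 else 2 * b)) * a' = a * a' := by
  have h1 : ∀ u : W, (a - (if t = u then 0 else 2 * b)) * a' =
      (a - 2 * b) * a' + (if t = u then 2 * b * a' else 0) := by
    intro u
    split_ifs <;> ring
  simp_rw [h1]
  rw [Finset.sum_add_distrib]
  simp only [Finset.sum_const, Finset.sum_ite_eq, Finset.mem_univ, if_true, nsmul_eq_mul,
    Finset.card_univ, hW]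
  ring

theorem blow_mul {K S R R' W : Type} [CommRing K] [Fintype S] [DecidableEq S] [Fintype R]
    [DecidableEq R] [Fintype R'] [Fintype W] [DecidableEq W]
    (hW : (Fintype.card W : K) = 1)
    (A : Matrix (S ⊕ R) (S ⊕ R') K) (M : Matrix S S K) (n0 : K)
    (hAA : A * Aᵀ = n0 • (1 : Matrix (S ⊕ R) (S ⊕ R) K))
    (hMM : (4 : K) • (M * Mᵀ) = n0 • (1 : Matrix S S K)) (i j : (S × W) ⊕ R) (hij : i ≠ j) :
    ((blowE A M : Matrix ((S × W) ⊕ R) ((S × W) ⊕ R') K) *
      (blowE A M : Matrix ((S × W) ⊕ R) ((S × W) ⊕ R') K)ᵀ) i j = 0 := by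
  have hA : ∀ a b : S ⊕ R, ∑ l : S, A a (Sum.inl l) * A b (Sum.inl l) +
      ∑ r : R', A a (Sum.inr r) * A b (Sum.inr r) = if a = b then n0 else 0 := by
    intro a b
    have := congrFun (congrFun hAA a) b
    rw [Matrix.mul_apply, Fintype.sum_sum_type, Matrix.smul_apply, Matrix.one_apply] at this
    simpa using this
  have hM : ∀ a b : S, ∑ l : S, 4 * (M a l * M b l) = if a = b then n0 else 0 := by
    intro a b
    have := congrFun (congrFun hMM a) b
    rw [Matrix.smul_apply, Matrix.mul_apply, Matrix.smul_apply, Matrix.one_apply] at this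
    simp only [Matrix.transpose_apply, smul_eq_mul, Finset.mul_sum] at this
    simpa using this
  rw [Matrix.mul_apply, Fintype.sum_sum_type, Fintype.sum_prod_type]
  rcases i with ⟨a, t⟩ | a <;> rcases j with ⟨b, t'⟩ | b
  · simp only [Matrix.transpose_apply, blowE]
    simp_rw [sum_tag hW]
    rw [Finset.sum_sub_distrib]
    have h0 := hA (Sum.inl a) (Sum.inl b)
    by_cases ht : t = t'
    · subst ht
      have hab : a ≠ b := fun e => hij (by rw [e])
      have hab' : (Sum.inl a : S ⊕ R) ≠ Sum.inl b := fun e => hab (Sum.inl_injective e)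
      rw [if_neg hab'] at h0
      simp only [if_true, Finset.sum_const_zero, sub_zero]
      exact h0
    · simp only [ht, if_false]
      rw [hM a b]
      have : (Sum.inl a : S ⊕ R) = Sum.inl b ↔ a = b := Sum.inl_injective.eq_iff
      simp only [this] at h0
      rw [← h0]
      ring
  · simp only [Matrix.transpose_apply, blowE]
    simp_rw [sum_tag1 hW]
    have h0 := hA (Sum.inl a) (Sum.inr b)
    rw [if_neg (by simp)] at h0
    exact h0
  · simp only [Matrix.transpose_apply, blowE]
    have : ∀ l : S, ∑ u : W, A (Sum.inr a) (Sum.inl l) *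
        (A (Sum.inl b) (Sum.inl l) - (if t' = u then 0 else 2 * M b l)) =
        A (Sum.inr a) (Sum.inl l) * A (Sum.inl b) (Sum.inl l) := by
      intro l
      rw [mul_comm (A (Sum.inr a) (Sum.inl l)),
        ← sum_tag1 hW (A (Sum.inl b) (Sum.inl l)) (M b l) (A (Sum.inr a) (Sum.inl l)) t']
      exact Finset.sum_congr rfl fun u _ => by ring
    simp_rw [this]
    have h0 := hA (Sum.inr a) (Sum.inl b)
    rw [if_neg (by simp)] at h0
    exact h0
  · simp only [Matrix.transpose_apply, blowE, Finset.sum_const, nsmul_eq_mul, Finset.card_univ, hW,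
      one_mul]
    have h0 := hA (Sum.inr a) (Sum.inr b)
    rw [if_neg (fun e => hij (by rw [Sum.inr_injective e]))] at h0
    exact h0

/-- there is an `m`-modular Hadamard matrix of order `N` -/
def ModHad (m N : ℕ) : Prop :=
  ∃ H : Matrix (Fin N) (Fin N) ℤ, (∀ i j, H i j = 1 ∨ H i j = -1) ∧
    ∀ i j, i ≠ j → (m : ℤ) ∣ (H * Hᵀ) i j

theorem modHad_of_type {ι κ : Type} [Fintype ι] [DecidableEq ι] [Fintype κ] {m N : ℕ}
    (hN : Fintype.card ι = N) (hN' : Fintype.card κ = N)
    (W : Matrix ι κ ℤ) (hW : ∀ i j, W i j = 1 ∨ W i j = -1)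
    (hWW : ∀ i j, i ≠ j → (m : ℤ) ∣ (W * Wᵀ) i j) :
    ModHad m N := by
  let e : ι ≃ Fin N := Fintype.equivFinOfCardEq hN
  let f : κ ≃ Fin N := Fintype.equivFinOfCardEq hN'
  refine ⟨W.submatrix e.symm f.symm, fun i j => hW _ _, fun i j hij => ?_⟩
  rw [Matrix.transpose_submatrix, Matrix.submatrix_mul_equiv]
  exact hWW _ _ (fun h => hij (e.symm.injective h))

/-- the blow-up lemma -/
theorem blowup {ι S : Type} [Fintype ι] [DecidableEq ι] [Fintype S] [DecidableEq S]
    (m n0 w : ℕ) (hm : 0 < m) (H : Matrix ι ι ℤ) (hH : ∀ i j, H i j = 1 ∨ H i j = -1)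
    (hHH : H * Hᵀ = (n0 : ℤ) • 1) (hcard : Fintype.card ι = n0)
    (x y : S → ι) (hx : Function.Injective x) (hy : Function.Injective y)
    (M : Matrix S S ℤ) (hM : ∀ j l, M j l = 0 ∨ M j l = H (x j) (y l)) (k : ℕ)
    (hMM : M * Mᵀ = (k : ℤ) • 1) (hk : 4 * k ≡ n0 [MOD m]) (hw : m ∣ w) :
    ModHad m (n0 + Fintype.card S * w) := by
  classical
  let R := {a : ι // a ∉ Set.range x}
  let R' := {a : ι // a ∉ Set.range y}
  let ex : S ⊕ R ≃ ι :=
    (Equiv.sumCongr (Equiv.ofInjective x hx) (Equiv.refl _)).trans (Equiv.Set.sumCompl (Set.range x))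
  let ey : S ⊕ R' ≃ ι :=
    (Equiv.sumCongr (Equiv.ofInjective y hy) (Equiv.refl _)).trans (Equiv.Set.sumCompl (Set.range y))
  have hex : ∀ j, ex (Sum.inl j) = x j := by
    intro j
    exact Equiv.Set.sumCompl_apply_inl _ _
  have hey : ∀ j, ey (Sum.inl j) = y j := by
    intro j
    exact Equiv.Set.sumCompl_apply_inl _ _
  let A : Matrix (S ⊕ R) (S ⊕ R') ℤ := H.submatrix ex ey
  have hAA : A * Aᵀ = (n0 : ℤ) • 1 := by
    simp only [A]
    rw [Matrix.transpose_submatrix, Matrix.submatrix_mul_equiv, hHH]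
    ext i j
    rw [Matrix.submatrix_apply, Matrix.smul_apply, Matrix.smul_apply, Matrix.one_apply,
      Matrix.one_apply]
    simp only [ex.injective.eq_iff]
  have hcR : Fintype.card S + Fintype.card R = n0 := by
    rw [← Fintype.card_sum, Fintype.card_congr ex, hcard]
  have hcR' : Fintype.card S + Fintype.card R' = n0 := by
    rw [← Fintype.card_sum, Fintype.card_congr ey, hcard]
  let E : Matrix ((S × Option (Fin w)) ⊕ R) ((S × Option (Fin w)) ⊕ R') ℤ := blowE A M
  have hcW : Fintype.card (Option (Fin w)) = w + 1 := by simp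
  refine modHad_of_type (ι := (S × Option (Fin w)) ⊕ R) (κ := (S × Option (Fin w)) ⊕ R')
    ?_ ?_ E ?_ ?_
  · rw [Fintype.card_sum, Fintype.card_prod, hcW]
    nlinarith
  · rw [Fintype.card_sum, Fintype.card_prod, hcW]
    nlinarith
  · have hA : ∀ a b, A a b = 1 ∨ A a b = -1 := fun a b => hH _ _
    rintro (⟨a, t⟩ | a) (⟨b, u⟩ | b)
    · simp only [E, blowE]
      split_ifs with h
      · simpa using hA _ _
      · rcases hM a b with h0 | h0
        · rw [h0]
          simpa using hA _ _
        · rw [h0]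
          have : A (Sum.inl a) (Sum.inl b) = H (x a) (y b) := by
            simp only [A, Matrix.submatrix_apply, hex, hey]
          rw [this]
          rcases hH (x a) (y b) with h1 | h1 <;> rw [h1] <;> norm_num
    · exact hA _ _
    · exact hA _ _
    · exact hA _ _
  · intro i j hij
    have hNe : NeZero m := ⟨hm.ne'⟩
    rw [← ZMod.intCast_zmod_eq_zero_iff_dvd]
    -- map to ZMod m
    let φ : ℤ →+* ZMod m := Int.castRingHom (ZMod m)
    have h1 : blowE (A.map φ) (M.map φ) = E.map φ := by
      ext (⟨a, t⟩ | a) (⟨b, u⟩ | b)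
      · simp only [E, blowE, Matrix.map_apply]
        split_ifs <;> simp
      · rfl
      · rfl
      · rfl
    have h2 := blow_mul (K := ZMod m) (W := Option (Fin w)) (S := S) (R := R) (R' := R')
      (by
        rw [hcW]
        push_cast
        rw [(ZMod.natCast_eq_zero_iff w m).2 hw, zero_add])
      (A.map φ) (M.map φ) (n0 : ZMod m)
      (by
        rw [← Matrix.transpose_map, ← Matrix.map_mul, hAA]
        ext a b
        simp only [Matrix.smul_apply, Matrix.map_apply, Matrix.one_apply, smul_eq_mul, map_mul]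
        split_ifs
        · simp [φ]
        · simp)
      (by
        rw [← Matrix.transpose_map, ← Matrix.map_mul, hMM]
        ext a b
        simp only [Matrix.smul_apply, Matrix.map_apply, Matrix.one_apply, smul_eq_mul, map_mul]
        have : (4 : ZMod m) * (k : ZMod m) = (n0 : ZMod m) := by
          have := (ZMod.natCast_eq_natCast_iff _ _ _).2 hk
          push_cast at this
          exact this
        split_ifs
        · simp only [φ, eq_intCast, Int.cast_natCast, Int.cast_one, mul_one]
          exact this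
        · simp) i j hij
    rw [h1, ← Matrix.transpose_map, ← Matrix.map_mul] at h2
    exact h2

end Pool.Agent.H114R2
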