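import Pool.Agent.H114R2.Fam

/-! Circulant matrices from complementary families. -/

namespace Pool.Agent.H114R2

open Finset Matrix

theorem ev_single {n : ℕ} [NeZero n] (a : ℕ → ℤ) (g : ZMod n) :
    ev a n (AddMonoidAlgebra.single g 1 : AddMonoidAlgebra ℤ (ZMod n)) =
      ∑ z : ZMod n, AddMonoidAlgebra.single (z * g) (a z.val) := by
  have h1 : ∀ i : ℕ, ((a i : AddMonoidAlgebra ℤ (ZMod n)) *
      (AddMonoidAlgebra.single g 1 : AddMonoidAlgebra ℤ (ZMod n)) ^ i) =
      AddMonoidAlgebra.single ((i : ZMod n) * g) (a i) := by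
    intro i
    rw [AddMonoidAlgebra.single_pow, one_pow, ← zsmul_one, smul_mul_assoc, one_mul,
      AddMonoidAlgebra.smul_single, nsmul_eq_mul]
    simp
  unfold ev
  rw [Finset.sum_congr rfl (fun i _ => h1 i)]
  have h2 : ∀ z : ZMod n, (AddMonoidAlgebra.single (z * g) (a z.val) : AddMonoidAlgebra ℤ (ZMod n)) =
      AddMonoidAlgebra.single (((z.val : ℕ) : ZMod n) * g) (a z.val) := by
    intro z
    rw [ZMod.natCast_zmod_val]
  rw [Finset.sum_congr rfl (fun z _ => h2 z)]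
  symm
  refine Finset.sum_bij (fun z _ => z.val) ?_ ?_ ?_ ?_
  · intro z _
    exact Finset.mem_range.2 (ZMod.val_lt z)
  · intro z _ w _ h
    exact ZMod.val_injective n h
  · intro i hi
    rw [Finset.mem_range] at hi
    exact ⟨(i : ZMod n), Finset.mem_univ _, ZMod.val_natCast_of_lt hi⟩
  · intro z _
    rfl

/-- periodic correlation identity -/
theorem periodic_of_ring {m n : ℕ} [NeZero n] (s : Fin m → ℕ → ℤ)
    (hs : ∀ (R : Type) [CommRing R] (u v : R), u * v = 1 →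
      ∑ j, ev (s j) n u * ev (s j) n v = m * n) (d : ZMod n) :
    ∑ j, ∑ w : ZMod n, s j (w + d).val * s j w.val = if d = 0 then (m * n : ℤ) else 0 := by
  have h1 := hs (AddMonoidAlgebra ℤ (ZMod n)) (AddMonoidAlgebra.single 1 1)
    (AddMonoidAlgebra.single (-1) 1) (by
      rw [AddMonoidAlgebra.single_mul_single]
      simp [AddMonoidAlgebra.one_def])
  have h3 := congrArg (fun f : AddMonoidAlgebra ℤ (ZMod n) => f.coeff d) h1
  simp only [ev_single] at h3
  rw [AddMonoidAlgebra.coeff_sum, Finsupp.finsetSum_apply] at h3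
  have h4 : ∀ j : Fin m, (((∑ z : ZMod n, AddMonoidAlgebra.single (z * 1) (s j z.val) :
      AddMonoidAlgebra ℤ (ZMod n)) * (∑ z : ZMod n, AddMonoidAlgebra.single (z * -1) (s j z.val) :
      AddMonoidAlgebra ℤ (ZMod n))).coeff d) = ∑ w : ZMod n, s j (w + d).val * s j w.val := by
    intro j
    rw [Finset.sum_mul_sum, Finset.sum_comm, AddMonoidAlgebra.coeff_sum, Finsupp.finsetSum_apply]
    refine Finset.sum_congr rfl (fun w _ => ?_)
    rw [AddMonoidAlgebra.coeff_sum, Finsupp.finsetSum_apply]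
    have h5 : ∀ z : ZMod n, ((AddMonoidAlgebra.single (z * 1) (s j z.val) *
        AddMonoidAlgebra.single (w * -1) (s j w.val) : AddMonoidAlgebra ℤ (ZMod n)).coeff d) =
        if z = w + d then s j (w + d).val * s j w.val else 0 := by
      intro z
      rw [AddMonoidAlgebra.single_mul_single, AddMonoidAlgebra.coeff_single, Finsupp.single_apply]
      by_cases hz : z = w + d
      · rw [if_pos hz, if_pos (by rw [hz]; ring), hz]
      · rw [if_neg hz, if_neg]
        intro h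
        apply hz
        rw [← h]; ring
    rw [Finset.sum_congr rfl (fun z _ => h5 z), Finset.sum_ite_eq']
    simp
  rw [Finset.sum_congr rfl (fun j _ => h4 j)] at h3
  rw [h3]
  have h6 : ((m : AddMonoidAlgebra ℤ (ZMod n)) * (n : AddMonoidAlgebra ℤ (ZMod n))) =
      AddMonoidAlgebra.single 0 ((m * n : ℤ)) := by
    rw [← Nat.cast_mul, AddMonoidAlgebra.natCast_def]
    push_cast
    rfl
  rw [h6, AddMonoidAlgebra.coeff_single, Finsupp.single_apply]
  by_cases hd : d = 0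
  · simp [hd]
  · rw [if_neg hd, if_neg (fun h => hd h.symm)]

theorem circ_sum {m n : ℕ} [NeZero n] (s : Fin m → ℕ → ℤ)
    (hs : ∀ (R : Type) [CommRing R] (u v : R), u * v = 1 →
      ∑ j, ev (s j) n u * ev (s j) n v = m * n) :
    ∑ j, Matrix.circulant (fun z : ZMod n => s j z.val) *
      (Matrix.circulant (fun z : ZMod n => s j z.val))ᵀ = ((m * n : ℕ) : ℤ) • 1 := by
  ext z z'
  rw [Matrix.sum_apply]
  have h1 : ∀ j, (Matrix.circulant (fun z : ZMod n => s j z.val) *
      (Matrix.circulant (fun z : ZMod n => s j z.val))ᵀ) z z' =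
      ∑ w : ZMod n, s j (w + (z - z')).val * s j w.val := by
    intro j
    rw [Matrix.mul_apply]
    rw [← Equiv.sum_comp (Equiv.subLeft z')]
    refine Finset.sum_congr rfl (fun w _ => ?_)
    simp only [Matrix.circulant_apply, Matrix.transpose_apply, Equiv.subLeft_apply]
    congr 3
    · ring
    · ring
  rw [Finset.sum_congr rfl (fun j _ => h1 j), periodic_of_ring s hs]
  rw [Matrix.smul_apply, Matrix.one_apply]
  by_cases h : z = z'
  · simp [h]
  · have : z - z' ≠ 0 := sub_ne_zero.2 h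
    simp [h, this]

/-- the doubled matrix of a square matrix -/
def dbl {n : ℕ} (X : Matrix (ZMod n) (ZMod n) ℤ) : Matrix (ZMod n ⊕ ZMod n) (ZMod n ⊕ ZMod n) ℤ :=
  Matrix.fromBlocks X Xᵀ Xᵀ (-X)

theorem dbl_sign {n : ℕ} (X : Matrix (ZMod n) (ZMod n) ℤ) (h : ∀ i j, X i j = 1 ∨ X i j = -1) :
    ∀ i j, dbl X i j = 1 ∨ dbl X i j = -1 := by
  intro i j
  unfold dbl
  rcases i with i | i <;> rcases j with j | j
  · simpa using h i j
  · simpa using h j i
  · simpa using h j i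
  · rcases h i j with h | h <;> simp [h]

theorem dbl_mul {n : ℕ} [NeZero n] (X Y : Matrix (ZMod n) (ZMod n) ℤ) :
    dbl X * (dbl Y)ᵀ = Matrix.fromBlocks (X * Yᵀ + Xᵀ * Y) (X * Y - Xᵀ * Yᵀ)
      (Xᵀ * Yᵀ - X * Y) (Xᵀ * Y + X * Yᵀ) := by
  unfold dbl
  rw [Matrix.fromBlocks_transpose, Matrix.fromBlocks_multiply]
  simp only [Matrix.transpose_transpose, Matrix.transpose_neg, Matrix.mul_neg, Matrix.neg_mul,
    neg_neg, sub_eq_add_neg]

theorem dbl_amicable {n : ℕ} [NeZero n] (X Y : Matrix (ZMod n) (ZMod n) ℤ)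
    (h1 : X * Y = Y * X) (h2 : X * Yᵀ = Yᵀ * X) :
    dbl X * (dbl Y)ᵀ = dbl Y * (dbl X)ᵀ := by
  have h3 : Xᵀ * Y = Y * Xᵀ := by
    have := congrArg Matrix.transpose h2
    rw [Matrix.transpose_mul, Matrix.transpose_mul, Matrix.transpose_transpose] at this
    exact this.symm
  have h4 : Xᵀ * Yᵀ = Yᵀ * Xᵀ := by
    rw [← Matrix.transpose_mul, ← Matrix.transpose_mul, h1]
  rw [dbl_mul, dbl_mul, h1, h2, h3, h4, add_comm (Yᵀ * X) (Y * Xᵀ)]

theorem dbl_pair {n : ℕ} [NeZero n] (X : Matrix (ZMod n) (ZMod n) ℤ) (h : X * Xᵀ = Xᵀ * X) :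
    dbl X * (dbl X)ᵀ + dbl Xᵀ * (dbl Xᵀ)ᵀ = Matrix.fromBlocks ((4 : ℤ) • (X * Xᵀ)) 0 0
      ((4 : ℤ) • (X * Xᵀ)) := by
  rw [dbl_mul, dbl_mul, Matrix.fromBlocks_add, Matrix.transpose_transpose, ← h]
  congr 1
  · module
  · abel
  · abel
  · module

end Pool.Agent.H114R2
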