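import Mathlib

/-! A family of pairwise anti-amicable sign matrices. -/

namespace Pool.Agent.H114R2

open Finset Matrix
open scoped Kronecker

/-- the `2 × 2` Hadamard matrix -/
def h2 : Matrix (Fin 2) (Fin 2) ℤ := !![1, 1; 1, -1]
/-- the flip -/
def f2 : Matrix (Fin 2) (Fin 2) ℤ := !![0, 1; 1, 0]
/-- the diagonal sign matrix -/
def z2 : Matrix (Fin 2) (Fin 2) ℤ := !![1, 0; 0, -1]

theorem h2_sign : ∀ i j, h2 i j = 1 ∨ h2 i j = -1 := by decide
theorem z2h2_sign : ∀ i j, (z2 * h2) i j = 1 ∨ (z2 * h2) i j = -1 := by decide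
theorem f2h2_sign : ∀ i j, (f2 * h2) i j = 1 ∨ (f2 * h2) i j = -1 := by decide
theorem h2_mul : h2 * h2ᵀ = (2 : ℤ) • 1 := by decide
theorem z2_sq : z2 * z2 = 1 := by decide
theorem f2_sq : f2 * f2 = 1 := by decide
theorem z2_tr : z2ᵀ = z2 := by decide
theorem f2_tr : f2ᵀ = f2 := by decide
theorem zf : z2 * f2 = - (f2 * z2) := by decide

theorem sign_mul {a b : ℤ} (ha : a = 1 ∨ a = -1) (hb : b = 1 ∨ b = -1) :
    a * b = 1 ∨ a * b = -1 := by
  rcases ha with h | h <;> rcases hb with h' | h' <;> rw [h, h'] <;> norm_num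

theorem kron_sign {X Y : Type} (A : Matrix X X ℤ) (B : Matrix Y Y ℤ)
    (hA : ∀ i j, A i j = 1 ∨ A i j = -1) (hB : ∀ i j, B i j = 1 ∨ B i j = -1) :
    ∀ i j, (A ⊗ₖ B) i j = 1 ∨ (A ⊗ₖ B) i j = -1 := by
  intro i j
  rw [Matrix.kroneckerMap_apply]
  exact sign_mul (hA _ _) (hB _ _)

theorem kron_tr {X Y : Type} (A : Matrix X X ℤ) (B : Matrix Y Y ℤ) :
    (A ⊗ₖ B)ᵀ = Aᵀ ⊗ₖ Bᵀ := by
  ext i j
  simp [Matrix.kroneckerMap_apply]

theorem kron_neg_left {X Y : Type} (A : Matrix X X ℤ) (B : Matrix Y Y ℤ) :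
    (-A) ⊗ₖ B = -(A ⊗ₖ B) := by
  ext i j
  simp [Matrix.kroneckerMap_apply]

theorem kron_neg_right {X Y : Type} (A : Matrix X X ℤ) (B : Matrix Y Y ℤ) :
    A ⊗ₖ (-B) = -(A ⊗ₖ B) := by
  ext i j
  simp [Matrix.kroneckerMap_apply]

theorem clifford (r : ℕ) : ∃ (X : Type) (_ : Fintype X) (_ : DecidableEq X)
    (H : Matrix X X ℤ) (P : Fin r → Matrix X X ℤ),
    Fintype.card X = 2 ^ r ∧ (∀ i j, H i j = 1 ∨ H i j = -1) ∧
    H * Hᵀ = ((2 : ℤ) ^ r) • 1 ∧ (∀ k, (P k)ᵀ = P k) ∧ (∀ k, P k * P k = 1) ∧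
    (∀ k l, k ≠ l → P k * P l = -(P l * P k)) ∧
    (∀ k i j, (P k * H) i j = 1 ∨ (P k * H) i j = -1) := by
  induction r with
  | zero =>
    refine ⟨Unit, inferInstance, inferInstance, 1, Fin.elim0, by simp, ?_, by simp,
      fun k => k.elim0, fun k => k.elim0, fun k => k.elim0, fun k => k.elim0⟩
    intro i j
    left
    simp
  | succ r ih =>
    obtain ⟨X, _, _, H, P, hX, hH, hHH, hPt, hPs, hPa, hPH⟩ := ih
    refine ⟨X × Fin 2, inferInstance, inferInstance, H ⊗ₖ h2,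
      Fin.cons (1 ⊗ₖ f2) (fun k => P k ⊗ₖ z2), ?_, kron_sign _ _ hH h2_sign, ?_, ?_, ?_, ?_, ?_⟩
    · rw [Fintype.card_prod, hX, Fintype.card_fin, pow_succ]
    · rw [kron_tr, ← Matrix.mul_kronecker_mul, hHH, h2_mul, Matrix.smul_kronecker,
        Matrix.kronecker_smul, Matrix.one_kronecker_one, smul_smul, pow_succ]
    · intro k
      refine Fin.cases ?_ (fun k => ?_) k
      · rw [Fin.cons_zero, kron_tr, f2_tr, Matrix.transpose_one]
      · rw [Fin.cons_succ, kron_tr, z2_tr, hPt]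
    · intro k
      refine Fin.cases ?_ (fun k => ?_) k
      · rw [Fin.cons_zero, ← Matrix.mul_kronecker_mul, f2_sq, mul_one, Matrix.one_kronecker_one]
      · rw [Fin.cons_succ, ← Matrix.mul_kronecker_mul, z2_sq, hPs, Matrix.one_kronecker_one]
    · intro k l
      refine Fin.cases ?_ (fun k => ?_) k
      · refine Fin.cases ?_ (fun l => ?_) l
        · intro h; exact absurd rfl h
        · intro _
          rw [Fin.cons_zero, Fin.cons_succ, ← Matrix.mul_kronecker_mul, ← Matrix.mul_kronecker_mul,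
            one_mul, mul_one, zf, kron_neg_right, neg_neg]
      · refine Fin.cases ?_ (fun l => ?_) l
        · intro _
          rw [Fin.cons_zero, Fin.cons_succ, ← Matrix.mul_kronecker_mul, ← Matrix.mul_kronecker_mul,
            one_mul, mul_one, zf, kron_neg_right]
        · intro h
          have hkl : k ≠ l := fun h' => h (by rw [h'])
          rw [Fin.cons_succ, Fin.cons_succ, ← Matrix.mul_kronecker_mul,
            ← Matrix.mul_kronecker_mul, z2_sq, hPa k l hkl, kron_neg_left]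
    · intro k
      refine Fin.cases ?_ (fun k => ?_) k
      · rw [Fin.cons_zero, ← Matrix.mul_kronecker_mul, one_mul]
        exact kron_sign _ _ hH f2h2_sign
      · rw [Fin.cons_succ, ← Matrix.mul_kronecker_mul]
        exact kron_sign _ _ (hPH k) z2h2_sign

/-- `r` pairwise anti-amicable sign matrices of order `2 ^ r` -/
theorem antiamicable (r : ℕ) : ∃ (X : Type) (_ : Fintype X) (_ : DecidableEq X)
    (Q : Fin r → Matrix X X ℤ), Fintype.card X = 2 ^ r ∧
    (∀ k i j, Q k i j = 1 ∨ Q k i j = -1) ∧ (∀ k, Q k * (Q k)ᵀ = ((2 : ℤ) ^ r) • 1) ∧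
    (∀ k l, k ≠ l → Q k * (Q l)ᵀ + Q l * (Q k)ᵀ = 0) := by
  obtain ⟨X, _, _, H, P, hX, hH, hHH, hPt, hPs, hPa, hPH⟩ := clifford r
  have key : ∀ k l, (P k * H) * (P l * H)ᵀ = ((2 : ℤ) ^ r) • (P k * P l) := by
    intro k l
    rw [Matrix.transpose_mul, hPt, Matrix.mul_assoc, ← Matrix.mul_assoc H, hHH,
      Matrix.smul_mul, Matrix.one_mul, Matrix.mul_smul]
  refine ⟨X, inferInstance, inferInstance, fun k => P k * H, hX, hPH, ?_, ?_⟩
  · intro k
    rw [key, hPs]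
  · intro k l hkl
    rw [key, key, hPa k l hkl]
    simp

end Pool.Agent.H114R2
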