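import Pool.Agent.H114R2.Cliff

/-! Signed hypercube matrices: symmetric `{0,±1}` matrices with square `k`. -/

namespace Pool.Agent.H114R2

open Finset Matrix

theorem cube (k : ℕ) : ∃ (S : Type) (_ : Fintype S) (_ : DecidableEq S) (A : Matrix S S ℤ),
    Fintype.card S = 2 ^ k ∧ (∀ i j, A i j = 0 ∨ A i j = 1 ∨ A i j = -1) ∧ (∀ i, A i i = 0) ∧
    Aᵀ = A ∧ A * A = (k : ℤ) • 1 := by
  induction k with
  | zero =>
    refine ⟨Fin 1, inferInstance, inferInstance, 0, by simp, fun i j => Or.inl rfl, fun i => rfl,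
      by simp, by simp⟩
  | succ k ih =>
    obtain ⟨S, _, _, A, hc, hA, hd, ht, hAA⟩ := ih
    refine ⟨S × Fin 2, inferInstance, inferInstance,
      Matrix.kroneckerMap (· * ·) A z2 + Matrix.kroneckerMap (· * ·) 1 f2, ?_, ?_, ?_, ?_, ?_⟩
    · simp [hc, pow_succ]
    · rintro ⟨i, a⟩ ⟨j, b⟩
      rw [Matrix.add_apply, Matrix.kroneckerMap_apply, Matrix.kroneckerMap_apply, Matrix.one_apply]
      by_cases hij : i = j
      · subst hij
        rw [hd, if_pos rfl]
        fin_cases a <;> fin_cases b <;> simp [f2]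
      · rw [if_neg hij]
        rcases hA i j with h | h | h <;> rw [h] <;> fin_cases a <;> fin_cases b <;> simp [z2]
    · rintro ⟨i, a⟩
      rw [Matrix.add_apply, Matrix.kroneckerMap_apply, Matrix.kroneckerMap_apply, Matrix.one_apply,
        hd, if_pos rfl]
      fin_cases a <;> simp [f2]
    · rw [Matrix.transpose_add, kron_tr, kron_tr, ht, z2_tr, f2_tr, Matrix.transpose_one]
    · rw [Matrix.add_mul, Matrix.mul_add, Matrix.mul_add, ← Matrix.mul_kronecker_mul,
        ← Matrix.mul_kronecker_mul, ← Matrix.mul_kronecker_mul, ← Matrix.mul_kronecker_mul, hAA,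
        z2_sq, f2_sq, Matrix.mul_one, Matrix.one_mul, Matrix.mul_one, zf, kron_neg_right,
        Matrix.smul_kronecker, Matrix.one_kronecker_one]
      push_cast
      rw [add_smul, one_smul]
      abel

end Pool.Agent.H114R2
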