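import Pool.Agent.H114R2.AsymA

/-! Symmetric designs from Hadamard matrices. -/

namespace Pool.Agent.H114R2

open Finset Matrix

/-- a symmetric `(v, k, l)`-design on the point set `Fin v`, with blocks `B i`, `i : Fin v` -/
def IsSymDesign (v k l : ℕ) (B : Fin v → Finset (Fin v)) : Prop :=
  k < v ∧ 0 < l ∧ (∀ i, (B i).card = k) ∧
  (∀ x, (univ.filter (fun i => x ∈ B i)).card = k) ∧
  (∀ x y, x ≠ y → (univ.filter (fun i => x ∈ B i ∧ y ∈ B i)).card = l) ∧
  (∀ i j, i ≠ j → (B i ∩ B j).card = l)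

theorem count_one {ι : Type} [Fintype ι] [DecidableEq ι] (f : ι → ℤ)
    (hf : ∀ i, f i = 1 ∨ f i = -1) :
    2 * ((univ.filter (fun i => f i = 1)).card : ℤ) = Fintype.card ι + ∑ i, f i := by
  have h : ∀ i, 2 * (if f i = 1 then (1 : ℤ) else 0) = 1 + f i := by
    intro i
    rcases hf i with h | h <;> simp [h]
  have h1 : ((univ.filter (fun i => f i = 1)).card : ℤ) = ∑ i, (if f i = 1 then (1 : ℤ) else 0) := by
    simp
  rw [h1, Finset.mul_sum, Finset.sum_congr rfl (fun i _ => h i), Finset.sum_add_distrib]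
  simp

theorem count_two {ι : Type} [Fintype ι] [DecidableEq ι] (f g : ι → ℤ)
    (hf : ∀ i, f i = 1 ∨ f i = -1) (hg : ∀ i, g i = 1 ∨ g i = -1) :
    4 * ((univ.filter (fun i => f i = 1 ∧ g i = 1)).card : ℤ)
      = Fintype.card ι + ∑ i, f i + ∑ i, g i + ∑ i, f i * g i := by
  have h : ∀ i, 4 * (if f i = 1 ∧ g i = 1 then (1 : ℤ) else 0) = 1 + f i + g i + f i * g i := by
    intro i
    rcases hf i with h | h <;> rcases hg i with h' | h' <;> simp [h, h']
  have h1 : ((univ.filter (fun i => f i = 1 ∧ g i = 1)).card : ℤ)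
      = ∑ i, (if f i = 1 ∧ g i = 1 then (1 : ℤ) else 0) := by
    simp
  rw [h1, Finset.mul_sum, Finset.sum_congr rfl (fun i _ => h i), Finset.sum_add_distrib,
    Finset.sum_add_distrib, Finset.sum_add_distrib]
  simp

theorem design_of_matrix {v k l : ℕ} (M : Fin v → Fin v → ℤ) (hM : ∀ i j, M i j = 1 ∨ M i j = -1)
    (s c : ℤ) (hr : ∀ i, ∑ j, M i j = s) (hc : ∀ j, ∑ i, M i j = s)
    (hrr : ∀ i i', i ≠ i' → ∑ j, M i j * M i' j = c)
    (hcc : ∀ j j', j ≠ j' → ∑ i, M i j * M i j' = c)
    (hk : 2 * (k : ℤ) = v + s) (hl : 4 * (l : ℤ) = v + 2 * s + c) (hkv : k < v) (hl0 : 0 < l) :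
    IsSymDesign v k l (fun i => univ.filter (fun j => M i j = 1)) := by
  refine ⟨hkv, hl0, fun i => ?_, fun x => ?_, fun x y hxy => ?_, fun i j hij => ?_⟩
  · have := count_one (fun j => M i j) (fun j => hM i j)
    rw [Fintype.card_fin, hr] at this
    have h2 : (2 : ℤ) * ((univ.filter (fun j => M i j = 1)).card : ℤ) = 2 * (k : ℤ) := by
      rw [this, hk]
    have h3 := mul_left_cancel₀ (by norm_num : (2 : ℤ) ≠ 0) h2
    exact_mod_cast h3
  · have := count_one (fun i => M i x) (fun i => hM i x)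
    rw [Fintype.card_fin, hc] at this
    have h2 : (2 : ℤ) * ((univ.filter (fun i => M i x = 1)).card : ℤ) = 2 * (k : ℤ) := by
      rw [this, hk]
    have h3 := mul_left_cancel₀ (by norm_num : (2 : ℤ) ≠ 0) h2
    have h4 : (univ.filter (fun i => M i x = 1)).card = k := by exact_mod_cast h3
    simpa using h4
  · have := count_two (fun i => M i x) (fun i => M i y) (fun i => hM i x) (fun i => hM i y)
    rw [Fintype.card_fin, hc, hc, hcc x y hxy] at this
    have h2 : (4 : ℤ) * ((univ.filter (fun i => M i x = 1 ∧ M i y = 1)).card : ℤ) = 4 * (l : ℤ) := by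
      rw [this, hl]; ring
    have h3 := mul_left_cancel₀ (by norm_num : (4 : ℤ) ≠ 0) h2
    have h4 : (univ.filter (fun i => M i x = 1 ∧ M i y = 1)).card = l := by exact_mod_cast h3
    simpa using h4
  · have := count_two (fun x => M i x) (fun x => M j x) (fun x => hM i x) (fun x => hM j x)
    rw [Fintype.card_fin, hr, hr, hrr i j hij] at this
    have h2 : (4 : ℤ) * ((univ.filter (fun x => M i x = 1 ∧ M j x = 1)).card : ℤ) = 4 * (l : ℤ) := by
      rw [this, hl]; ring
    have h3 := mul_left_cancel₀ (by norm_num : (4 : ℤ) ≠ 0) h2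
    have h4 : (univ.filter (fun x => M i x = 1 ∧ M j x = 1)).card = l := by exact_mod_cast h3
    rw [← Finset.filter_and]
    exact h4

/-- rows and columns of a Hadamard matrix -/
theorem had_rows {N : ℕ} (hN : 0 < N) {H : Matrix (Fin N) (Fin N) ℤ}
    (hHH : H * Hᵀ = (N : ℤ) • 1) :
    (∀ i i', ∑ j, H i j * H i' j = if i = i' then (N : ℤ) else 0) ∧
    (∀ j j', ∑ i, H i j * H i j' = if j = j' then (N : ℤ) else 0) := by
  have h2 : Hᵀ * H = (N : ℤ) • 1 := by
    have hQ : (H.map (Int.cast : ℤ → ℚ)) * ((N : ℚ)⁻¹ • (H.map (Int.cast : ℤ → ℚ))ᵀ) = 1 := by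
      have h3 := congrArg (fun A : Matrix (Fin N) (Fin N) ℤ => A.map (Int.cast : ℤ → ℚ)) hHH
      beta_reduce at h3
      rw [show (H * Hᵀ).map (Int.cast : ℤ → ℚ) = (H.map (Int.cast : ℤ → ℚ)) * (H.map (Int.cast : ℤ → ℚ))ᵀ
        from by
          rw [← Matrix.transpose_map]
          exact (Matrix.map_mul (f := Int.castRingHom ℚ))] at h3
      rw [Matrix.mul_smul, h3]
      ext i j
      rw [Matrix.smul_apply, Matrix.map_apply, Matrix.smul_apply, Matrix.one_apply, Matrix.one_apply]
      have : (N : ℚ) ≠ 0 := by exact_mod_cast hN.ne'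
      by_cases hij : i = j
      · simp [hij, this]
      · simp [hij]
    have hQ2 := mul_eq_one_comm.mp hQ
    rw [Matrix.smul_mul] at hQ2
    ext i j
    have h4 := congrFun (congrFun hQ2 i) j
    rw [Matrix.smul_apply, Matrix.mul_apply] at h4
    rw [Matrix.mul_apply, Matrix.smul_apply]
    have hN' : (N : ℚ) ≠ 0 := by exact_mod_cast hN.ne'
    have h5 : (∑ x, (H.map (Int.cast : ℤ → ℚ))ᵀ i x * (H.map (Int.cast : ℤ → ℚ)) x j)
        = (N : ℚ) * (1 : Matrix (Fin N) (Fin N) ℚ) i j := by
      rw [← h4, smul_eq_mul, ← mul_assoc, mul_inv_cancel₀ hN', one_mul]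
    have h6 : ((∑ x, Hᵀ i x * H x j : ℤ) : ℚ) = (((N : ℤ) * (1 : Matrix (Fin N) (Fin N) ℤ) i j : ℤ) : ℚ) := by
      push_cast
      simp only [Matrix.transpose_apply, Matrix.map_apply] at h5 ⊢
      rw [h5, Matrix.one_apply, Matrix.one_apply]
      by_cases hij : i = j <;> simp [hij]
    have h7 := Int.cast_injective h6
    simpa using h7
  constructor
  · intro i i'
    have := congrFun (congrFun hHH i) i'
    rw [Matrix.mul_apply, Matrix.smul_apply, Matrix.one_apply] at this
    simp only [Matrix.transpose_apply] at this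
    rw [this]
    by_cases h : i = i' <;> simp [h]
  · intro i i'
    have := congrFun (congrFun h2 i) i'
    rw [Matrix.mul_apply, Matrix.smul_apply, Matrix.one_apply] at this
    simp only [Matrix.transpose_apply] at this
    rw [this]
    by_cases h : i = i' <;> simp [h]

/-- the Goethals-Seidel construction: a Menon design from a Hadamard matrix of order `2u` -/
theorem menon_of_had {u : ℕ} (hu : 1 < u) (h : HasHad (2 * u)) :
    ∃ B : Fin (4 * u ^ 2) → Finset (Fin (4 * u ^ 2)),
      IsSymDesign (4 * u ^ 2) (2 * u ^ 2 - u) (u ^ 2 - u) B := by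
  obtain ⟨H, hH, hHH⟩ := h
  have hN : 0 < 2 * u := by omega
  obtain ⟨hrow, hcol⟩ := had_rows hN hHH
  have : NeZero (2 * u) := ⟨hN.ne'⟩
  let e : Fin (4 * u ^ 2) ≃ Fin (2 * u) × Fin (2 * u) :=
    (Fintype.equivFinOfCardEq (by simp; ring)).symm
  let G : Fin (2 * u) × Fin (2 * u) → Fin (2 * u) × Fin (2 * u) → ℤ :=
    fun p r => - (H (p.1 + r.1) p.2 * H (p.1 + r.1) r.2)
  have hGs : ∀ p r, G p r = G r p := by
    intro p r
    simp only [G]
    rw [add_comm, mul_comm]
  have hGsign : ∀ p r, G p r = 1 ∨ G p r = -1 := by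
    intro p r
    simp only [G]
    rcases hH (p.1 + r.1) p.2 with h1 | h1 <;> rcases hH (p.1 + r.1) r.2 with h2 | h2 <;>
      simp [h1, h2]
  have hGrow : ∀ p, ∑ r, G p r = - (2 * u : ℤ) := by
    intro p
    rw [Fintype.sum_prod_type]
    simp only [G]
    rw [Finset.sum_comm]
    have : ∀ y : Fin (2 * u), ∑ x : Fin (2 * u), -(H (p.1 + x) p.2 * H (p.1 + x) y)
        = - (if p.2 = y then ((2 * u : ℕ) : ℤ) else 0) := by
      intro y
      rw [← hcol p.2 y, Finset.sum_neg_distrib]
      congr 1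
      exact Fintype.sum_equiv (Equiv.addLeft p.1) _ _ (fun x => rfl)
    rw [Finset.sum_congr rfl (fun y _ => this y), Finset.sum_neg_distrib]
    simp
  have hGrr : ∀ p p', p ≠ p' → ∑ r, G p r * G p' r = 0 := by
    intro p p' hpp
    rw [Fintype.sum_prod_type]
    simp only [G]
    have h1 : ∀ x : Fin (2 * u), ∑ y : Fin (2 * u),
        -(H (p.1 + x) p.2 * H (p.1 + x) y) * -(H (p'.1 + x) p'.2 * H (p'.1 + x) y)
        = H (p.1 + x) p.2 * H (p'.1 + x) p'.2 * (if p.1 + x = p'.1 + x then ((2 * u : ℕ) : ℤ) else 0) := by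
      intro x
      rw [← hrow, Finset.mul_sum]
      refine Finset.sum_congr rfl fun y _ => ?_
      ring
    rw [Finset.sum_congr rfl (fun x _ => h1 x)]
    by_cases h : p.1 = p'.1
    · have h2 : p.2 ≠ p'.2 := fun h' => hpp (Prod.ext h h')
      have h3 : ∀ x : Fin (2 * u), H (p.1 + x) p.2 * H (p'.1 + x) p'.2 *
          (if p.1 + x = p'.1 + x then ((2 * u : ℕ) : ℤ) else 0)
          = H (p.1 + x) p.2 * H (p.1 + x) p'.2 * ((2 * u : ℕ) : ℤ) := by
        intro x
        rw [← h, if_pos rfl]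
      rw [Finset.sum_congr rfl (fun x _ => h3 x), ← Finset.sum_mul]
      have h4 : ∑ x : Fin (2 * u), H (p.1 + x) p.2 * H (p.1 + x) p'.2 = 0 := by
        have := hcol p.2 p'.2
        rw [if_neg h2] at this
        rw [← this]
        exact Fintype.sum_equiv (Equiv.addLeft p.1) _ _ (fun x => rfl)
      rw [h4, zero_mul]
    · apply Finset.sum_eq_zero
      intro x _
      rw [if_neg (fun h' => h (add_right_cancel h')), mul_zero]
  let M : Fin (4 * u ^ 2) → Fin (4 * u ^ 2) → ℤ := fun i j => G (e i) (e j)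
  have hMs : ∀ i j, M i j = M j i := fun i j => hGs _ _
  have hMrow : ∀ i, ∑ j, M i j = - (2 * u : ℤ) := by
    intro i
    rw [← hGrow (e i)]
    exact Fintype.sum_equiv e _ _ (fun x => rfl)
  have hMrr : ∀ i i', i ≠ i' → ∑ j, M i j * M i' j = 0 := by
    intro i i' hii
    rw [← hGrr (e i) (e i') (fun h' => hii (e.injective h'))]
    exact Fintype.sum_equiv e _ _ (fun x => rfl)
  have h1 : u ≤ u ^ 2 := by nlinarith
  refine ⟨_, design_of_matrix M (fun i j => hGsign _ _) (- (2 * u : ℤ)) 0 hMrow ?_ hMrr ?_ ?_ ?_ ?_ ?_⟩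
  · intro j
    rw [← hMrow j]
    exact Finset.sum_congr rfl fun i _ => hMs i j
  · intro j j' hjj
    rw [← hMrr j j' hjj]
    exact Finset.sum_congr rfl fun i _ => by rw [hMs i j, hMs i j']
  · rw [Nat.cast_sub (by omega)]; push_cast; ring
  · rw [Nat.cast_sub h1]; push_cast; ring
  · have : 0 < u ^ 2 := by positivity
    omega
  · have : u < u ^ 2 := by nlinarith
    omega

/-- the Hadamard design of a Hadamard matrix of order `4m` -/
theorem hadDesign_of_had {m : ℕ} (hm : 1 < m) (h : HasHad (4 * m)) :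
    ∃ B : Fin (4 * m - 1) → Finset (Fin (4 * m - 1)),
      IsSymDesign (4 * m - 1) (2 * m - 1) (m - 1) B := by
  obtain ⟨H, hH, hHH⟩ := h
  have hN : 0 < 4 * m := by omega
  obtain ⟨hrow, hcol⟩ := had_rows hN hHH
  let z : Fin (4 * m) := ⟨0, hN⟩
  have hsq : ∀ i j, H i j * H i j = 1 := by
    intro i j
    rcases hH i j with h | h <;> simp [h]
  -- normalised matrix
  let K : Fin (4 * m) → Fin (4 * m) → ℤ := fun i j => H i j * H z j * H i z * H z z
  have hKsign : ∀ i j, K i j = 1 ∨ K i j = -1 := by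
    intro i j
    simp only [K]
    rcases hH i j with h1 | h1 <;> rcases hH z j with h2 | h2 <;> rcases hH i z with h3 | h3 <;>
      rcases hH z z with h4 | h4 <;> simp [h1, h2, h3, h4]
  have hKz1 : ∀ j, K z j = 1 := by
    intro j
    simp only [K]
    have h1 := hsq z j
    have h2 := hsq z z
    calc H z j * H z j * H z z * H z z = (H z j * H z j) * (H z z * H z z) := by ring
      _ = 1 := by rw [h1, h2]; norm_num
  have hKz2 : ∀ i, K i z = 1 := by
    intro i
    simp only [K]
    have h1 := hsq i z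
    have h2 := hsq z z
    calc H i z * H z z * H i z * H z z = (H i z * H i z) * (H z z * H z z) := by ring
      _ = 1 := by rw [h1, h2]; norm_num
  have hKrr : ∀ i i', i ≠ i' → ∑ j, K i j * K i' j = 0 := by
    intro i i' hii
    have h1 := hrow i i'
    rw [if_neg hii] at h1
    have h2 : ∀ j, K i j * K i' j = H i z * H i' z * (H i j * H i' j) := by
      intro j
      simp only [K]
      have h3 := hsq z j
      have h4 := hsq z z
      calc H i j * H z j * H i z * H z z * (H i' j * H z j * H i' z * H z z)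
          = H i z * H i' z * (H i j * H i' j) * (H z j * H z j) * (H z z * H z z) := by ring
        _ = _ := by rw [h3, h4]; ring
    rw [Finset.sum_congr rfl (fun j _ => h2 j), ← Finset.mul_sum, h1, mul_zero]
  have hKcc : ∀ j j', j ≠ j' → ∑ i, K i j * K i j' = 0 := by
    intro j j' hjj
    have h1 := hcol j j'
    rw [if_neg hjj] at h1
    have h2 : ∀ i, K i j * K i j' = H z j * H z j' * (H i j * H i j') := by
      intro i
      simp only [K]
      have h3 := hsq i z
      have h4 := hsq z z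
      calc H i j * H z j * H i z * H z z * (H i j' * H z j' * H i z * H z z)
          = H z j * H z j' * (H i j * H i j') * (H i z * H i z) * (H z z * H z z) := by ring
        _ = _ := by rw [h3, h4]; ring
    rw [Finset.sum_congr rfl (fun j _ => h2 j), ← Finset.mul_sum, h1, mul_zero]
  obtain ⟨v, hv⟩ : ∃ v, 4 * m = v + 1 := ⟨4 * m - 1, by omega⟩
  have hv' : 4 * m - 1 = v := by omega
  rw [hv']
  let c : Fin (v + 1) → Fin (4 * m) := Fin.cast hv.symm
  have hc0 : c 0 = z := rfl
  have hci : Function.Injective c := Fin.cast_injective _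
  have hsum : ∀ f : Fin (4 * m) → ℤ, ∑ j, f j = f z + ∑ j : Fin v, f (c j.succ) := by
    intro f
    have h1 : ∑ j, f j = ∑ j : Fin (v + 1), f (c j) :=
      (Fintype.sum_equiv (finCongr hv.symm) _ _ (fun x => rfl)).symm
    rw [h1, Fin.sum_univ_succ]
    rfl
  have hne : ∀ i : Fin v, c i.succ ≠ z := by
    intro i hi
    rw [← hc0] at hi
    exact Fin.succ_ne_zero i (hci hi)
  let M : Fin v → Fin v → ℤ := fun i j => K (c i.succ) (c j.succ)
  have hvZ : (v : ℤ) = 4 * m - 1 := by omega
  refine ⟨_, design_of_matrix M (fun i j => hKsign _ _) (-1) (-1) ?_ ?_ ?_ ?_ ?_ ?_ ?_ ?_⟩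
  · intro i
    have h1 := hKrr (c i.succ) z (hne i)
    rw [hsum] at h1
    simp only [hKz1, hKz2, mul_one] at h1
    simp only [M]
    linarith
  · intro j
    have h1 := hKcc (c j.succ) z (hne j)
    rw [hsum] at h1
    simp only [hKz1, hKz2, mul_one] at h1
    simp only [M]
    linarith
  · intro i i' hii
    have h1 := hKrr (c i.succ) (c i'.succ) (fun h' => hii (Fin.succ_injective _ (hci h')))
    rw [hsum] at h1
    simp only [hKz2, mul_one] at h1
    simp only [M]
    linarith
  · intro j j' hjj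
    have h1 := hKcc (c j.succ) (c j'.succ) (fun h' => hjj (Fin.succ_injective _ (hci h')))
    rw [hsum] at h1
    simp only [hKz1, mul_one] at h1
    simp only [M]
    linarith
  · rw [Nat.cast_sub (by omega), hvZ]; push_cast; ring
  · rw [Nat.cast_sub (by omega), hvZ]; push_cast; ring
  · omega
  · omega

end Pool.Agent.H114R2
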