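import Pool.Agent.H114R2.Det

/-! Determinants of sign matrices of every order: the estimate. -/

namespace Pool.Agent.H114R2

open Finset Matrix

theorem det_estimate (n : ℕ) (hn : 3 ≤ n) :
    ∃ B : Matrix (Fin n) (Fin n) ℤ, (∀ i j, B i j = 1 ∨ B i j = -1) ∧
      (n : ℝ) ^ ((n : ℝ) / 2) * Real.exp (-Real.exp (100 * Real.log n / Real.log (Real.log n))) ≤
        (B.det : ℝ) := by
  set x := Real.log n with hx
  set y := Real.log x with hy
  have hn0 : (0 : ℝ) < n := by positivity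
  have hx1 : 1 < x := by
    rw [hx, Real.lt_log_iff_exp_lt hn0]
    have h1 : Real.exp 1 < 2.7182818286 := Real.exp_one_lt_d9
    have h2 : (3 : ℝ) ≤ n := by exact_mod_cast hn
    linarith
  have hy0 : 0 < y := Real.log_pos hx1
  have hyx : y ≤ x - 1 := Real.log_le_sub_one_of_pos (by linarith)
  set u := x / y with hu
  have hu1 : 1 < u := by
    rw [hu, lt_div_iff₀ hy0]; linarith
  have hxy : 100 * x / y = 100 * u := by rw [hu]; ring
  rw [hxy]
  set t := ⌈100 * u⌉₊ with ht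
  have ht1 : 100 * u ≤ t := Nat.le_ceil _
  have ht2 : (t : ℝ) < 100 * u + 1 := Nat.ceil_lt_add_one (by linarith)
  have h2t : 1 ≤ 2 ^ t := Nat.one_le_two_pow
  set q := (n + 2 ^ t - 1) / 2 ^ t with hq
  have hq1 : 0 < q := by
    rw [hq]; apply Nat.div_pos (by omega) (by positivity)
  have hqn : q ≤ n := by
    rw [hq, Nat.div_le_iff_le_mul_add_pred (by positivity)]
    have : n ≤ 2 ^ t * n := Nat.le_mul_of_pos_left _ (by positivity)
    omega
  have hlow : n ≤ 2 ^ t * q := by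
    have h1 := Nat.div_add_mod (n + 2 ^ t - 1) (2 ^ t)
    have h2 := Nat.mod_lt (n + 2 ^ t - 1) (show 0 < 2 ^ t by positivity)
    rw [← hq] at h1
    omega
  have hhigh : 2 ^ t * q < n + 2 ^ t := by
    have h1 := Nat.div_add_mod (n + 2 ^ t - 1) (2 ^ t)
    rw [← hq] at h1
    omega
  have hhad : HasHad (2 ^ t * q) := asym_mono n q t hn hq1 hqn (by rw [← hx, ← hy, hxy]; exact ht1)
  obtain ⟨d, hd⟩ := Nat.exists_eq_add_of_le hlow
  rw [hd] at hhad
  obtain ⟨B, hB, hB0, hdet⟩ := det_of_had (by omega) hhad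
  refine ⟨B, hB, ?_⟩
  set h := n + d with hh
  have hdlt : d < 2 ^ t := by omega
  have hhr : (0 : ℝ) < (h : ℝ) := by rw [hh]; positivity
  have hnh : (n : ℝ) ≤ h := by rw [hh]; push_cast; linarith [Nat.cast_nonneg (α := ℝ) d]
  -- the determinant in terms of real powers
  have hdetr : (h : ℝ) ^ (n + d) ≤ ((h : ℝ) ^ d * (B.det : ℝ)) ^ 2 := by
    have := hdet
    exact_mod_cast this
  have hB0r : (0 : ℝ) ≤ (B.det : ℝ) := by exact_mod_cast hB0
  have hkey : (n : ℝ) ^ ((n : ℝ) / 2) ≤ Real.exp (((d : ℝ) / 2) * Real.log h) * (B.det : ℝ) := by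
    have h1 : (n : ℝ) ^ n * (h : ℝ) ^ d ≤ (((h : ℝ) ^ d * (B.det : ℝ))) ^ 2 := by
      calc (n : ℝ) ^ n * (h : ℝ) ^ d ≤ (h : ℝ) ^ n * (h : ℝ) ^ d := by
            apply mul_le_mul_of_nonneg_right _ (by positivity)
            exact pow_le_pow_left₀ hn0.le hnh n
        _ = (h : ℝ) ^ (n + d) := by rw [pow_add]
        _ ≤ _ := hdetr
    have h2 : (n : ℝ) ^ n ≤ (h : ℝ) ^ d * (B.det : ℝ) ^ 2 := by
      have h3 : (0 : ℝ) < (h : ℝ) ^ d := by positivity
      have h4 : (n : ℝ) ^ n * (h : ℝ) ^ d ≤ ((h : ℝ) ^ d * (B.det : ℝ) ^ 2) * (h : ℝ) ^ d := by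
        calc _ ≤ (((h : ℝ) ^ d * (B.det : ℝ))) ^ 2 := h1
          _ = _ := by ring
      exact le_of_mul_le_mul_right h4 h3
    have h5 : Real.exp (((d : ℝ) / 2) * Real.log h) ^ 2 = (h : ℝ) ^ d := by
      rw [← Real.exp_nat_mul]
      have : ((2 : ℕ) : ℝ) * (((d : ℝ) / 2) * Real.log h) = Real.log h * d := by
        push_cast; ring
      rw [this, Real.exp_mul, Real.exp_log hhr, Real.rpow_natCast]
    have h6 : ((n : ℝ) ^ ((n : ℝ) / 2)) ^ 2 = (n : ℝ) ^ n := by
      rw [← Real.rpow_natCast, ← Real.rpow_mul hn0.le]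
      have : (n : ℝ) / 2 * ((2 : ℕ) : ℝ) = n := by push_cast; ring
      rw [this, Real.rpow_natCast]
    have h7 : ((n : ℝ) ^ ((n : ℝ) / 2)) ^ 2 ≤
        (Real.exp (((d : ℝ) / 2) * Real.log h) * (B.det : ℝ)) ^ 2 := by
      rw [mul_pow, h5, h6]; exact h2
    exact le_of_sq_le_sq h7 (by positivity)
  -- the exponent
  have hlog2 : Real.log 2 < 0.6931471808 := Real.log_two_lt_d9
  have hlog2' : 0 < Real.log 2 := Real.log_pos (by norm_num)
  have hd2 : (d : ℝ) ≤ Real.exp (70.1 * u) := by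
    have h1 : (d : ℝ) ≤ (2 : ℝ) ^ t := by exact_mod_cast hdlt.le
    have h2 : (2 : ℝ) ^ t = Real.exp (Real.log 2 * t) := by
      rw [Real.exp_mul, Real.exp_log (by norm_num), Real.rpow_natCast]
    rw [h2] at h1
    refine h1.trans (Real.exp_le_exp.2 ?_)
    nlinarith
  have hlogh : Real.log h ≤ x + (t + 1) := by
    have h1 : (h : ℝ) ≤ n * 2 ^ (t + 1) := by
      have h2 : h ≤ n * 2 ^ (t + 1) := by
        have h3 : n * 2 ^ (t + 1) = n * 2 ^ t + n * 2 ^ t := by ring
        have h4 : n ≤ n * 2 ^ t := Nat.le_mul_of_pos_right _ (by positivity)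
        have h5 : 2 ^ t ≤ n * 2 ^ t := Nat.le_mul_of_pos_left _ (by omega)
        omega
      exact_mod_cast h2
    calc Real.log h ≤ Real.log (n * 2 ^ (t + 1)) := Real.log_le_log hhr h1
      _ = x + (t + 1) * Real.log 2 := by
          rw [Real.log_mul hn0.ne' (by positivity), Real.log_pow]; push_cast; rfl
      _ ≤ x + (t + 1) := by nlinarith [Nat.cast_nonneg (α := ℝ) t]
  have hxexp : x ≤ Real.exp (2 * u) := by
    have h1 : 1 + y + y ^ 2 / 2 ≤ Real.exp y := Real.quadratic_le_exp_of_nonneg hy0.le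
    have h2 : Real.exp y = x := by rw [hy, Real.exp_log (by linarith)]
    have h3 : y ≤ 2 * u := by
      rw [hu, show 2 * (x / y) = (2 * x) / y by ring, le_div_iff₀ hy0]
      nlinarith
    rw [← h2] at *
    exact Real.exp_le_exp.2 h3
  have htexp : (t : ℝ) + 1 ≤ Real.exp (5 * u) := by
    have h1 : u ≤ Real.exp (u - 1) := by linarith [Real.add_one_le_exp (u - 1)]
    have h2 : Real.exp (5 * u) = Real.exp 5 * Real.exp (u - 1) ^ 5 := by
      rw [← Real.exp_nat_mul, ← Real.exp_add]; congr 1; push_cast; ring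
    have h3 : (102 : ℝ) ≤ Real.exp 5 := by
      have h4 : (2.7 : ℝ) ≤ Real.exp 1 := by
        have := Real.exp_one_gt_d9
        linarith
      have h5 : Real.exp 5 = Real.exp 1 ^ 5 := by
        rw [← Real.exp_nat_mul]; norm_num
      rw [h5]
      calc (102 : ℝ) ≤ 2.7 ^ 5 := by norm_num
        _ ≤ _ := pow_le_pow_left₀ (by norm_num) h4 5
    have h6 : u ≤ Real.exp (u - 1) ^ 5 := by
      calc u ≤ Real.exp (u - 1) := h1
        _ = Real.exp (u - 1) ^ 1 := by ring
        _ ≤ Real.exp (u - 1) ^ 5 := pow_le_pow_right₀ (by linarith) (by norm_num)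
    rw [h2]
    nlinarith
  have hfin : ((d : ℝ) / 2) * Real.log h ≤ Real.exp (100 * u) := by
    have h0 : (0 : ℝ) ≤ d := Nat.cast_nonneg _
    have h1 : ((d : ℝ) / 2) * Real.log h ≤
        (Real.exp (70.1 * u) / 2) * (Real.exp (2 * u) + Real.exp (5 * u)) := by
      calc ((d : ℝ) / 2) * Real.log h ≤ ((d : ℝ) / 2) * (Real.exp (2 * u) + Real.exp (5 * u)) := by
            apply mul_le_mul_of_nonneg_left _ (by positivity)
            linarith
        _ ≤ _ := by
            apply mul_le_mul_of_nonneg_right _ (by positivity)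
            linarith
    have h2 : Real.exp (2 * u) ≤ Real.exp (5 * u) := Real.exp_le_exp.2 (by linarith)
    have h3 : Real.exp (70.1 * u) * Real.exp (5 * u) ≤ Real.exp (100 * u) := by
      rw [← Real.exp_add]; exact Real.exp_le_exp.2 (by linarith)
    have h4 : 0 < Real.exp (70.1 * u) := Real.exp_pos _
    nlinarith
  calc (n : ℝ) ^ ((n : ℝ) / 2) * Real.exp (-Real.exp (100 * u))
      ≤ (Real.exp (((d : ℝ) / 2) * Real.log h) * (B.det : ℝ)) * Real.exp (-Real.exp (100 * u)) :=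
        mul_le_mul_of_nonneg_right hkey (Real.exp_pos _).le
    _ = (Real.exp (((d : ℝ) / 2) * Real.log h - Real.exp (100 * u))) * (B.det : ℝ) := by
        rw [sub_eq_add_neg, Real.exp_add]; ring
    _ ≤ 1 * (B.det : ℝ) := by
        apply mul_le_mul_of_nonneg_right _ hB0r
        rw [← Real.exp_zero]
        exact Real.exp_le_exp.2 (by linarith)
    _ = _ := one_mul _

end Pool.Agent.H114R2
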