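import Mathlib
import Pool.Agent.H450R3.BH.Stubs2

/-!
Auxiliary lemmas on the degree `dg`.
-/

set_option autoImplicit false

namespace H450BH

open IntermediateField Polynomial

theorem dga_dg_const (k K : Type) [Field k] [Field K] [Algebra k K] (f : K)
    (hf : f ∈ Set.range (algebraMap k K)) : dg k K f = 0 := by
  unfold dg
  rw [if_pos hf]

theorem dga_dg_nonconst (k K : Type) [Field k] [Field K] [Algebra k K] (f : K)
    (hf : f ∉ Set.range (algebraMap k K)) : dg k K f = Module.finrank k⟮f⟯ K := by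
  unfold dg
  rw [if_neg hf]

theorem dga_finrank_congr (k K : Type) [Field k] [Field K] [Algebra k K]
    (A B : IntermediateField k K) (h : A = B) : Module.finrank A K = Module.finrank B K := by
  rw [h]

theorem dga_dg_congr (k K : Type) [Field k] [Field K] [Algebra k K] (f g : K)
    (h1 : f ∈ Set.range (algebraMap k K) ↔ g ∈ Set.range (algebraMap k K))
    (h2 : k⟮f⟯ = k⟮g⟯) : dg k K f = dg k K g := by
  by_cases hf : f ∈ Set.range (algebraMap k K)
  · rw [dga_dg_const k K f hf, dga_dg_const k K g (h1.1 hf)]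
  · rw [dga_dg_nonconst k K f hf, dga_dg_nonconst k K g (fun h => hf (h1.2 h))]
    exact dga_finrank_congr k K _ _ h2

/-- The tower `k(c) ⊆ k(c, g) ⊆ K`. -/
theorem dga_tower (k K : Type) [Field k] [Field K] [Algebra k K] (c g : K)
    (hfin : FiniteDimensional k⟮c⟯ K) :
    Module.finrank k⟮c⟯ K = (minpoly k⟮c⟯ g).natDegree * Module.finrank k⟮c, g⟯ K := by
  have hint : IsIntegral k⟮c⟯ g := Algebra.IsIntegral.isIntegral g
  have h1 : Module.finrank k⟮c⟯ (k⟮c⟯⟮g⟯) = (minpoly k⟮c⟯ g).natDegree :=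
    IntermediateField.adjoin.finrank hint
  have h2 : Module.finrank k⟮c⟯ (k⟮c⟯⟮g⟯) * Module.finrank (k⟮c⟯⟮g⟯) K
      = Module.finrank k⟮c⟯ K := Module.finrank_mul_finrank _ _ _
  have h3 : Module.finrank (k⟮c⟯⟮g⟯) K = Module.finrank k⟮c, g⟯ K := by
    have e : k⟮c⟯⟮g⟯.restrictScalars k = k⟮c, g⟯ := adjoin_simple_adjoin_simple k c g
    have e2 := dga_finrank_congr k K _ _ e
    rw [← e2]
    rfl
  rw [← h2, h1, h3]

theorem dga_bound (k K : Type) [Field k] [Field K] [Algebra k K] (c g : K)
    (hfin : FiniteDimensional k⟮c⟯ K) (M : Polynomial k⟮c⟯) (hM : M ≠ 0)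
    (hg : Polynomial.aeval g M = 0) :
    Module.finrank k⟮c⟯ K ≤ M.natDegree * Module.finrank k⟮c, g⟯ K := by
  rw [dga_tower k K c g hfin]
  apply Nat.mul_le_mul_right
  apply Polynomial.natDegree_le_natDegree
  exact minpoly.degree_le_of_ne_zero _ _ hM hg

/-- The generator of `k(c)`. -/
noncomputable def dga_gen (k K : Type) [Field k] [Field K] [Algebra k K] (c : K) : k⟮c⟯ :=
  AdjoinSimple.gen k c

theorem dga_gen_map (k K : Type) [Field k] [Field K] [Algebra k K] (c : K) :
    algebraMap k⟮c⟯ K (dga_gen k K c) = c := AdjoinSimple.algebraMap_gen k c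

theorem dga_aeval_gen (k K : Type) [Field k] [Field K] [Algebra k K] (c : K)
    (hc : Transcendental k c) (p : Polynomial k) (h : Polynomial.aeval (dga_gen k K c) p = 0) :
    p = 0 := by
  by_contra hp
  apply hc
  refine ⟨p, hp, ?_⟩
  have h2 := congrArg (algebraMap k⟮c⟯ K) h
  rw [map_zero, ← Polynomial.aeval_algebraMap_apply, dga_gen_map] at h2
  exact h2

/-- A polynomial over an infinite field with all values zero outside one point. -/
theorem dga_zero_of_eval (k : Type) [Field k] [CharZero k] (p : Polynomial k)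
    (h : ∀ x : k, x ≠ 0 → p.eval x = 0) : p = 0 := by
  have h2 : (Polynomial.X * p) = 0 := by
    apply Polynomial.funext
    intro x
    by_cases hx : x = 0
    · simp [hx]
    · simp [h x hx]
  rcases mul_eq_zero.1 h2 with h3 | h3
  · exact absurd h3 Polynomial.X_ne_zero
  · exact h3

end H450BH
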