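import Pool.Agent.H114R2.Golay

/-! Base Golay pairs and the lengths `2 ^ a * 10 ^ b`. -/

namespace Pool.Agent.H114R2

open Finset

theorem isGolay_one : IsGolay 1 (fun _ => 1) (fun _ => 1) := by
  refine ⟨fun _ => Or.inl rfl, fun _ => Or.inl rfl, ?_⟩
  intro R _ u v _
  simp only [ev, Finset.sum_range_one]
  push_cast
  ring

theorem isGolay_two : IsGolay 2 (fun _ => 1) (fun i => if i = 1 then -1 else 1) := by
  refine ⟨fun _ => Or.inl rfl, fun i => ?_, ?_⟩
  · by_cases h : i = 1 <;> simp [h]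
  intro R _ u v huv
  simp only [ev, Finset.sum_range_succ, Finset.sum_range_zero]
  norm_num
  linear_combination 2 * huv

/-- first sequence of the Golay pair of length ten -/
def gc (i : ℕ) : ℤ := if i = 2 ∨ i = 4 ∨ i = 6 ∨ i = 7 then -1 else 1
/-- second sequence of the Golay pair of length ten -/
def gd (i : ℕ) : ℤ := if i = 2 ∨ i = 8 ∨ i = 9 then -1 else 1

theorem isGolay_ten : IsGolay 10 gc gd := by
  refine ⟨fun i => ?_, fun i => ?_, ?_⟩
  · unfold gc; split_ifs <;> simp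
  · unfold gd; split_ifs <;> simp
  intro R _ u v huv
  have hc : ∀ w : R, ev gc 10 w = 1 + w - w ^ 2 + w ^ 3 - w ^ 4 + w ^ 5 - w ^ 6 - w ^ 7 + w ^ 8 + w ^ 9 := by
    intro w
    simp only [ev, Finset.sum_range_succ, Finset.sum_range_zero, gc]
    norm_num
    ring
  have hd : ∀ w : R, ev gd 10 w = 1 + w - w ^ 2 + w ^ 3 + w ^ 4 + w ^ 5 + w ^ 6 + w ^ 7 - w ^ 8 - w ^ 9 := by
    intro w
    simp only [ev, Finset.sum_range_succ, Finset.sum_range_zero, gd]
    norm_num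
    ring
  rw [hc, hc, hd, hd]
  push_cast
  linear_combination ((18) * u ^ 0 * v ^ 0 + (-2) * u ^ 0 * v ^ 1 + (2) * u ^ 0 * v ^ 2 + (-2) * u ^ 0 * v ^ 3 + (-2) * u ^ 0 * v ^ 5 + (-2) * u ^ 1 * v ^ 0 + (16) * u ^ 1 * v ^ 1 + (-2) * u ^ 1 * v ^ 4 + (-2) * u ^ 1 * v ^ 5 + (-2) * u ^ 1 * v ^ 6 + (2) * u ^ 2 * v ^ 0 + (14) * u ^ 2 * v ^ 2 + (2) * u ^ 2 * v ^ 3 + (-2) * u ^ 2 * v ^ 6 + (-2) * u ^ 2 * v ^ 7 + (-2) * u ^ 3 * v ^ 0 + (2) * u ^ 3 * v ^ 2 + (12) * u ^ 3 * v ^ 3 + (2) * u ^ 3 * v ^ 4 + (-2) * u ^ 3 * v ^ 5 + (-2) * u ^ 3 * v ^ 7 + (-2) * u ^ 3 * v ^ 8 + (-2) * u ^ 4 * v ^ 1 + (2) * u ^ 4 * v ^ 3 + (10) * u ^ 4 * v ^ 4 + (2) * u ^ 4 * v ^ 5 + (-4) * u ^ 4 * v ^ 6 + (-2) * u ^ 4 * v ^ 7 + (-2) * u ^ 5 * v ^ 0 + (-2) * u ^ 5 * v ^ 1 + (-2) * u ^ 5 * v ^ 3 + (2) * u ^ 5 * v ^ 4 + (8) * u ^ 5 * v ^ 5 + (2) * u ^ 5 * v ^ 6 + (-4) * u ^ 5 * v ^ 7 + (-2) * u ^ 5 * v ^ 8 + (-2) * u ^ 6 * v ^ 1 + (-2) * u ^ 6 * v ^ 2 +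 (-4) * u ^ 6 * v ^ 4 + (2) * u ^ 6 * v ^ 5 + (6) * u ^ 6 * v ^ 6 + (-2) * u ^ 6 * v ^ 8 + (-2) * u ^ 7 * v ^ 2 + (-2) * u ^ 7 * v ^ 3 + (-2) * u ^ 7 * v ^ 4 + (-4) * u ^ 7 * v ^ 5 + (4) * u ^ 7 * v ^ 7 + (2) * u ^ 7 * v ^ 8 + (-2) * u ^ 8 * v ^ 3 + (-2) * u ^ 8 * v ^ 5 + (-2) * u ^ 8 * v ^ 6 + (2) * u ^ 8 * v ^ 7 + (2) * u ^ 8 * v ^ 8) * huv

/-- there is a Golay pair of every length `2 ^ a * 10 ^ b` -/
theorem golay_exists (a b : ℕ) : ∃ e f, IsGolay (2 ^ a * 10 ^ b) e f := by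
  induction a with
  | zero =>
    induction b with
    | zero => exact ⟨_, _, isGolay_one⟩
    | succ b ih =>
      obtain ⟨e, f, h⟩ := ih
      have h2 := IsGolay.mul (by positivity) h isGolay_ten
      have h3 : 2 ^ 0 * 10 ^ b * 10 = 2 ^ 0 * 10 ^ (b + 1) := by ring
      rw [h3] at h2
      exact h2
  | succ a ih =>
    obtain ⟨e, f, h⟩ := ih
    have h2 := IsGolay.mul (by positivity) h isGolay_two
    have h3 : 2 ^ a * 10 ^ b * 2 = 2 ^ (a + 1) * 10 ^ b := by ring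
    rw [h3] at h2
    exact h2

/-- A family of `m` sign sequences of length `n` with zero total autocorrelation. -/
def CompFam (m n : ℕ) : Prop :=
  ∃ s : Fin m → ℕ → ℤ, (∀ j i, s j i = 1 ∨ s j i = -1) ∧
    ∀ (R : Type) [CommRing R] (u v : R), u * v = 1 →
      ∑ j, ev (s j) n u * ev (s j) n v = m * n

theorem compFam_of_golay {g : ℕ} {a b : ℕ → ℤ} (h : IsGolay g a b) : CompFam 2 g := by
  obtain ⟨ha, hb, hab⟩ := h
  refine ⟨![a, b], ?_, ?_⟩
  · intro j i
    fin_cases j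
    · exact ha i
    · exact hb i
  · intro R _ u v huv
    rw [Fin.sum_univ_two]
    simp only [Matrix.cons_val_zero, Matrix.cons_val_one]
    rw [hab R u v huv]
    push_cast
    ring

theorem compFam_zero (m : ℕ) : CompFam m 0 := by
  refine ⟨fun _ _ => 1, fun _ _ => Or.inl rfl, ?_⟩
  intro R _ u v _
  simp [ev]

/-- concatenation of two sequences -/
def cat (n : ℕ) (a b : ℕ → ℤ) (i : ℕ) : ℤ := if i < n then a i else b (i - n)

theorem ev_cat {R : Type} [CommRing R] (n k : ℕ) (a b : ℕ → ℤ) (u : R) :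
    ev (cat n a b) (n + k) u = ev a n u + u ^ n * ev b k u := by
  unfold ev
  rw [Finset.sum_range_add, Finset.mul_sum]
  congr 1
  · refine Finset.sum_congr rfl (fun i hi => ?_)
    rw [Finset.mem_range] at hi
    simp [cat, hi]
  · refine Finset.sum_congr rfl (fun i _ => ?_)
    have : cat n a b (n + i) = b i := by
      simp [cat]
    rw [this, pow_add]
    ring

theorem ev_neg {R : Type} [CommRing R] (n : ℕ) (a : ℕ → ℤ) (u : R) :
    ev (fun i => - a i) n u = - ev a n u := by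
  unfold ev
  rw [← Finset.sum_neg_distrib]
  refine Finset.sum_congr rfl (fun i _ => ?_)
  push_cast; ring

theorem CompFam.add {m n k : ℕ} (h1 : CompFam m n) (h2 : CompFam m k) :
    CompFam (2 * m) (n + k) := by
  obtain ⟨s, hs, hs2⟩ := h1
  obtain ⟨t, ht, ht2⟩ := h2
  refine ⟨fun j => if (finProdFinEquiv.symm j).1 = 0
      then cat n (s (finProdFinEquiv.symm j).2) (t (finProdFinEquiv.symm j).2)
      else cat n (s (finProdFinEquiv.symm j).2) (fun i => - t (finProdFinEquiv.symm j).2 i), ?_, ?_⟩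
  · intro j i
    dsimp only
    generalize finProdFinEquiv.symm j = p
    split_ifs
    · unfold cat
      split_ifs
      · exact hs _ _
      · exact ht _ _
    · unfold cat
      split_ifs
      · exact hs _ _
      · rcases ht p.2 (i - n) with h | h
        · exact Or.inr (by dsimp only; rw [h])
        · exact Or.inl (by dsimp only; rw [h]; norm_num)
  · intro R _ u v huv
    rw [← Equiv.sum_comp finProdFinEquiv]
    simp only [Equiv.symm_apply_apply]
    rw [Fintype.sum_prod_type, Fin.sum_univ_two, ← Finset.sum_add_distrib]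
    simp only [if_true, Fin.one_eq_zero_iff, OfNat.ofNat_ne_one, if_false]
    have h1 := hs2 R u v huv
    have h2 := ht2 R u v huv
    have huvn : u ^ n * v ^ n = 1 := by rw [← mul_pow, huv, one_pow]
    have h3 : ∀ j : Fin m, ev (cat n (s j) (t j)) (n + k) u * ev (cat n (s j) (t j)) (n + k) v +
        ev (cat n (s j) (fun i => - t j i)) (n + k) u * ev (cat n (s j) (fun i => - t j i)) (n + k) v =
        2 * (ev (s j) n u * ev (s j) n v) + 2 * (ev (t j) k u * ev (t j) k v) := by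
      intro j
      rw [ev_cat, ev_cat, ev_cat, ev_cat, ev_neg, ev_neg]
      linear_combination 2 * (ev (t j) k u * ev (t j) k v) * huvn
    rw [Finset.sum_congr rfl (fun j _ => h3 j), Finset.sum_add_distrib, ← Finset.mul_sum,
      ← Finset.mul_sum, h1, h2]
    push_cast
    ring

/-- the lengths `2 ^ a * 10 ^ b` -/
def IsG (x : ℕ) : Prop := ∃ a b : ℕ, x = 2 ^ a * 10 ^ b

theorem compFam_list (σ : ℕ) : ∀ l : List ℕ, l.length ≤ 2 ^ σ → (∀ x ∈ l, IsG x) →
    CompFam (2 ^ (σ + 1)) l.sum := by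
  induction σ with
  | zero =>
    intro l hl hG
    rcases l with _ | ⟨x, l⟩
    · exact compFam_zero _
    · have : l = [] := by
        have : l.length = 0 := by simp at hl; simpa using hl
        exact List.length_eq_zero_iff.1 this
      subst this
      obtain ⟨a, b, rfl⟩ := hG x (by simp)
      obtain ⟨e, f, h⟩ := golay_exists a b
      simpa using compFam_of_golay h
  | succ σ ih =>
    intro l hl hG
    have h1 := ih (l.take (2 ^ σ)) (by simp) (fun x hx => hG x (List.mem_of_mem_take hx))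
    have h2 := ih (l.drop (2 ^ σ)) (by
      rw [List.length_drop, pow_succ] at *; omega) (fun x hx => hG x (List.mem_of_mem_drop hx))
    have h3 := h1.add h2
    rw [List.sum_take_add_sum_drop] at h3
    have h4 : 2 * 2 ^ (σ + 1) = 2 ^ (σ + 1 + 1) := by ring
    rwa [h4] at h3

end Pool.Agent.H114R2
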