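import Mathlib

/-! Golay pairs and complementary families of sign sequences. -/

namespace Pool.Agent.H114R2

open Finset

/-- evaluation of the first `n` terms of a sequence at `u` -/
def ev {R : Type} [CommRing R] (a : ℕ → ℤ) (n : ℕ) (u : R) : R :=
  ∑ i ∈ range n, (a i : R) * u ^ i

/-- `(a, b)` is a Golay pair of length `g`. -/
def IsGolay (g : ℕ) (a b : ℕ → ℤ) : Prop :=
  (∀ i, a i = 1 ∨ a i = -1) ∧ (∀ i, b i = 1 ∨ b i = -1) ∧
    ∀ (R : Type) [CommRing R] (u v : R), u * v = 1 →
      ev a g u * ev a g v + ev b g u * ev b g v = 2 * g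

theorem sum_range_mul_split {M : Type} [AddCommMonoid M] (g h : ℕ) (F : ℕ → M) :
    ∑ n ∈ range (g * h), F n = ∑ j ∈ range h, ∑ i ∈ range g, F (i + g * j) := by
  induction h with
  | zero => simp
  | succ h ih =>
    rw [Nat.mul_succ, Finset.sum_range_add, ih, Finset.sum_range_succ]
    congr 1
    refine Finset.sum_congr rfl (fun i _ => ?_)
    rw [add_comm]

theorem pow_mul_ev_rev {R : Type} [CommRing R] (b : ℕ → ℤ) (g : ℕ) (u v : R) (huv : u * v = 1) :
    ev (fun i => b (g - 1 - i)) g u = u ^ (g - 1) * ev b g v := by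
  unfold ev
  rw [← Finset.sum_range_reflect, Finset.mul_sum]
  refine Finset.sum_congr rfl (fun i hi => ?_)
  rw [Finset.mem_range] at hi
  have h1 : g - 1 - (g - 1 - i) = i := by omega
  have h2 : g - 1 = (g - 1 - i) + i := by omega
  simp only [h1]
  calc (b i : R) * u ^ (g - 1 - i) = (b i : R) * u ^ (g - 1 - i) * (u * v) ^ i := by
        rw [huv]; simp
    _ = (u ^ (g - 1 - i) * u ^ i) * ((b i : R) * v ^ i) := by rw [mul_pow]; ring
    _ = u ^ (g - 1) * ((b i : R) * v ^ i) := by rw [← pow_add, ← h2]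

/-- Composition of Golay pairs. -/
theorem IsGolay.mul {g h : ℕ} {a b c d : ℕ → ℤ} (hg : 0 < g) (H1 : IsGolay g a b)
    (H2 : IsGolay h c d) : ∃ e f, IsGolay (g * h) e f := by
  obtain ⟨ha, hb, hab⟩ := H1
  obtain ⟨hc, hd, hcd⟩ := H2
  have hp : ∀ j, ∃ p q : ℤ, 2 * p = c j + d j ∧ 2 * q = c j - d j ∧
      ((p = 0 ∧ (q = 1 ∨ q = -1)) ∨ (q = 0 ∧ (p = 1 ∨ p = -1))) := by
    intro j
    rcases hc j with h1 | h1 <;> rcases hd j with h2 | h2 <;> rw [h1, h2]
    · exact ⟨1, 0, by norm_num⟩
    · exact ⟨0, 1, by norm_num⟩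
    · exact ⟨0, -1, by norm_num⟩
    · exact ⟨-1, 0, by norm_num⟩
  choose p q hp1 hq1 hpq using hp
  refine ⟨fun n => a (n % g) * p (n / g) + b (g - 1 - n % g) * q (n / g),
    fun n => b (n % g) * p (n / g) - a (g - 1 - n % g) * q (n / g), ?_, ?_, ?_⟩
  · intro n
    rcases hpq (n / g) with ⟨h1, h2⟩ | ⟨h1, h2⟩ <;>
      rcases ha (n % g) with h3 | h3 <;> rcases hb (g - 1 - n % g) with h4 | h4 <;>
      rcases h2 with h2 | h2 <;> simp [h1, h2, h3, h4]
  · intro n
    rcases hpq (n / g) with ⟨h1, h2⟩ | ⟨h1, h2⟩ <;>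
      rcases hb (n % g) with h3 | h3 <;> rcases ha (g - 1 - n % g) with h4 | h4 <;>
      rcases h2 with h2 | h2 <;> simp [h1, h2, h3, h4]
  · intro R _ u v huv
    have hE : ∀ (x y : ℕ → ℤ) (w : R), ev (fun n => x (n % g) * p (n / g) +
        y (g - 1 - n % g) * q (n / g)) (g * h) w =
        ev x g w * ev p h (w ^ g) + ev (fun i => y (g - 1 - i)) g w * ev q h (w ^ g) := by
      intro x y w
      unfold ev
      rw [sum_range_mul_split]
      have : ∀ j ∈ range h, ∑ i ∈ range g, (((x ((i + g * j) % g) * p ((i + g * j) / g) +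
          y (g - 1 - (i + g * j) % g) * q ((i + g * j) / g) : ℤ) : R)) * w ^ (i + g * j) =
          (∑ i ∈ range g, (x i : R) * w ^ i) * ((p j : R) * (w ^ g) ^ j) +
          (∑ i ∈ range g, (y (g - 1 - i) : R) * w ^ i) * ((q j : R) * (w ^ g) ^ j) := by
        intro j _
        rw [Finset.sum_mul, Finset.sum_mul, ← Finset.sum_add_distrib]
        refine Finset.sum_congr rfl (fun i hi => ?_)
        rw [Finset.mem_range] at hi
        have h1 : (i + g * j) % g = i := by
          rw [Nat.add_mul_mod_self_left, Nat.mod_eq_of_lt hi]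
        have h2 : (i + g * j) / g = j := by
          rw [Nat.add_mul_div_left _ _ hg, Nat.div_eq_of_lt hi, zero_add]
        rw [h1, h2, pow_add, pow_mul]
        push_cast
        ring
      rw [Finset.sum_congr rfl this, Finset.sum_add_distrib, ← Finset.mul_sum, ← Finset.mul_sum]
    have hF : ∀ w : R, ev (fun n => b (n % g) * p (n / g) - a (g - 1 - n % g) * q (n / g))
        (g * h) w = ev b g w * ev p h (w ^ g) - ev (fun i => a (g - 1 - i)) g w * ev q h (w ^ g) := by
      intro w
      have h1 := hE b (fun n => - a n) w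
      have h2 : (fun n => b (n % g) * p (n / g) + (fun n => - a n) (g - 1 - n % g) * q (n / g)) =
          (fun n => b (n % g) * p (n / g) - a (g - 1 - n % g) * q (n / g)) := by
        funext n; ring
      have h3 : ev (fun i => (fun n => - a n) (g - 1 - i)) g w = - ev (fun i => a (g - 1 - i)) g w := by
        unfold ev
        rw [← Finset.sum_neg_distrib]
        refine Finset.sum_congr rfl (fun i _ => ?_)
        push_cast; ring
      rw [h2, h3] at h1
      rw [h1]; ring
    rw [hE a b u, hE a b v, hF u, hF v, pow_mul_ev_rev b g u v huv,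
      pow_mul_ev_rev b g v u (by rw [mul_comm]; exact huv), pow_mul_ev_rev a g u v huv,
      pow_mul_ev_rev a g v u (by rw [mul_comm]; exact huv)]
    have huvg : u ^ g * v ^ g = 1 := by rw [← mul_pow, huv, one_pow]
    have huvg1 : u ^ (g - 1) * v ^ (g - 1) = 1 := by rw [← mul_pow, huv, one_pow]
    have k1 := hab R u v huv
    have k2 := hcd R (u ^ g) (v ^ g) huvg
    have hP : ∀ w : R, ev c h w = ev p h w + ev q h w := by
      intro w
      unfold ev
      rw [← Finset.sum_add_distrib]
      refine Finset.sum_congr rfl (fun i _ => ?_)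
      have : c i = p i + q i := by linarith [hp1 i, hq1 i]
      rw [this]; push_cast; ring
    have hQ : ∀ w : R, ev d h w = ev p h w - ev q h w := by
      intro w
      unfold ev
      rw [← Finset.sum_sub_distrib]
      refine Finset.sum_congr rfl (fun i _ => ?_)
      have : d i = p i - q i := by linarith [hp1 i, hq1 i]
      rw [this]; push_cast; ring
    rw [hP, hQ, hP, hQ] at k2
    generalize ev p h (u ^ g) = P at *
    generalize ev p h (v ^ g) = P' at *
    generalize ev q h (u ^ g) = Q at *
    generalize ev q h (v ^ g) = Q' at *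
    generalize ev a g u = A at *
    generalize ev a g v = A' at *
    generalize ev b g u = B at *
    generalize ev b g v = B' at *
    generalize u ^ (g - 1) = U at *
    generalize v ^ (g - 1) = V at *
    push_cast
    linear_combination (P * P' + Q * Q') * k1 + (g : R) * k2 +
      (A * A' + B * B') * (Q * Q') * huvg1

end Pool.Agent.H114R2
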