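import Mathlib

/-! Plugging amicable matrices into an anti-amicable family. -/

namespace Pool.Agent.H114R2

open Finset Matrix

/-- the plugged matrix -/
def plugW {I X A : Type} [AddCommGroup I] (Q : I → Matrix X X ℤ) (Y : I → Matrix A A ℤ) :
    Matrix (X × I × A) (X × I × A) ℤ :=
  Matrix.of fun p q => Q (p.2.1 + q.2.1) p.1 q.1 * Y (p.2.1 + q.2.1) p.2.2 q.2.2

theorem plug {I X A : Type} [Fintype I] [DecidableEq I] [AddCommGroup I] [Fintype X] [DecidableEq X]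
    [Fintype A] [DecidableEq A] (h2 : ∀ i : I, i + i = 0) (c e : ℤ)
    (Q : I → Matrix X X ℤ) (Y : I → Matrix A A ℤ)
    (hQ : ∀ k i j, Q k i j = 1 ∨ Q k i j = -1) (hY : ∀ k i j, Y k i j = 1 ∨ Y k i j = -1)
    (hQQ : ∀ k, Q k * (Q k)ᵀ = c • 1)
    (hQa : ∀ k l, k ≠ l → Q k * (Q l)ᵀ + Q l * (Q k)ᵀ = 0)
    (hYa : ∀ k l, Y k * (Y l)ᵀ = Y l * (Y k)ᵀ)
    (hYY : ∑ k, Y k * (Y k)ᵀ = e • 1) :
    ∃ W : Matrix (X × I × A) (X × I × A) ℤ, (∀ p q, W p q = 1 ∨ W p q = -1) ∧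
      W * Wᵀ = (c * e) • 1 := by
  refine ⟨plugW Q Y, ?_, ?_⟩
  · intro p q
    unfold plugW
    rw [Matrix.of_apply]
    rcases hQ (p.2.1 + q.2.1) p.1 q.1 with h | h <;>
      rcases hY (p.2.1 + q.2.1) p.2.2 q.2.2 with h' | h' <;> simp [h, h']
  · ext ⟨x, ι, α⟩ ⟨x', ι', α'⟩
    have key : (plugW Q Y * (plugW Q Y)ᵀ) (x, ι, α) (x', ι', α') =
        ∑ κ : I, (Q (ι + κ) * (Q (ι' + κ))ᵀ) x x' * (Y (ι + κ) * (Y (ι' + κ))ᵀ) α α' := by
      rw [Matrix.mul_apply, Fintype.sum_prod_type, Finset.sum_congr rfl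
        (fun _ _ => Fintype.sum_prod_type _), Finset.sum_comm]
      refine Finset.sum_congr rfl (fun κ _ => ?_)
      rw [Matrix.mul_apply, Matrix.mul_apply, Finset.sum_mul_sum]
      refine Finset.sum_congr rfl (fun y _ => ?_)
      refine Finset.sum_congr rfl (fun β _ => ?_)
      simp only [Matrix.transpose_apply, plugW, Matrix.of_apply]
      ring
    rw [key]
    by_cases hι : ι = ι'
    · subst hι
      have h1 : ∀ κ : I, (Q (ι + κ) * (Q (ι + κ))ᵀ) x x' = (c • (1 : Matrix X X ℤ)) x x' := by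
        intro κ; rw [hQQ]
      rw [Finset.sum_congr rfl (fun κ _ => by rw [h1 κ]), ← Finset.mul_sum]
      have h3 : ∑ κ : I, (Y (ι + κ) * (Y (ι + κ))ᵀ) α α' = (e • (1 : Matrix A A ℤ)) α α' := by
        rw [← hYY, Matrix.sum_apply]
        exact Equiv.sum_comp (Equiv.addLeft ι) (fun k => (Y k * (Y k)ᵀ) α α')
      rw [h3]
      simp only [Matrix.smul_apply, Matrix.one_apply, Prod.mk.injEq, smul_eq_mul, true_and]
      by_cases hx : x = x' <;> by_cases hα : α = α' <;> simp [hx, hα]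
    · have hne : (x, ι, α) ≠ (x', ι', α') := by
        intro h
        simp only [Prod.mk.injEq] at h
        exact hι h.2.1
      rw [Matrix.smul_apply, Matrix.one_apply_ne hne, smul_zero]
      have hinv : ∑ κ : I, (Q (ι + κ) * (Q (ι' + κ))ᵀ) x x' * (Y (ι + κ) * (Y (ι' + κ))ᵀ) α α' =
          ∑ κ : I, (Q (ι' + κ) * (Q (ι + κ))ᵀ) x x' * (Y (ι' + κ) * (Y (ι + κ))ᵀ) α α' := by
        rw [← Equiv.sum_comp (Equiv.addLeft (ι + ι'))]
        refine Finset.sum_congr rfl (fun κ _ => ?_)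
        have e1 : ι + (Equiv.addLeft (ι + ι')) κ = ι' + κ := by
          rw [Equiv.coe_addLeft, ← add_assoc, ← add_assoc, h2, zero_add]
        have e2 : ι' + (Equiv.addLeft (ι + ι')) κ = ι + κ := by
          rw [Equiv.coe_addLeft, add_comm ι ι', ← add_assoc, ← add_assoc, h2, zero_add]
        rw [e1, e2]
      have hsum : ∑ κ : I, (Q (ι + κ) * (Q (ι' + κ))ᵀ) x x' * (Y (ι + κ) * (Y (ι' + κ))ᵀ) α α' +
          ∑ κ : I, (Q (ι' + κ) * (Q (ι + κ))ᵀ) x x' * (Y (ι' + κ) * (Y (ι + κ))ᵀ) α α' = 0 := by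
        rw [← Finset.sum_add_distrib]
        refine Finset.sum_eq_zero (fun κ _ => ?_)
        have hne' : ι + κ ≠ ι' + κ := fun h => hι (add_right_cancel h)
        have h4 := congrFun (congrFun (hQa _ _ hne') x) x'
        rw [Matrix.add_apply, Matrix.zero_apply] at h4
        rw [hYa (ι' + κ) (ι + κ), ← add_mul, h4, zero_mul]
      rw [← hinv] at hsum
      linarith

end Pool.Agent.H114R2
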