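import Pool.Agent.H114R2.Circ
import Pool.Agent.H114R2.Cliff
import Pool.Agent.H114R2.Plug

/-! Hadamard matrices from complementary families. -/

namespace Pool.Agent.H114R2

open Finset Matrix

/-- there is a Hadamard matrix of order `N` -/
def HasHad (N : ℕ) : Prop :=
  ∃ H : Matrix (Fin N) (Fin N) ℤ, (∀ i j, H i j = 1 ∨ H i j = -1) ∧ H * Hᵀ = (N : ℤ) • 1

theorem hasHad_of_type {ι : Type} [Fintype ι] [DecidableEq ι] {N : ℕ} (hN : Fintype.card ι = N)
    (W : Matrix ι ι ℤ) (hW : ∀ i j, W i j = 1 ∨ W i j = -1) (hWW : W * Wᵀ = (N : ℤ) • 1) :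
    HasHad N := by
  let e : ι ≃ Fin N := Fintype.equivFinOfCardEq hN
  refine ⟨W.submatrix e.symm e.symm, fun i j => hW _ _, ?_⟩
  rw [Matrix.transpose_submatrix, Matrix.submatrix_mul_equiv, hWW]
  ext i j
  rw [Matrix.submatrix_apply, Matrix.smul_apply, Matrix.smul_apply, Matrix.one_apply,
    Matrix.one_apply]
  simp only [e.symm.injective.eq_iff]

theorem hasHad_double {N : ℕ} (h : HasHad N) : HasHad (2 * N) := by
  obtain ⟨H, hH, hHH⟩ := h
  refine hasHad_of_type (ι := Fin 2 × Fin N) (by simp) (Matrix.kroneckerMap (· * ·) h2 H)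
    (kron_sign h2 H h2_sign hH) ?_
  have := kron_tr h2 H
  rw [this, ← Matrix.mul_kronecker_mul, hHH, h2_mul, Matrix.smul_kronecker,
        Matrix.kronecker_smul, Matrix.one_kronecker_one, smul_smul]
  push_cast
  rfl

theorem hasHad_pow {N : ℕ} (h : HasHad N) (k : ℕ) : HasHad (2 ^ k * N) := by
  induction k with
  | zero => simpa using h
  | succ k ih =>
    have := hasHad_double ih
    rwa [← mul_assoc, ← pow_succ'] at this

theorem had_of_compFam {d n : ℕ} (hn : 0 < n) (h : CompFam (2 ^ d) n) :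
    HasHad (2 ^ (2 ^ (d + 1)) * (2 ^ (d + 1) * (2 * n))) := by
  obtain ⟨s, hs, hs2⟩ := h
  have : NeZero n := ⟨hn.ne'⟩
  obtain ⟨X, _, _, Q, hX, hQ, hQQ, hQa⟩ := antiamicable (2 ^ (d + 1))
  let I := Fin (d + 1) → ZMod 2
  have hI : Fintype.card I = 2 ^ (d + 1) := by simp [I]
  let e1 : I ≃ Fin (2 ^ (d + 1)) := Fintype.equivFinOfCardEq hI
  let e2 : I ≃ Fin (2 ^ d) × Fin 2 := Fintype.equivOfCardEq (by
    rw [hI]; simp [pow_succ])
  let x : Fin (2 ^ d) → Matrix (ZMod n) (ZMod n) ℤ :=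
    fun j => Matrix.circulant (fun z : ZMod n => s j z.val)
  have hxsign : ∀ j i k, x j i k = 1 ∨ x j i k = -1 := fun j i k => hs _ _
  have hxt : ∀ j, (x j)ᵀ = Matrix.circulant (fun z : ZMod n => s j (-z).val) := fun j =>
    Matrix.transpose_circulant _
  have hc1 : ∀ j k, x j * x k = x k * x j := fun j k => Matrix.circulant_mul_comm _ _
  have hc2 : ∀ j k, x j * (x k)ᵀ = (x k)ᵀ * x j := by
    intro j k
    rw [hxt]
    exact Matrix.circulant_mul_comm _ _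
  have hc4 : ∀ j k, (x j)ᵀ * (x k)ᵀ = (x k)ᵀ * (x j)ᵀ := by
    intro j k
    rw [hxt, hxt]
    exact Matrix.circulant_mul_comm _ _
  let y : Fin (2 ^ d) × Fin 2 → Matrix (ZMod n ⊕ ZMod n) (ZMod n ⊕ ZMod n) ℤ :=
    fun p => if p.2 = 0 then dbl (x p.1) else dbl (x p.1)ᵀ
  have hysign : ∀ p i j, y p i j = 1 ∨ y p i j = -1 := by
    intro p
    simp only [y]
    split_ifs
    · exact dbl_sign _ (hxsign _)
    · exact dbl_sign _ (fun i j => hxsign _ _ _)
  have hyam : ∀ p q, y p * (y q)ᵀ = y q * (y p)ᵀ := by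
    intro p q
    simp only [y]
    split_ifs
    · exact dbl_amicable _ _ (hc1 _ _) (hc2 _ _)
    · exact dbl_amicable _ _ (hc2 _ _) (by rw [Matrix.transpose_transpose]; exact hc1 _ _)
    · exact dbl_amicable _ _ (hc2 _ _).symm (hc4 _ _)
    · exact dbl_amicable _ _ (hc4 _ _) (by
        rw [Matrix.transpose_transpose]; exact (hc2 _ _).symm)
  have hysum : ∑ p, y p * (y p)ᵀ = ((2 ^ (d + 1) * (2 * n) : ℕ) : ℤ) • 1 := by
    rw [Fintype.sum_prod_type]
    have h1 : ∀ j : Fin (2 ^ d), ∑ c : Fin 2, y (j, c) * (y (j, c))ᵀ =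
        Matrix.fromBlocks ((4 : ℤ) • (x j * (x j)ᵀ)) 0 0 ((4 : ℤ) • (x j * (x j)ᵀ)) := by
      intro j
      rw [Fin.sum_univ_two]
      simp only [y, if_true, Fin.one_eq_zero_iff, OfNat.ofNat_ne_one, if_false]
      exact dbl_pair _ (hc2 j j)
    rw [Finset.sum_congr rfl (fun j _ => h1 j)]
    have h3 := circ_sum s hs2
    have h4 : ∑ j, x j * (x j)ᵀ = ((2 ^ d * n : ℕ) : ℤ) • 1 := h3
    have h5 : ∑ j : Fin (2 ^ d), Matrix.fromBlocks ((4 : ℤ) • (x j * (x j)ᵀ)) 0 0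
        ((4 : ℤ) • (x j * (x j)ᵀ)) = Matrix.fromBlocks ((4 : ℤ) • ∑ j, x j * (x j)ᵀ) 0 0
        ((4 : ℤ) • ∑ j, x j * (x j)ᵀ) := by
      ext a b
      rw [Matrix.sum_apply]
      rcases a with a | a <;> rcases b with b | b
      · simp [Matrix.sum_apply, Finset.mul_sum]
      · simp
      · simp
      · simp [Matrix.sum_apply, Finset.mul_sum]
    rw [h5, h4, smul_smul, ← Matrix.fromBlocks_one]
    rw [Matrix.fromBlocks_smul]
    have h6 : (4 * ((2 ^ d * n : ℕ) : ℤ)) = ((2 ^ (d + 1) * (2 * n) : ℕ) : ℤ) := by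
      push_cast; ring
    rw [h6, smul_zero]
  obtain ⟨W, hW, hWW⟩ := plug (I := I) (by
      intro i
      funext k
      show i k + i k = 0
      generalize i k = z
      revert z
      decide) ((2 : ℤ) ^ (2 ^ (d + 1))) ((2 ^ (d + 1) * (2 * n) : ℕ) : ℤ)
    (fun i => Q (e1 i)) (fun i => y (e2 i)) (fun k => hQ _) (fun k => hysign _) (fun k => hQQ _)
    (fun k l hkl => hQa _ _ (fun h => hkl (e1.injective h))) (fun k l => hyam _ _)
    (by rw [← hysum]; exact Equiv.sum_comp e2 (fun p => y p * (y p)ᵀ))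
  refine hasHad_of_type (ι := X × I × (ZMod n ⊕ ZMod n)) ?_ W hW ?_
  · rw [Fintype.card_prod, Fintype.card_prod, hX, hI, Fintype.card_sum, ZMod.card]
    ring
  · rw [hWW]
    push_cast
    rfl

/-- If `n` is a sum of at most `2 ^ σ` numbers of the form `2 ^ a * 10 ^ b`, then there is a
Hadamard matrix of order `2 ^ t * n` for every `t ≥ 4 * 2 ^ σ + σ + 3`. -/
theorem had_of_list {σ : ℕ} {l : List ℕ} (hl : l.length ≤ 2 ^ σ) (hG : ∀ x ∈ l, IsG x)
    (hn : 0 < l.sum) {t : ℕ} (ht : 4 * 2 ^ σ + σ + 3 ≤ t) : HasHad (2 ^ t * l.sum) := by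
  have h1 := had_of_compFam hn (compFam_list σ l hl hG)
  have h2 := hasHad_pow h1 (t - (4 * 2 ^ σ + σ + 3))
  have h3 : 2 ^ (t - (4 * 2 ^ σ + σ + 3)) * (2 ^ 2 ^ (σ + 1 + 1) * (2 ^ (σ + 1 + 1) * (2 * l.sum))) =
      2 ^ t * l.sum := by
    have e1 : 2 ^ (σ + 1 + 1) = 4 * 2 ^ σ := by ring
    have e2 : t = (t - (4 * 2 ^ σ + σ + 3)) + 4 * 2 ^ σ + (σ + 1 + 1) + 1 := by omega
    conv_rhs => rw [e2, pow_add, pow_add, pow_add]
    rw [show 2 ^ 2 ^ (σ + 1 + 1) = 2 ^ (4 * 2 ^ σ) by rw [e1]]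
    ring
  rwa [h3] at h2

end Pool.Agent.H114R2
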