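import Pool.Agent.H626R2.Loc.Defs

/-! Task V4 (residues of elements algebraic over an independent family) of project Loc
(helper114). -/

set_option autoImplicit false

namespace Pool.Agent.H626R2.Loc

open MvPolynomial

namespace V4

/-- A finite sum of elements with pairwise different nonzero values is not zero. -/
theorem sum_ne_zero {E : Type} [Field E] (V : ValuationSubring E) {ι : Type} (S : Finset ι)
    (hS : S.Nonempty) (f : ι → E) (h0 : ∀ i ∈ S, f i ≠ 0)
    (hd : ∀ i ∈ S, ∀ j ∈ S, i ≠ j → V.valuation (f i) ≠ V.valuation (f j)) :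
    ∑ i ∈ S, f i ≠ 0 := by
  classical
  obtain ⟨i, hi, hmax⟩ := S.exists_max_image (fun i => V.valuation (f i)) hS
  rw [← Finset.add_sum_erase S f hi]
  have h1 : V.valuation (∑ x ∈ S.erase i, f x) < V.valuation (f i) := by
    refine Valuation.map_sum_lt _ ((map_ne_zero _).2 (h0 i hi)) fun j hj => ?_
    rw [Finset.mem_erase] at hj
    exact lt_of_le_of_ne (hmax j hj.2) (hd j hj.2 i hi hj.1)
  intro h
  have h2 := Valuation.map_add_eq_of_lt_left _ h1
  rw [h, map_zero] at h2
  exact (map_ne_zero _).2 (h0 i hi) h2.symm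

/-- Monomials in an independent family have different values. -/
theorem val_mon_ne {E : Type} [Field E] (V : ValuationSubring E) {r : ℕ} {g : Fin r → E}
    (hg : IndepVal V g) (a b : E) (ha : V.valuation a = 1) (hb : V.valuation b = 1)
    (m n : Fin r →₀ ℕ) (hmn : m ≠ n) :
    V.valuation (a * ∏ i, g i ^ m i) ≠ V.valuation (b * ∏ i, g i ^ n i) := by
  intro h
  rw [map_mul, map_mul, ha, hb, one_mul, one_mul] at h
  have hn0 : ∏ i, g i ^ n i ≠ 0 := Finset.prod_ne_zero_iff.2 fun i _ => pow_ne_zero _ (hg.1 i)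
  refine hg.2 (fun i => (m i : ℤ) - n i) ?_ ?_
  · intro h0
    refine hmn ?_
    ext i
    have h1 := congrFun h0 i
    simp only [Pi.zero_apply] at h1
    omega
  · have h2 : ∏ i, g i ^ ((m i : ℤ) - n i) = (∏ i, g i ^ m i) / ∏ i, g i ^ n i := by
      rw [← Finset.prod_div_distrib]
      refine Finset.prod_congr rfl fun i _ => ?_
      rw [zpow_sub₀ (hg.1 i), zpow_natCast, zpow_natCast]
    rw [h2, map_div₀, h, div_self ((map_ne_zero _).2 hn0)]

end V4

/-- V4. -/
theorem residue_of_algDep {M E : Type} [Field M] [IsAlgClosed M] [Field E] [Algebra M E] {r : ℕ}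
    (V : ValuationSubring E) (hM : ∀ c : M, algebraMap M E c ∈ V) (g : Fin r → E)
    (hg : IndepVal V g) (y : E) (hy : y ∈ V)
    (hdep : ¬ AlgebraicIndependent M (fun o : Option (Fin r) => o.elim y g)) :
    ∃ c : M, V.valuation (y - algebraMap M E c) < 1 := by
  classical
  by_contra hcon
  push Not at hcon
  refine hdep ?_
  have hunit : ∀ l : M, l ≠ 0 → V.valuation (algebraMap M E l) = 1 := by
    intro l hl
    refine le_antisymm ((V.valuation_le_one_iff _).2 (hM l)) ?_
    have h1 := (V.valuation_le_one_iff _).2 (hM l⁻¹)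
    rw [map_inv₀, map_inv₀] at h1
    have h2 : V.valuation (algebraMap M E l) ≠ 0 := by
      rw [map_ne_zero, map_ne_zero]
      exact hl
    rwa [inv_le_one₀ (zero_lt_iff.2 h2)] at h1
  have hlin : ∀ c : M, V.valuation (y - algebraMap M E c) = 1 := fun c =>
    le_antisymm ((V.valuation_le_one_iff _).2 (sub_mem hy (hM c))) (hcon c)
  have hpoly : ∀ P : Polynomial M, P ≠ 0 → V.valuation (Polynomial.aeval y P) = 1 := by
    intro P hP
    have hs := (IsAlgClosed.splits P).eq_prod_roots
    rw [hs, map_mul, Polynomial.aeval_C, map_mul,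
      hunit _ (Polynomial.leadingCoeff_ne_zero.2 hP), one_mul, map_multiset_prod,
      map_multiset_prod]
    rw [Multiset.map_map, Multiset.map_map]
    refine Multiset.prod_eq_one fun z hz => ?_
    obtain ⟨c, _, rfl⟩ := Multiset.mem_map.1 hz
    simp only [Function.comp_apply, map_sub, Polynomial.aeval_X, Polynomial.aeval_C]
    exact hlin c
  rw [algebraicIndependent_iff]
  intro p hp
  set P := optionEquivRight M (Fin r) p with hP
  have hhom : (aeval fun o : Option (Fin r) => o.elim y g : MvPolynomial (Option (Fin r)) M →ₐ[M] E)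
      p = eval₂ (Polynomial.aeval y : Polynomial M →ₐ[M] E).toRingHom g P := by
    have h1 : (aeval fun o : Option (Fin r) => o.elim y g :
        MvPolynomial (Option (Fin r)) M →ₐ[M] E).toRingHom =
        (eval₂Hom (Polynomial.aeval y : Polynomial M →ₐ[M] E).toRingHom g).comp
          (optionEquivRight M (Fin r)).toAlgHom.toRingHom := by
      refine MvPolynomial.ringHom_ext (fun c => ?_) fun o => ?_
      · simp
      · cases o with
        | none => simp
        | some i => simp
    exact congrArg (fun f : MvPolynomial (Option (Fin r)) M →+* E => f p) h1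
  rw [hhom, eval₂_eq'] at hp
  by_contra hp0
  have hP0 : P ≠ 0 := by
    rw [hP]
    exact fun h => hp0 ((optionEquivRight M (Fin r)).map_eq_zero_iff.1 h)
  refine V4.sum_ne_zero V P.support ?_ _ (fun m hm => ?_) (fun m hm n hn hmn => ?_) hp
  · exact Finset.nonempty_iff_ne_empty.2 fun h => hP0 (MvPolynomial.support_eq_empty.1 h)
  · refine mul_ne_zero ?_ (Finset.prod_ne_zero_iff.2 fun i _ => pow_ne_zero _ (hg.1 i))
    intro h
    have h1 := hpoly _ (MvPolynomial.mem_support_iff.1 hm)
    have h2 : Polynomial.aeval y (coeff m P) = 0 := h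
    rw [h2, map_zero] at h1
    exact zero_ne_one h1
  · exact V4.val_mon_ne V hg _ _ (hpoly _ (MvPolynomial.mem_support_iff.1 hm))
      (hpoly _ (MvPolynomial.mem_support_iff.1 hn)) m n hmn

end Pool.Agent.H626R2.Loc
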