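import Pool.Agent.H626R2.Loc.Defs

/-! Task V5 (value of a combination with independent coefficients) of project Loc (helper114). -/

set_option autoImplicit false

namespace Pool.Agent.H626R2.Loc

open MvPolynomial

/-- V5. -/
theorem val_sum {M Λ E : Type} [Field M] [Field Λ] [Field E] [Algebra M Λ] [Algebra Λ E]
    (V : ValuationSubring E) (hΛ : ∀ c : Λ, algebraMap Λ E c ∈ V) (R : Subfield E)
    (hres : ∀ y ∈ R, y ∈ V → ∃ c : M, V.valuation (y - algebraMap Λ E (algebraMap M Λ c)) < 1)
    {s : ℕ} (c : Fin s → Λ) (hc : LinearIndependent M c) (y : Fin s → E) (hy : ∀ i, y i ∈ R)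
    (i₀ : Fin s) (hmax : ∀ i, V.valuation (y i) ≤ V.valuation (y i₀)) :
    V.valuation (∑ i, algebraMap Λ E (c i) * y i) = V.valuation (y i₀) := by
  by_cases h0 : y i₀ = 0
  · have h1 : ∀ i, y i = 0 := by
      intro i
      have h2 := hmax i
      rw [h0, map_zero] at h2
      exact (map_eq_zero _).1 (le_antisymm h2 zero_le)
    simp [h1]
  have hv0 : V.valuation (y i₀) ≠ 0 := (map_ne_zero _).2 h0
  have hz : ∀ i, y i / y i₀ ∈ V := by
    intro i
    rw [← V.valuation_le_one_iff, map_div₀]
    exact div_le_one_of_le₀ (hmax i) zero_le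
  choose m hm using fun i => hres (y i / y i₀) (R.div_mem (hy i) (hy i₀)) (hz i)
  have hm0 : m i₀ ≠ 0 := by
    intro h
    have h1 := hm i₀
    rw [h, map_zero, map_zero, sub_zero, div_self h0, map_one] at h1
    exact lt_irrefl _ h1
  have hlam : ∑ i, m i • c i ≠ 0 := by
    intro h
    exact hm0 (Fintype.linearIndependent_iff.1 hc m h i₀)
  have hunit : ∀ l : Λ, l ≠ 0 → V.valuation (algebraMap Λ E l) = 1 := by
    intro l hl
    refine le_antisymm ((V.valuation_le_one_iff _).2 (hΛ l)) ?_
    have h1 := (V.valuation_le_one_iff _).2 (hΛ l⁻¹)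
    rw [map_inv₀, map_inv₀] at h1
    have h2 : V.valuation (algebraMap Λ E l) ≠ 0 := by
      rw [map_ne_zero, map_ne_zero]
      exact hl
    rwa [inv_le_one₀ (zero_lt_iff.2 h2)] at h1
  have h1 : ∑ i, algebraMap Λ E (c i) * y i =
      y i₀ * (algebraMap Λ E (∑ i, m i • c i) +
        ∑ i, algebraMap Λ E (c i) * (y i / y i₀ - algebraMap Λ E (algebraMap M Λ (m i)))) := by
    rw [map_sum, ← Finset.sum_add_distrib, Finset.mul_sum]
    refine Finset.sum_congr rfl fun i _ => ?_
    rw [Algebra.smul_def, map_mul]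
    field_simp
    ring
  have h2 : V.valuation (∑ i, algebraMap Λ E (c i) *
      (y i / y i₀ - algebraMap Λ E (algebraMap M Λ (m i)))) < 1 := by
    refine Valuation.map_sum_lt _ one_ne_zero fun i _ => ?_
    rw [map_mul]
    have h3 := (V.valuation_le_one_iff _).2 (hΛ (c i))
    exact mul_lt_one_of_nonneg_of_lt_one_right h3 zero_le (hm i)
  rw [h1, map_mul, Valuation.map_add_eq_of_lt_left _ (by rw [hunit _ hlam]; exact h2),
    hunit _ hlam, mul_one]

end Pool.Agent.H626R2.Loc
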