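import Pool.Agent.H626R2.Loc.Defs

/-! Task V6 (extension of constants of a valuation ring) of project Loc (helper114). -/

set_option autoImplicit false

namespace Pool.Agent.H626R2.Loc

open MvPolynomial

namespace V6

variable {r : ℕ} (M k : Type) [Field M] [Field k] [Algebra M k]

theorem descend {ι : Type} (S : Finset ι) (e : ι → k) (x : ι → Fr r M) (φ : k →ₗ[M] M)
    (hφ : φ 1 = 1) (z : Fr r M)
    (h : ∑ i ∈ S, toFr (C (e i)) * frMap M k (x i) = frMap M k z) :
    ∑ i ∈ S, toFr (C (φ (e i))) * x i = z := by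
  classical
  obtain ⟨b, hb⟩ := IsLocalization.exist_integer_multiples_of_finset
    (nonZeroDivisors (MvPolynomial (Fin r) M)) (insert z (S.image x))
  have hb' : ∀ a ∈ insert z (S.image x), ∃ p : MvPolynomial (Fin r) M,
      toFr p = toFr (b : MvPolynomial (Fin r) M) * a := by
    intro a ha
    obtain ⟨p, hp⟩ := hb a ha
    rw [Algebra.smul_def] at hp
    exact ⟨p, hp⟩
  obtain ⟨q, hq⟩ := hb' z (Finset.mem_insert_self _ _)
  have hx : ∀ i, ∃ p : MvPolynomial (Fin r) M, i ∈ S → 
      toFr p = toFr (b : MvPolynomial (Fin r) M) * x i := by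
    intro i
    by_cases hi : i ∈ S
    · obtain ⟨p, hp⟩ := hb' (x i) (Finset.mem_insert_of_mem (Finset.mem_image_of_mem x hi))
      exact ⟨p, fun _ => hp⟩
    · exact ⟨0, fun h => absurd h hi⟩
  choose p hp using hx
  have h1 : ∑ i ∈ S, C (e i) * MvPolynomial.map (algebraMap M k) (p i) =
      MvPolynomial.map (algebraMap M k) q := by
    refine toFr_injective ?_
    rw [← frMap_toFr, hq, map_mul, ← h, Finset.mul_sum, map_sum]
    refine Finset.sum_congr rfl fun i hi => ?_
    rw [map_mul, ← frMap_toFr, hp i hi, map_mul]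
    ring
  have h2 : ∑ i ∈ S, C (φ (e i)) * p i = q := by
    ext m
    have h3 := congrArg (fun t => φ (coeff m t)) h1
    simp only [coeff_sum, coeff_C_mul, coeff_map, map_sum] at h3 ⊢
    have h4 : ∀ (a : k) (c : M), φ (a * algebraMap M k c) = φ a * c := by
      intro a c
      rw [mul_comm, ← Algebra.smul_def, map_smul, smul_eq_mul, mul_comm]
    have h5 : φ (algebraMap M k (coeff m q)) = coeff m q := by
      rw [← one_mul (algebraMap M k (coeff m q)), h4, hφ, one_mul]
    rw [h5] at h3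
    simp only [h4] at h3
    exact h3
  have h3 : toFr (b : MvPolynomial (Fin r) M) ≠ 0 := by
    intro h10
    exact nonZeroDivisors.ne_zero b.2 (toFr_injective (by rw [h10, map_zero]))
  refine mul_left_cancel₀ h3 ?_
  rw [← hq, ← h2, map_sum, Finset.mul_sum]
  refine Finset.sum_congr rfl fun i hi => ?_
  rw [map_mul, hp i hi]
  ring

theorem smul_eq (c : k) (y : Fr r k) : c • y = toFr (C c) * y := by
  rw [Algebra.smul_def]
  rfl

end V6

open V6 in
/-- V6. -/
theorem const_ext {r : ℕ} (M k : Type) [Field M] [Field k] [Algebra M k]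
    (VM : ValuationSubring (Fr r M)) (hM : ∀ c : M, toFr (C c) ∈ VM) :
    ∃ V' : ValuationSubring (Fr r k), (∀ c : k, toFr (C c) ∈ V') ∧
      ∀ y : Fr r M, y ∈ VM ↔ frMap M k y ∈ V' := by
  obtain ⟨φ, hφ⟩ := (Algebra.linearMap M k).exists_leftInverse_of_injective
    (LinearMap.ker_eq_bot.2 (algebraMap M k).injective)
  have hφ1 : φ 1 = 1 := by
    have h := LinearMap.congr_fun hφ 1
    simpa using h
  set P : Submodule k (Fr r k) := Submodule.span k (frMap M k '' (VM : Set (Fr r M))) with hP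
  set N : Submodule k (Fr r k) := Submodule.span k (frMap M k '' (VM.nonunits : Set (Fr r M)))
    with hN
  have hPP : P * P ≤ P := by
    rw [hP, Submodule.span_mul_span]
    refine Submodule.span_mono ?_
    rintro _ ⟨_, ⟨a, ha, rfl⟩, _, ⟨b, hb, rfl⟩, rfl⟩
    exact ⟨a * b, VM.mul_mem a b ha hb, map_mul _ _ _⟩
  have hPN : P * N ≤ N := by
    rw [hP, hN, Submodule.span_mul_span]
    refine Submodule.span_mono ?_
    rintro _ ⟨_, ⟨a, ha, rfl⟩, _, ⟨b, hb, rfl⟩, rfl⟩
    refine ⟨a * b, ?_, map_mul _ _ _⟩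
    rw [SetLike.mem_coe, ValuationSubring.mem_nonunits_iff] at hb ⊢
    rw [map_mul]
    exact mul_lt_one_of_nonneg_of_lt_one_right ((VM.valuation_le_one_iff a).2 ha) zero_le hb
  have h1P : (1 : Fr r k) ∈ P :=
    Submodule.subset_span ⟨1, VM.one_mem, map_one _⟩
  have h1N : (1 : Fr r k) ∉ N := by
    intro h1
    rw [hN, Finsupp.mem_span_image_iff_linearCombination] at h1
    obtain ⟨l, hl, hl1⟩ := h1
    rw [Finsupp.mem_supported] at hl
    have h2 : ∑ i ∈ l.support, toFr (C (l i)) * frMap M k i = frMap M k 1 := by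
      rw [map_one, ← hl1, Finsupp.linearCombination_apply, Finsupp.sum]
      exact Finset.sum_congr rfl fun i _ => (smul_eq k _ _).symm
    have h3 := descend M k l.support l id φ hφ1 1 h2
    have h4 : VM.valuation (∑ i ∈ l.support, toFr (C (φ (l i))) * id i) < 1 := by
      refine Valuation.map_sum_lt _ one_ne_zero fun i hi => ?_
      rw [map_mul]
      exact mul_lt_one_of_nonneg_of_lt_one_right ((VM.valuation_le_one_iff _).2 (hM _)) zero_le
        (hl hi)
    rw [h3, map_one] at h4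
    exact lt_irrefl _ h4
  set A : Subring (Fr r k) :=
    (P.toSubalgebra h1P fun x y hx hy => hPP (Submodule.mul_mem_mul hx hy)).toSubring with hA
  have hAP : ∀ x, x ∈ A ↔ x ∈ P := fun x => Iff.rfl
  let I : Ideal A :=
    { carrier := {x | (x : Fr r k) ∈ N}
      add_mem' := fun {a b} ha hb => N.add_mem ha hb
      zero_mem' := N.zero_mem
      smul_mem' := fun c x hx => hPN (Submodule.mul_mem_mul ((hAP _).1 c.2) hx) }
  have hI : I ≠ ⊤ := by
    rw [Ideal.ne_top_iff_one]
    exact h1N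
  obtain ⟨V', hV1, hV2⟩ := Ideal.image_subset_nonunits_valuationSubring I hI
  have hNP : N ≤ P := Submodule.span_mono (Set.image_mono fun x hx => VM.nonunits_le hx)
  refine ⟨V', fun c => ?_, fun y => ⟨fun hy => ?_, fun hy => ?_⟩⟩
  · refine hV1 ((hAP _).2 ?_)
    have h2 : toFr (C c) = c • (1 : Fr r k) := by rw [smul_eq, mul_one]
    rw [h2]
    exact P.smul_mem c h1P
  · exact hV1 ((hAP _).2 (Submodule.subset_span ⟨y, hy, rfl⟩))
  · by_contra hyV
    have h2 : y⁻¹ ∈ VM.nonunits := VM.inv_mem_nonunits_iff.2 (Or.inr hyV)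
    have h3 : frMap M k y⁻¹ ∈ N := Submodule.subset_span ⟨_, h2, rfl⟩
    have h4 : frMap M k y⁻¹ ∈ V'.nonunits := hV2 ⟨⟨_, (hAP _).2 (hNP h3)⟩, h3, rfl⟩
    rw [map_inv₀, V'.inv_mem_nonunits_iff] at h4
    rcases h4 with h5 | h5
    · refine hyV ?_
      rw [map_eq_zero] at h5
      rw [h5]
      exact VM.zero_mem
    · exact h5 hy

end Pool.Agent.H626R2.Loc
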