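import Pool.Agent.H626R2.Loc.Defs

/-! Task V7 (linear disjointness) of project Loc (helper114). -/

set_option autoImplicit false

namespace Pool.Agent.H626R2.Loc

open MvPolynomial

/-- V7. -/
theorem lin_disj {r : ℕ} (M k : Type) [Field M] [Field k] [Algebra M k] {s : ℕ} (e : Fin s → k)
    (he : LinearIndependent M e) (x : Fin s → Fr r M)
    (h : ∑ i, toFr (C (e i)) * frMap M k (x i) = 0) : ∀ i, x i = 0 := by
  obtain ⟨b, hb⟩ := IsLocalization.exist_integer_multiples
    (nonZeroDivisors (MvPolynomial (Fin r) M)) Finset.univ x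
  choose! p hp using hb
  have hp' : ∀ i, toFr (p i) = toFr (b : MvPolynomial (Fin r) M) * x i := by
    intro i
    have h1 := hp i (Finset.mem_univ i)
    rw [Algebra.smul_def] at h1
    exact h1
  have h1 : ∑ i, toFr (C (e i)) * frMap M k (toFr (b : MvPolynomial (Fin r) M) * x i) = 0 := by
    have h2 : ∀ i, toFr (C (e i)) * frMap M k (toFr (b : MvPolynomial (Fin r) M) * x i) =
        frMap M k (toFr (b : MvPolynomial (Fin r) M)) * (toFr (C (e i)) * frMap M k (x i)) := by
      intro i
      rw [map_mul]
      ring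
    simp only [h2]
    rw [← Finset.mul_sum, h, mul_zero]
  have h3 : toFr (∑ i, C (e i) * MvPolynomial.map (algebraMap M k) (p i)) =
      (0 : Fr r k) := by
    rw [map_sum, ← h1]
    refine Finset.sum_congr rfl fun i _ => ?_
    rw [map_mul, ← hp', frMap_toFr]
  have h4 : ∑ i, C (e i) * MvPolynomial.map (algebraMap M k) (p i) = 0 := by
    refine toFr_injective ?_
    rw [h3, map_zero]
  have h5 : ∀ i, p i = 0 := by
    intro i
    ext m
    have h6 := congrArg (coeff m) h4
    rw [coeff_sum, coeff_zero] at h6
    have h7 : ∑ j, coeff m (p j) • e j = 0 := by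
      rw [← h6]
      refine Finset.sum_congr rfl fun j _ => ?_
      rw [coeff_C_mul, coeff_map, Algebra.smul_def, mul_comm]
    rw [coeff_zero]
    exact Fintype.linearIndependent_iff.1 he _ h7 i
  intro i
  have h8 := hp' i
  rw [h5 i, map_zero] at h8
  have h9 : toFr (b : MvPolynomial (Fin r) M) ≠ 0 := by
    intro h10
    exact nonZeroDivisors.ne_zero b.2 (toFr_injective (by rw [h10, map_zero]))
  exact (mul_eq_zero.1 h8.symm).resolve_left h9

end Pool.Agent.H626R2.Loc
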