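import Pool.Agent.H626R2.Loc.Defs

/-! Task V8a (transcendence degree of rational functions) of project Loc (helper114). -/

set_option autoImplicit false

namespace Pool.Agent.H626R2.Loc

open MvPolynomial

/-- V8a. -/
theorem fr_algDep {r : ℕ} {M : Type} [Field M] (x : Option (Fin r) → Fr r M) :
    ¬ AlgebraicIndependent M x := by
  intro hx
  have h1 := hx.cardinalMk_le_trdeg
  have halg : Algebra.IsAlgebraic (MvPolynomial (Fin r) M) (Fr r M) :=
    IsLocalization.isAlgebraic _ (nonZeroDivisors (MvPolynomial (Fin r) M))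
  have h2 : Algebra.trdeg M (Fr r M) = r := by
    rw [← trdeg_add_eq M (MvPolynomial (Fin r) M) (A := Fr r M),
      trdeg_eq_zero (R := MvPolynomial (Fin r) M) (A := Fr r M),
      MvPolynomial.trdeg_of_isDomain]
    simp
  rw [h2, Cardinal.mk_fintype, Fintype.card_option, Fintype.card_fin] at h1
  have h3 : r + 1 ≤ r := by exact_mod_cast h1
  omega

end Pool.Agent.H626R2.Loc
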