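import Pool.Agent.H114R2.Blow
import Pool.Agent.H114R2.Cube
import Pool.Agent.H114R2.Univ

/-! Modular Hadamard matrices of all large orders. -/

namespace Pool.Agent.H114R2

open Finset Matrix

/-- blow-up of a Hadamard matrix containing a Paley core -/
theorem mod_of_core {ι : Type} [Fintype ι] [DecidableEq ι] {p : ℕ} [Fact p.Prime] (hp : p ≠ 2)
    (m k n0 w : ℕ) (hm : 0 < m) (hw : m ∣ w)
    (H : Matrix ι ι ℤ) (hH : ∀ i j, H i j = 1 ∨ H i j = -1)
    (hHH : H * Hᵀ = (n0 : ℤ) • 1) (hcard : Fintype.card ι = n0)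
    (u : ZMod p → ι) (hu : Function.Injective u) (ε : ℤ) (hε : ε = 1 ∨ ε = -1)
    (hcore : ∀ x y : ZMod p, x ≠ y → H (u x) (u y) = qc p (x - y) * ε)
    (hk : 4 * k ≡ n0 [MOD m])
    (hbig : ((2 * 2 ^ k : ℕ) : ℝ) * 2 ^ (2 * 2 ^ k) +
      5 * ((2 * 2 ^ k : ℕ) : ℝ) * 2 ^ (2 * 2 ^ k) * Real.sqrt p < p)
    (hle : 2 * 2 ^ k ≤ p) :
    ModHad m (n0 + 2 ^ k * w) := by
  obtain ⟨S, _, _, A, hc, hA, hd, ht, hAA⟩ := cube k
  have hc' : Fintype.card S = 2 ^ k := hc
  have h1 : ∀ j l, (if A j l = 0 then (1 : ℤ) else A j l) * ε = 1 ∨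
      (if A j l = 0 then (1 : ℤ) else A j l) * ε = -1 := by
    intro j l
    apply sign_mul _ hε
    split_ifs with h
    · exact Or.inl rfl
    · rcases hA j l with h' | h' | h'
      · exact absurd h' h
      · exact Or.inl h'
      · exact Or.inr h'
  obtain ⟨x, y, hx, hy, hxy⟩ := universal (p := p) (S := S) hp (by rw [hc']; exact hbig)
    (by rw [hc']; exact hle) (fun j l => (if A j l = 0 then (1 : ℤ) else A j l) * ε) h1
  have hεε : ε * ε = 1 := by
    rcases hε with h | h <;> rw [h] <;> norm_num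
  have := blowup m n0 w hm H hH hHH hcard (fun j => u (x j)) (fun l => u (y l))
    (fun a b h => hx (hu h)) (fun a b h => hy (hu h)) A (by
      intro j l
      by_cases h0 : A j l = 0
      · exact Or.inl h0
      · right
        have hne : x j ≠ y l := by
          intro h
          have h2 := hxy j l
          rw [h, sub_self, qc_zero] at h2
          rcases h1 j l with h3 | h3 <;> rw [h3] at h2 <;> norm_num at h2
        rw [hcore _ _ hne, hxy j l, if_neg h0, mul_assoc, hεε, mul_one]) k (by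
      rw [ht, hAA]) hk hw
  rw [hc'] at this
  exact this

/-- base matrices: `r * (p + 1)` -/
theorem mod_one (m k r : ℕ) (hm : 0 < m) (hr0 : 0 < r) (hr : HasHad r) :
    ∃ P : ℕ, ∀ p : ℕ, p.Prime → P ≤ p → p % 4 = 3 → ∀ w, m ∣ w →
      4 * k ≡ r * (p + 1) [MOD m] → ModHad m (r * (p + 1) + 2 ^ k * w) := by
  obtain ⟨P, hP⟩ := large_enough (2 * 2 ^ k)
  refine ⟨P, fun p hp hPp h3 w hw hk => ?_⟩
  have : Fact p.Prime := ⟨hp⟩
  obtain ⟨h1, h2⟩ := hP p hPp
  obtain ⟨H, hH, hHH, hcore⟩ := paley_one (p := p) h3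
  obtain ⟨R, hR, hRR⟩ := hr
  refine mod_of_core (p := p) (by omega) m k (r * (p + 1)) w hm hw
    (Matrix.kroneckerMap (· * ·) H R) (kron_sign _ _ hH hR) ?_ ?_
    (fun x => (some x, ⟨0, hr0⟩)) ?_ (R ⟨0, hr0⟩ ⟨0, hr0⟩) (hR _ _) ?_ hk h1 h2
  · have h4 := kron_tr H R
    rw [h4, ← Matrix.mul_kronecker_mul, hHH, hRR, Matrix.smul_kronecker,
      Matrix.kronecker_smul, Matrix.one_kronecker_one, smul_smul]
    congr 1
    push_cast
    ring
  · rw [Fintype.card_prod, Fintype.card_option, ZMod.card, Fintype.card_fin]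
    ring
  · intro a b hab
    simpa using hab
  · intro x y hxy
    rw [Matrix.kroneckerMap_apply, hcore x y hxy]

/-- base matrices: `r * (2 * (p + 1))` -/
theorem mod_two (m k r : ℕ) (hm : 0 < m) (hr0 : 0 < r) (hr : HasHad r) :
    ∃ P : ℕ, ∀ p : ℕ, p.Prime → P ≤ p → p ≠ 2 → ∀ w, m ∣ w →
      4 * k ≡ r * (2 * (p + 1)) [MOD m] → ModHad m (r * (2 * (p + 1)) + 2 ^ k * w) := by
  obtain ⟨P, hP⟩ := large_enough (2 * 2 ^ k)
  refine ⟨P, fun p hp hPp h3 w hw hk => ?_⟩
  have : Fact p.Prime := ⟨hp⟩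
  obtain ⟨h1, h2⟩ := hP p hPp
  obtain ⟨H, hH, hHH, hcore⟩ := paley_two (p := p) h3
  obtain ⟨R, hR, hRR⟩ := hr
  refine mod_of_core (p := p) h3 m k (r * (2 * (p + 1))) w hm hw
    (Matrix.kroneckerMap (· * ·) H R) (kron_sign _ _ hH hR) ?_ ?_
    (fun x => ((some x, 0), ⟨0, hr0⟩)) ?_ (R ⟨0, hr0⟩ ⟨0, hr0⟩) (hR _ _) ?_ hk h1 h2
  · have h4 := kron_tr H R
    rw [h4, ← Matrix.mul_kronecker_mul, hHH, hRR, Matrix.smul_kronecker,
      Matrix.kronecker_smul, Matrix.one_kronecker_one, smul_smul]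
    congr 1
    push_cast
    ring
  · rw [Fintype.card_prod, Fintype.card_prod, Fintype.card_option, ZMod.card, Fintype.card_fin,
      Fintype.card_fin]
    ring
  · intro a b hab
    simpa using hab
  · intro x y hxy
    rw [Matrix.kroneckerMap_apply, hcore x y hxy]

/-- finitely many residue classes -/
theorem finite_classes {X Y : ℕ → Prop} {Q : ℕ} (hQ : 0 < Q)
    (h : ∀ a, X a → ∃ N, ∀ n, N ≤ n → n ≡ a [MOD Q] → Y n) : ∃ N, ∀ n, N ≤ n → X n → Y n := by
  classical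
  have h' : ∀ c : ℕ, ∃ N, ∀ n, N ≤ n → X n → n ≡ c [MOD Q] → Y n := by
    intro c
    by_cases hc : ∃ a, X a ∧ a ≡ c [MOD Q]
    · obtain ⟨a, ha, hac⟩ := hc
      obtain ⟨N, hN⟩ := h a ha
      exact ⟨N, fun n hn _ hnc => hN n hn (hnc.trans hac.symm)⟩
    · exact ⟨0, fun n _ hX hnc => absurd ⟨n, hX, hnc⟩ hc⟩
  choose f hf using h'
  refine ⟨(Finset.range Q).sup f, fun n hn hX => ?_⟩
  have hmem : n % Q ∈ Finset.range Q := Finset.mem_range.2 (Nat.mod_lt _ hQ)
  exact hf (n % Q) n ((Finset.le_sup hmem).trans hn) hX (Nat.mod_modEq n Q).symm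

/-- admissible orders -/
def Adm (m n : ℕ) : Prop :=
  4 ∣ n ∧ ∃ r c x : ℕ, HasHad r ∧ 0 < r ∧ 1 ≤ x ∧ ((c = 1 ∧ 4 ∣ x) ∨ (c = 2 ∧ 2 ∣ x)) ∧
    (x - 1).Coprime m ∧ r * (c * x) ≡ n [MOD 8 * m * 2 ^ m]

theorem mod_of_adm (m : ℕ) (hm : 0 < m) : ∃ N, ∀ n, N ≤ n → Adm m n → ModHad m n := by
  have hQ : 0 < 8 * m * 2 ^ m := by positivity
  refine finite_classes hQ ?_
  rintro a ⟨ha4, r, c, x, hr, hr0, hx1, hcx, hcop, hcong⟩
  have hx2 : 2 ∣ x := by
    rcases hcx with h | h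
    · exact dvd_trans (by norm_num) h.2
    · exact h.2
  set k := (a / 4) % m with hk
  have hkm : k < m := Nat.mod_lt _ hm
  have hcopQ : (x - 1).Coprime (8 * m * 2 ^ m) := by
    have hodd : (x - 1).Coprime 2 := by
      rw [Nat.coprime_comm, Nat.Prime.coprime_iff_not_dvd Nat.prime_two]
      omega
    have h8 : (x - 1).Coprime 8 := by
      have := Nat.Coprime.pow_right 3 hodd
      simpa using this
    exact (h8.mul_right hcop).mul_right (Nat.Coprime.pow_right m hodd)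
  -- the two families
  obtain ⟨P1, hP1⟩ := mod_one m k r hm hr0 hr
  obtain ⟨P2, hP2⟩ := mod_two m k r hm hr0 hr
  obtain ⟨p, hpgt, hp, hpx⟩ := Nat.forall_exists_prime_gt_and_modEq (max (max P1 P2) 2) hQ.ne' hcopQ
  have hp1 : P1 ≤ p := by
    have := le_max_left (max P1 P2) 2
    have := le_max_left P1 P2
    omega
  have hp2 : P2 ≤ p := by
    have := le_max_left (max P1 P2) 2
    have := le_max_right P1 P2
    omega
  have hpne : p ≠ 2 := by
    have := le_max_right (max P1 P2) 2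
    omega
  have hp1x : p + 1 ≡ x [MOD 8 * m * 2 ^ m] := by
    have := Nat.ModEq.add_right 1 hpx
    rwa [Nat.sub_add_cancel hx1] at this
  refine ⟨r * (c * (p + 1)), fun n hn hna => ?_⟩
  have hcn : r * (c * (p + 1)) ≡ n [MOD 8 * m * 2 ^ m] :=
    ((hp1x.mul_left c).mul_left r).trans (hcong.trans hna.symm)
  obtain ⟨j, hj⟩ := (Nat.modEq_iff_dvd' hn).1 hcn
  have hn2 : n = r * (c * (p + 1)) + 8 * m * 2 ^ m * j := by omega
  have hsplit : 8 * m * 2 ^ m * j = 2 ^ k * (m * (8 * 2 ^ (m - k) * j)) := by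
    have : 2 ^ m = 2 ^ k * 2 ^ (m - k) := by
      rw [← pow_add]
      congr 1
      omega
    rw [this]
    ring
  have hk4 : 4 * k ≡ r * (c * (p + 1)) [MOD m] := by
    have h1 : 4 * k ≡ 4 * (a / 4) [MOD m] := (Nat.mod_modEq _ _).mul_left 4
    rw [Nat.mul_div_cancel' ha4] at h1
    have hmQ : m ∣ 8 * m * 2 ^ m := ⟨8 * 2 ^ m, by ring⟩
    have h2 : a ≡ n [MOD m] := (hna.symm).of_dvd hmQ
    exact h1.trans (h2.trans (hcn.symm.of_dvd hmQ))
  rw [hn2, hsplit]
  rcases hcx with ⟨hc, hx4⟩ | ⟨hc, _⟩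
  · subst hc
    have hp3 : p % 4 = 3 := by
      have h4Q : 4 ∣ 8 * m * 2 ^ m := ⟨2 * m * 2 ^ m, by ring⟩
      have := hp1x.of_dvd h4Q
      have h5 : (p + 1) % 4 = x % 4 := this
      omega
    rw [one_mul] at hk4 ⊢
    exact hP1 p hp hp1 hp3 _ (Dvd.intro _ rfl) hk4
  · subst hc
    exact hP2 p hp hp2 hpne _ (Dvd.intro _ rfl) hk4

theorem hasHad_one : HasHad 1 := by
  refine ⟨1, fun i j => ?_, by simp⟩
  left
  have : i = j := Subsingleton.elim _ _
  rw [this, Matrix.one_apply_eq]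

theorem hasHad_two_pow (k : ℕ) : HasHad (2 ^ k) := by
  have := hasHad_pow hasHad_one k
  rwa [mul_one] at this

theorem adm_two (m n j : ℕ) (hn : 0 < n) (h4 : 4 ∣ n) (hj : 2 ^ (j + 1) ∣ n)
    (hcop : (n / 2 ^ j - 1).Coprime m) : Adm m n := by
  refine ⟨h4, ?_⟩
  rcases Nat.eq_zero_or_pos j with h0 | h0
  · subst h0
    rw [pow_zero, Nat.div_one] at hcop
    exact ⟨1, 1, n, hasHad_one, one_pos, hn, Or.inl ⟨rfl, h4⟩, hcop, by rw [one_mul, one_mul]⟩
  · obtain ⟨i, rfl⟩ : ∃ i, j = i + 1 := ⟨j - 1, by omega⟩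
    obtain ⟨y, hy⟩ := hj
    have hdiv : n / 2 ^ (i + 1) = 2 * y := by
      rw [hy, pow_succ (2 : ℕ) (i + 1), mul_assoc]
      exact Nat.mul_div_cancel_left _ (by positivity)
    rw [hdiv] at hcop
    refine ⟨2 ^ i, 2, 2 * y, hasHad_two_pow i, by positivity, ?_, Or.inr ⟨rfl, Dvd.intro _ rfl⟩,
      hcop, ?_⟩
    · rcases Nat.eq_zero_or_pos y with h | h
      · subst h
        omega
      · omega
    · have : 2 ^ i * (2 * (2 * y)) = n := by
        rw [hy]
        ring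
      rw [this]

theorem adm_sixteen_aux (m n c n' : ℕ) (hm : 0 < m) (hn : 0 < n) (hcn : c * n' = n)
    (hc : (c = 1 ∧ 16 ∣ n') ∨ (c = 2 ∧ 8 ∣ n')) (h3 : n' % 3 ≠ 2) : Adm m n := by
  have hn'0 : 0 < n' := by
    rcases Nat.eq_zero_or_pos n' with h | h
    · subst h
      omega
    · exact h
  have h4n' : 4 ∣ n' := by
    rcases hc with h | h
    · exact dvd_trans (by norm_num) h.2
    · exact dvd_trans (by norm_num) h.2
  -- the residue
  let s : ℕ → ℕ := fun l => if l = 2 then 8 else l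
  let b : ℕ → ℕ := fun l => if l = 2 then 3 else if n' % l = 2 % l then 2 else 1
  have hs0 : ∀ l ∈ insert 2 m.primeFactors, s l ≠ 0 := by
    intro l hl
    simp only [s]
    split_ifs with h
    · norm_num
    · rw [Finset.mem_insert] at hl
      rcases hl with h' | h'
      · exact absurd h' h
      · exact (Nat.prime_of_mem_primeFactors h').pos.ne'
  have hprime : ∀ l ∈ insert 2 m.primeFactors, l.Prime := by
    intro l hl
    rw [Finset.mem_insert] at hl
    rcases hl with h' | h'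
    · rw [h']; exact Nat.prime_two
    · exact Nat.prime_of_mem_primeFactors h'
  have hpair : Set.Pairwise (↑(insert 2 m.primeFactors) : Set ℕ) (Function.onFun Nat.Coprime s) := by
    intro a ha b' hb hab
    have hpa := hprime a (Finset.mem_coe.1 ha)
    have hpb := hprime b' (Finset.mem_coe.1 hb)
    simp only [Function.onFun, s]
    have hcop := (Nat.coprime_primes hpa hpb).2 hab
    split_ifs with h h' h'
    · exact absurd (h.trans h'.symm) hab
    · subst h
      have := Nat.Coprime.pow_left 3 hcop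
      simpa using this
    · subst h'
      have := Nat.Coprime.pow_right 3 hcop
      simpa using this
    · exact hcop
  obtain ⟨a, ha⟩ := Nat.chineseRemainderOfFinset b s (insert 2 m.primeFactors) hs0 hpair
  have ha2 : a ≡ 3 [MOD 8] := by
    have := ha 2 (Finset.mem_insert_self _ _)
    simpa [s, b] using this
  have hal : ∀ l ∈ m.primeFactors, l ≠ 2 → a ≡ (if n' % l = 2 % l then 2 else 1) [MOD l] := by
    intro l hl hl2
    have := ha l (Finset.mem_insert_of_mem hl)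
    simpa [s, b, hl2] using this
  have haodd : a % 8 = 3 := ha2
  have hcop : a.Coprime (8 * m) := by
    apply Nat.Coprime.mul_right
    · have : a.Coprime 2 := by
        rw [Nat.coprime_comm, Nat.Prime.coprime_iff_not_dvd Nat.prime_two]
        omega
      have := Nat.Coprime.pow_right 3 this
      simpa using this
    · refine Nat.coprime_of_dvd fun l hl hla hlm => ?_
      by_cases hl2 : l = 2
      · subst hl2
        omega
      · have h1 := hal l (Nat.mem_primeFactors.2 ⟨hl, hlm, hm.ne'⟩) hl2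
        have h2 := (h1.dvd_iff (dvd_refl l)).1 hla
        split_ifs at h2 with h
        · exact hl2 ((Nat.prime_dvd_prime_iff_eq hl Nat.prime_two).1 h2)
        · exact hl.one_lt.ne' (Nat.dvd_one.1 h2)
  obtain ⟨q, _, hq, hqa⟩ := Nat.forall_exists_prime_gt_and_modEq 2 (by positivity : 8 * m ≠ 0) hcop
  have hq8 : q % 8 = 3 := by
    have h1 : q ≡ a [MOD 8] := hqa.of_dvd ⟨m, rfl⟩
    have h2 : q % 8 = a % 8 := h1
    omega
  have hql : ∀ l, l.Prime → l ∣ m → l ≠ 2 → q ≡ (if n' % l = 2 % l then 2 else 1) [MOD l] := by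
    intro l hl hlm hl2
    have h1 : q ≡ a [MOD l] := hqa.of_dvd (hlm.mul_left 8)
    exact h1.trans (hal l (Nat.mem_primeFactors.2 ⟨hl, hlm, hm.ne'⟩) hl2)
  obtain ⟨r', hr'⟩ : ∃ r', q + 1 = 4 * r' := ⟨(q + 1) / 4, by omega⟩
  have hr'odd : r' % 2 = 1 := by omega
  have hr'2 : r'.Coprime 2 := by
    rw [Nat.coprime_comm, Nat.Prime.coprime_iff_not_dvd Nat.prime_two]
    omega
  have hr'm : r'.Coprime m := by
    refine Nat.coprime_of_dvd fun l hl hla hlm => ?_
    by_cases hl2 : l = 2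
    · subst hl2
      omega
    · have h1 := (hql l hl hlm hl2).add_right 1
      have h2 : l ∣ q + 1 := by
        rw [hr']
        exact hla.mul_left 4
      have h3 := (h1.dvd_iff (dvd_refl l)).1 h2
      split_ifs at h3 with h
      · have h4 : l = 3 := (Nat.prime_dvd_prime_iff_eq hl Nat.prime_three).1 h3
        subst h4
        exact absurd h (by omega)
      · exact hl2 ((Nat.prime_dvd_prime_iff_eq hl Nat.prime_two).1 h3)
  have hr'Q : r'.Coprime (8 * m * 2 ^ m) := by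
    refine Nat.Coprime.mul_right (Nat.Coprime.mul_right ?_ hr'm) (Nat.Coprime.pow_right m hr'2)
    have := Nat.Coprime.pow_right 3 hr'2
    simpa using this
  have hQ1 : 1 < 8 * m * 2 ^ m := by
    have : 1 ≤ 2 ^ m := Nat.one_le_two_pow
    nlinarith
  obtain ⟨y, hy⟩ := Nat.exists_mul_mod_eq_one_of_coprime hr'Q hQ1
  have hy' : r' * y ≡ 1 [MOD 8 * m * 2 ^ m] := by
    show r' * y % _ = 1 % _
    rw [hy.2, Nat.mod_eq_of_lt hQ1]
  set Q := 8 * m * 2 ^ m with hQdef
  set x := y * (n' / 4) + Q with hx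
  have hrx : r' * x ≡ n' / 4 [MOD Q] := by
    have h1 : r' * x = r' * y * (n' / 4) + r' * Q := by
      rw [hx]
      ring
    rw [h1]
    have h2 : r' * y * (n' / 4) ≡ 1 * (n' / 4) [MOD Q] := hy'.mul_right _
    have h3 : r' * Q ≡ 0 [MOD Q] := (Nat.modEq_zero_iff_dvd).2 (Dvd.intro_left _ rfl)
    have := h2.add h3
    rwa [one_mul, add_zero] at this
  have h8Q : 8 ∣ Q := ⟨m * 2 ^ m, by rw [hQdef]; ring⟩
  have hmQ : m ∣ Q := ⟨8 * 2 ^ m, by rw [hQdef]; ring⟩
  have h4n : 4 * (n' / 4) = n' := Nat.mul_div_cancel' h4n'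
  have hx1 : 1 ≤ x := by
    rw [hx]
    omega
  have hx2 : 2 ∣ x := by
    have h1 : r' * x ≡ n' / 4 [MOD 2] := hrx.of_dvd (dvd_trans (by norm_num) h8Q)
    have h2 : 2 ∣ n' / 4 := by
      rcases hc with h | h <;> omega
    have h3 := (h1.dvd_iff (dvd_refl 2)).2 h2
    exact (hr'2.symm).dvd_of_dvd_mul_left h3
  have hr : HasHad (q + 1) := by
    have : Fact q.Prime := ⟨hq⟩
    obtain ⟨H, hH, hHH, _⟩ := paley_one (p := q) (by omega)
    exact hasHad_of_type (by rw [Fintype.card_option, ZMod.card]) H hH hHH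
  refine ⟨hcn ▸ h4n'.mul_left c, q + 1, c, x, hr, Nat.succ_pos _, hx1, ?_, ?_, ?_⟩
  · rcases hc with ⟨h1, h2⟩ | ⟨h1, h2⟩
    · left
      refine ⟨h1, ?_⟩
      have h3 : r' * x ≡ n' / 4 [MOD 4] := hrx.of_dvd (dvd_trans (by norm_num) h8Q)
      have h4 : 4 ∣ n' / 4 := by omega
      have h5 := (h3.dvd_iff (dvd_refl 4)).2 h4
      have h6 : r'.Coprime 4 := by
        have := Nat.Coprime.pow_right 2 hr'2
        simpa using this
      exact (h6.symm).dvd_of_dvd_mul_left h5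
    · right
      exact ⟨h1, hx2⟩
  · refine Nat.coprime_of_dvd fun l hl hlx hlm => ?_
    by_cases hl2 : l = 2
    · subst hl2
      omega
    · have h1 : x ≡ 1 [MOD l] := by
        have := (Nat.modEq_iff_dvd' hx1).2 hlx
        exact this.symm
      have h2 : r' * x ≡ r' * 1 [MOD l] := h1.mul_left r'
      have h3 : r' * x ≡ n' / 4 [MOD l] := hrx.of_dvd (hlm.trans hmQ)
      have h4 : 4 * (r' * 1) ≡ 4 * (n' / 4) [MOD l] := (h2.symm.trans h3).mul_left 4
      rw [h4n, mul_one, ← hr'] at h4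
      have h5 := (hql l hl hlm hl2).add_right 1
      have h6 := h5.symm.trans h4
      split_ifs at h6 with h
      · have h7 : 2 + 1 ≡ 2 [MOD l] := h6.trans h
        have h8 : l ∣ 1 := by
          have := (Nat.modEq_iff_dvd' (by norm_num : 2 ≤ 2 + 1)).1 h7.symm
          simpa using this
        exact hl.one_lt.ne' (Nat.dvd_one.1 h8)
      · exact h h6.symm
  · have h1 : (q + 1) * (c * x) = 4 * c * (r' * x) := by
      rw [hr']
      ring
    have h2 : 4 * c * (n' / 4) = n := by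
      rw [← hcn, mul_comm 4 c, mul_assoc, h4n]
    rw [h1]
    have h3 := hrx.mul_left (4 * c)
    rw [h2] at h3
    exact h3

theorem adm_sixteen (m n : ℕ) (hm : 0 < m) (hn : 0 < n) (h16 : 16 ∣ n) : Adm m n := by
  by_cases h3 : n % 3 = 2
  · refine adm_sixteen_aux m n 2 (n / 2) hm hn (by omega) (Or.inr ⟨rfl, by omega⟩) (by omega)
  · exact adm_sixteen_aux m n 1 n hm hn (one_mul n) (Or.inl ⟨rfl, h16⟩) h3

theorem modular_main (m : ℕ) (hm : 0 < m) : ∃ N, ∀ n, N ≤ n → 4 ∣ n →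
    (16 ∣ n ∨ ∃ j : ℕ, 2 ^ (j + 1) ∣ n ∧ (n / 2 ^ j - 1).Coprime m) → ModHad m n := by
  obtain ⟨N, hN⟩ := mod_of_adm m hm
  refine ⟨max N 1, fun n hn h4 h => ?_⟩
  have hn1 : 0 < n := lt_of_lt_of_le (by norm_num) ((le_max_right N 1).trans hn)
  have hnN : N ≤ n := (le_max_left N 1).trans hn
  refine hN n hnN ?_
  rcases h with h | ⟨j, hj, hc⟩
  · exact adm_sixteen m n hm hn1 h
  · exact adm_two m n j hn1 h4 hj hc

/-- with at most one odd prime factor in the modulus, all large orders divisible by four occur -/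
theorem modular_prime_power (l a b : ℕ) (hl : l.Prime) : ∃ N, ∀ n, N ≤ n → 4 ∣ n →
    ModHad (2 ^ a * l ^ b) n := by
  have hm : 0 < 2 ^ a * l ^ b := by
    have := hl.pos
    positivity
  obtain ⟨N, hN⟩ := modular_main (2 ^ a * l ^ b) hm
  refine ⟨max N 4, fun n hn h4 => ?_⟩
  have hn4 : 4 ≤ n := (le_max_right N 4).trans hn
  refine hN n ((le_max_left N 4).trans hn) h4 ?_
  right
  have hodd1 : (n - 1).Coprime 2 := by
    rw [Nat.coprime_comm, Nat.Prime.coprime_iff_not_dvd Nat.prime_two]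
    omega
  have hodd2 : (n / 2 - 1).Coprime 2 := by
    rw [Nat.coprime_comm, Nat.Prime.coprime_iff_not_dvd Nat.prime_two]
    omega
  by_cases hln : l ∣ n - 1
  · refine ⟨1, by rw [show 2 ^ (1 + 1) = 4 by norm_num]; exact h4, ?_⟩
    rw [pow_one]
    refine Nat.Coprime.mul_right (Nat.Coprime.pow_right a hodd2) (Nat.Coprime.pow_right b ?_)
    rw [Nat.coprime_comm, Nat.Prime.coprime_iff_not_dvd hl]
    intro h
    have h1 : l ∣ 2 * (n / 2 - 1) + 1 := by
      have : 2 * (n / 2 - 1) + 1 = n - 1 := by omega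
      rw [this]
      exact hln
    have h2 : l ∣ 1 := (Nat.dvd_add_right (h.mul_left 2)).1 h1
    exact hl.one_lt.ne' (Nat.dvd_one.1 h2)
  · refine ⟨0, by rw [show 2 ^ (0 + 1) = 2 by norm_num]; exact dvd_trans (by norm_num) h4, ?_⟩
    rw [pow_zero, Nat.div_one]
    refine Nat.Coprime.mul_right (Nat.Coprime.pow_right a hodd1) (Nat.Coprime.pow_right b ?_)
    rw [Nat.coprime_comm, Nat.Prime.coprime_iff_not_dvd hl]
    exact hln

/-- the combined statement -/
theorem modular_all (m : ℕ) (hm : 0 < m) : ∃ N, ∀ n, N ≤ n → 4 ∣ n →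
    ((∃ l a b : ℕ, l.Prime ∧ m = 2 ^ a * l ^ b) ∨ 16 ∣ n ∨
      ∃ j : ℕ, 2 ^ (j + 1) ∣ n ∧ (n / 2 ^ j - 1).Coprime m) → ModHad m n := by
  obtain ⟨N, hN⟩ := modular_main m hm
  by_cases h : ∃ l a b : ℕ, l.Prime ∧ m = 2 ^ a * l ^ b
  · obtain ⟨l, a, b, hl, rfl⟩ := h
    obtain ⟨N', hN'⟩ := modular_prime_power l a b hl
    exact ⟨N', fun n hn h4 _ => hN' n hn h4⟩
  · refine ⟨N, fun n hn h4 hh => hN n hn h4 ?_⟩
    rcases hh with h' | h'
    · exact absurd h' h
    · exact h'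

end Pool.Agent.H114R2
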