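import Pool.Agent.H114R2.Base

/-! Modular Hadamard matrices of all large orders: all moduli not divisible by eight, and all
orders divisible by eight. -/

namespace Pool.Agent.H114R2

open Finset Matrix

theorem odd_cop_two {a : ℕ} (h : a % 2 = 1) : a.Coprime 2 := by
  rw [Nat.coprime_comm, Nat.Prime.coprime_iff_not_dvd Nat.prime_two]
  omega

/-- every modulus, all large orders divisible by eight -/
theorem mod_eight (m : ℕ) (hm : 0 < m) : ∃ N, ∀ n, N ≤ n → 8 ∣ n → ModHad m n := by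
  have hQ : 0 < 8 * m * 2 ^ m := by positivity
  refine finite_classes hQ ?_
  intro a ha8
  obtain ⟨R, r', hR, hR4, hcop, hr'0, hRl⟩ := good_order m hm a
  set Q := 8 * m * 2 ^ m with hQdef
  have h8Q : 8 ∣ Q := ⟨m * 2 ^ m, by rw [hQdef]; ring⟩
  have hmQ : m ∣ Q := ⟨8 * 2 ^ m, by rw [hQdef]; ring⟩
  have hr'2 : r'.Coprime 2 := Nat.Coprime.coprime_mul_right_right hcop
  have hr'm : r'.Coprime m := Nat.Coprime.coprime_mul_left_right hcop
  have hr'Q : r'.Coprime Q := by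
    refine Nat.Coprime.mul_right (Nat.Coprime.mul_right ?_ hr'm) (Nat.Coprime.pow_right m hr'2)
    have := Nat.Coprime.pow_right 3 hr'2
    simpa using this
  obtain ⟨x0, hx0⟩ := solve_mod hr'Q (a / 4)
  set x := x0 + Q with hx
  have hrx : r' * x ≡ a / 4 [MOD Q] := by
    have h1 : r' * x = r' * x0 + r' * Q := by rw [hx]; ring
    rw [h1]
    have h3 : r' * Q ≡ 0 [MOD Q] := (Nat.modEq_zero_iff_dvd).2 (Dvd.intro_left _ rfl)
    have := hx0.add h3
    rwa [add_zero] at this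
  have hx1 : 1 ≤ x := by omega
  have hx2 : 2 ∣ x := by
    have h1 : r' * x ≡ a / 4 [MOD 2] := hrx.of_dvd (dvd_trans (by norm_num) h8Q)
    have h2 : 2 ∣ a / 4 := by omega
    have h3 := (h1.dvd_iff (dvd_refl 2)).2 h2
    exact (hr'2.symm).dvd_of_dvd_mul_left h3
  have h4a : 4 * (a / 4) = a := Nat.mul_div_cancel' (dvd_trans (by norm_num) ha8)
  have hRx : R * x ≡ a [MOD Q] := by
    have := hrx.mul_left 4
    rw [h4a, ← mul_assoc, ← hR4] at this
    exact this
  have hcopQ : (x - 1).Coprime Q := by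
    have hodd : (x - 1).Coprime 2 := odd_cop_two (by omega)
    have h8 : (x - 1).Coprime 8 := by
      have := Nat.Coprime.pow_right 3 hodd
      simpa using this
    have hmm : (x - 1).Coprime m := by
      refine Nat.coprime_of_dvd fun l hl hlx hlm => ?_
      by_cases hl2 : l = 2
      · subst hl2
        omega
      · have h1 : x ≡ 1 [MOD l] := by
          have := (Nat.modEq_iff_dvd' hx1).2 hlx
          exact this.symm
        have h2 := h1.mul_left R
        rw [mul_one] at h2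
        exact hRl l hl hlm hl2 (h2.symm.trans (hRx.of_dvd (hlm.trans hmQ)))
    exact (h8.mul_right hmm).mul_right (Nat.Coprime.pow_right m hodd)
  set k := (a / 4) % m with hk
  have hkm : k < m := Nat.mod_lt _ hm
  have hR2 : R = 2 * (2 * r') := by omega
  rw [hR2] at hR
  obtain ⟨P, hP⟩ := mod_even m k (2 * r') hm (by omega) hR
  obtain ⟨p, hpgt, hp, hpx⟩ := Nat.forall_exists_prime_gt_and_modEq (max P 2) hQ.ne' hcopQ
  have hp1 : P ≤ p := by
    have := le_max_left P 2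
    omega
  have hpne : p ≠ 2 := by
    have := le_max_right P 2
    omega
  have hp1x : p + 1 ≡ x [MOD Q] := by
    have := Nat.ModEq.add_right 1 hpx
    rwa [Nat.sub_add_cancel hx1] at this
  refine ⟨R * (p + 1), fun n hn hna => ?_⟩
  have hcn : R * (p + 1) ≡ n [MOD Q] := ((hp1x.mul_left R).trans hRx).trans hna.symm
  obtain ⟨j, hj⟩ := (Nat.modEq_iff_dvd' hn).1 hcn
  have hn2 : n = R * (p + 1) + Q * j := by omega
  have hsplit : Q * j = 2 ^ k * (m * (8 * 2 ^ (m - k) * j)) := by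
    have : 2 ^ m = 2 ^ k * 2 ^ (m - k) := by
      rw [← pow_add]
      congr 1
      omega
    rw [hQdef, this]
    ring
  have hk4 : 4 * k ≡ R * (p + 1) [MOD m] := by
    have h1 : 4 * k ≡ 4 * (a / 4) [MOD m] := (Nat.mod_modEq _ _).mul_left 4
    rw [h4a] at h1
    have h2 : a ≡ n [MOD m] := (hna.symm).of_dvd hmQ
    exact h1.trans (h2.trans (hcn.symm.of_dvd hmQ))
  rw [hn2, hsplit, hR2]
  rw [hR2] at hk4
  exact hP p hp hp1 hpne _ (Dvd.intro _ rfl) hk4

theorem four_cop {m : ℕ} (h : m % 2 = 1) : m.Coprime 4 := by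
  have := Nat.Coprime.pow_right 2 (odd_cop_two h)
  simpa using this

theorem not_two_of_dvd_odd {m l : ℕ} (h : m % 2 = 1) (hl : l ∣ m) : l ≠ 2 := by
  rintro rfl
  omega

/-- weighing matrices of order `4 s'` (`s'` odd) with weight in a given residue class -/
theorem weights (m : ℕ) (hm : m % 2 = 1) (κ : ℕ) : ∃ s k, s % 2 = 1 ∧ HasW (4 * s) k ∧ 4 ∣ k ∧
    k ≡ κ [MOD m] ∧ k < 4 * s := by
  have hm0 : 0 < m := by omega
  obtain ⟨c0, t, hc0, h3⟩ : ∃ c0 t : ℕ, (c0 = 1 ∧ t = 3 ∨ c0 = 2 ∧ t = 5) ∧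
      ¬ κ ≡ c0 [MOD 3] := by
    by_cases h : κ % 3 = 1
    · refine ⟨2, 5, Or.inr ⟨rfl, rfl⟩, ?_⟩
      intro h'
      have : κ % 3 = 2 % 3 := h'
      omega
    · refine ⟨1, 3, Or.inl ⟨rfl, rfl⟩, ?_⟩
      intro h'
      have : κ % 3 = 1 % 3 := h'
      omega
  have hnd : ∀ l, l.Prime → l ≠ 2 → ¬ l ∣ 2 := by
    intro l hl hl2 h
    exact hl2 ((Nat.prime_dvd_prime_iff_eq hl Nat.prime_two).1 h)
  have hndc : ∀ l, l.Prime → l ≠ 2 → ¬ l ∣ c0 := by
    intro l hl hl2 h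
    rcases hc0 with ⟨h', _⟩ | ⟨h', _⟩
    · rw [h'] at h
      exact hl.one_lt.ne' (Nat.dvd_one.1 h)
    · rw [h'] at h
      exact hnd l hl hl2 h
  classical
  let b : ℕ → ℕ := fun l => if κ ≡ c0 [MOD l] then 2 else 1
  have hb : ∀ l, l.Prime → l ≠ 2 → ¬ l ∣ b l := by
    intro l hl hl2 h
    simp only [b] at h
    split_ifs at h with h'
    · exact hnd l hl hl2 h
    · exact hl.one_lt.ne' (Nat.dvd_one.1 h)
  obtain ⟨r, hr2, hr, _, hrl⟩ := crt_prime m hm0 1 rfl b (fun l hl _ hl2 => hb l hl hl2) 2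
  have hrm : r.Coprime m := by
    refine Nat.coprime_of_dvd fun l hl hla hlm => ?_
    have hl2 := not_two_of_dvd_odd hm hlm
    exact hb l hl hl2 (((hrl l hl hlm hl2).dvd_iff (dvd_refl l)).1 hla)
  have hcm : c0.Coprime m := by
    refine Nat.coprime_of_dvd fun l hl hla hlm => ?_
    exact hndc l hl (not_two_of_dvd_odd hm hlm) hla
  have hne : ∀ l, l.Prime → l ∣ m → ¬ c0 * r ^ 2 ≡ κ [MOD l] := by
    intro l hl hlm h
    have hl2 := not_two_of_dvd_odd hm hlm
    have h1 := hrl l hl hlm hl2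
    have h2 : c0 * r ^ 2 ≡ c0 * (b l) ^ 2 [MOD l] := (h1.pow 2).mul_left c0
    have h4 := h2.symm.trans h
    simp only [b] at h4
    split_ifs at h4 with h'
    · have h5 := h4.trans h'
      have h6 : c0 * 2 ^ 2 = c0 + 3 * c0 := by ring
      rw [h6] at h5
      have h7 : l ∣ 3 * c0 := by
        have := (Nat.modEq_iff_dvd' (by omega : c0 ≤ c0 + 3 * c0)).1 h5.symm
        simpa using this
      rcases (Nat.Prime.dvd_mul hl).1 h7 with h8 | h8
      · have h9 : l = 3 := (Nat.prime_dvd_prime_iff_eq hl Nat.prime_three).1 h8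
        subst h9
        exact h3 h'
      · exact hndc l hl hl2 h8
    · apply h'
      have h6 : c0 * 1 ^ 2 = c0 := by ring
      rw [h6] at h4
      exact h4.symm
  obtain ⟨z0, hz0⟩ := solve_mod (hcm.mul_left (hrm.pow_left 2)) κ
  have hm8 : m.Coprime 8 := by
    have := Nat.Coprime.pow_right 3 (odd_cop_two hm)
    simpa using this
  obtain ⟨z1, hz1, hz1'⟩ := Nat.chineseRemainder hm8 z0 (t + 1)
  set z := z1 + 8 * m with hz
  have hzm : z ≡ z0 [MOD m] := by
    have h1 : 8 * m ≡ 0 [MOD m] := (Nat.modEq_zero_iff_dvd).2 (Dvd.intro_left _ rfl)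
    have := hz1.add h1
    rwa [add_zero] at this
  have hz8 : z ≡ t + 1 [MOD 8] := by
    have h1 : 8 * m ≡ 0 [MOD 8] := (Nat.modEq_zero_iff_dvd).2 (Dvd.intro _ rfl)
    have := hz1'.add h1
    rwa [add_zero] at this
  have hz8' : z % 8 = (t + 1) % 8 := hz8
  have hz1 : 1 ≤ z := by omega
  have hzc : c0 * r ^ 2 * z ≡ κ [MOD m] := (hzm.mul_left _).trans hz0
  have hcop : (z - 1).Coprime (8 * m) := by
    refine Nat.Coprime.mul_right ?_ ?_
    · have := Nat.Coprime.pow_right 3 (odd_cop_two (a := z - 1) (by omega))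
      simpa using this
    · refine Nat.coprime_of_dvd fun l hl hlx hlm => ?_
      have h1 : z ≡ 1 [MOD l] := by
        have := (Nat.modEq_iff_dvd' hz1).2 hlx
        exact this.symm
      have h2 := h1.mul_left (c0 * r ^ 2)
      rw [mul_one] at h2
      exact hne l hl hlm (h2.symm.trans (hzc.of_dvd hlm))
  obtain ⟨q, hq2, hq, hqz⟩ := Nat.forall_exists_prime_gt_and_modEq 2
    (by positivity : 8 * m ≠ 0) hcop
  have hq1z : q + 1 ≡ z [MOD 8 * m] := by
    have := Nat.ModEq.add_right 1 hqz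
    rwa [Nat.sub_add_cancel hz1] at this
  have hq8 : (q + 1) % 8 = (t + 1) % 8 := by
    have h1 : q + 1 ≡ z [MOD 8] := hq1z.of_dvd ⟨m, rfl⟩
    exact h1.trans hz8
  have : Fact q.Prime := ⟨hq⟩
  have : Fact r.Prime := ⟨hr⟩
  have hR : HasHad (c0 * (q + 1)) := by
    rcases hc0 with ⟨h1, h2⟩ | ⟨h1, h2⟩
    · obtain ⟨H, hH, hHH, _⟩ := paley_one (p := q) (by omega)
      rw [h1, one_mul]
      exact hasHad_of_type (by rw [Fintype.card_option, ZMod.card]) H hH hHH
    · obtain ⟨H, hH, hHH, _⟩ := paley_two (p := q) (by omega)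
      rw [h1]
      exact hasHad_of_type (by
        rw [Fintype.card_prod, Fintype.card_option, ZMod.card, Fintype.card_fin]
        ring) H hH hHH
  obtain ⟨r', hr', hr'odd⟩ : ∃ r', c0 * (q + 1) = 4 * r' ∧ r' % 2 = 1 := by
    rcases hc0 with ⟨h1, h2⟩ | ⟨h1, h2⟩
    · refine ⟨(q + 1) / 4, ?_, ?_⟩
      · rw [h1]
        omega
      · omega
    · refine ⟨(q + 1) / 2, ?_, ?_⟩
      · rw [h1]
        omega
      · omega
  have hW := hasW_kron (hasW_of_hasHad hR) (hasW_plane (p := r) (by omega))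
  refine ⟨r' * (r ^ 2 + r + 1), c0 * (q + 1) * r ^ 2, ?_, ?_, ?_, ?_, ?_⟩
  · have h1 : (r ^ 2 + r + 1) % 2 = 1 := by
      have h2 : 2 ∣ r * (r + 1) := (Nat.even_mul_succ_self r).two_dvd
      have h4 : r ^ 2 + r = r * (r + 1) := by ring
      omega
    rw [Nat.mul_mod, hr'odd, h1]
  · rw [← mul_assoc, ← hr']
    exact hW
  · rw [hr', mul_assoc]
    exact Dvd.intro _ rfl
  · have h1 : c0 * (q + 1) * r ^ 2 = c0 * r ^ 2 * (q + 1) := by ring
    rw [h1]
    have h2 : q + 1 ≡ z [MOD m] := hq1z.of_dvd (Dvd.intro_left _ rfl)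
    exact (h2.mul_left _).trans hzc
  · rw [← mul_assoc, ← hr']
    have h1 : 0 < c0 * (q + 1) := by
      rcases hc0 with ⟨h1, _⟩ | ⟨h1, _⟩ <;> rw [h1] <;> omega
    exact Nat.mul_lt_mul_of_pos_left (by omega) h1

/-- the orders `g 2 ^ c` used for the base -/
theorem base_order (M : ℕ) (hM : M % 2 = 1) (c n : ℕ) : ∃ g, HasHad g ∧ 0 < g ∧
    (g * 2 ^ c).Coprime M ∧ ∀ l, l.Prime → l ∣ M → ¬ g * 2 ^ c ≡ n [MOD l] := by
  have hM0 : 0 < M := by omega
  obtain ⟨i, h3⟩ : ∃ i : ℕ, ¬ n ≡ 2 * 2 ^ (c + i) [MOD 3] := by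
    by_contra hno
    push Not at hno
    have h0 := hno 0
    have h1 := hno 1
    have h2 := h0.symm.trans h1
    rw [add_zero, pow_succ] at h2
    have h4 : 2 * (2 ^ c * 2) = 2 * 2 ^ c + 2 * 2 ^ c := by ring
    rw [h4] at h2
    have h5 : 3 ∣ 2 * 2 ^ c := by
      have := (Nat.modEq_iff_dvd' (by omega : 2 * 2 ^ c ≤ 2 * 2 ^ c + 2 * 2 ^ c)).1 h2
      simpa using this
    rw [← pow_succ'] at h5
    have := Nat.prime_three.dvd_of_dvd_pow h5
    omega
  have hnd : ∀ l, l.Prime → l ≠ 2 → ∀ j, ¬ l ∣ 2 ^ j := by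
    intro l hl hl2 j h
    exact hl2 ((Nat.prime_dvd_prime_iff_eq hl Nat.prime_two).1 (hl.dvd_of_dvd_pow h))
  classical
  set e := c + i with he
  let b : ℕ → ℕ := fun l => if n ≡ 2 * 2 ^ e [MOD l] then 2 else 1
  obtain ⟨q, hq2, hq, hqt, hql⟩ := crt_prime M hM0 3 rfl b (by
    intro l hl _ hl2 h
    simp only [b] at h
    split_ifs at h with h'
    · exact hnd l hl hl2 1 (by rwa [pow_one])
    · exact hl.one_lt.ne' (Nat.dvd_one.1 h)) 2
  have : Fact q.Prime := ⟨hq⟩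
  have hqt' : q % 8 = 3 % 8 := hqt
  have hR : HasHad (q + 1) := by
    obtain ⟨H, hH, hHH, _⟩ := paley_one (p := q) (by omega)
    exact hasHad_of_type (by rw [Fintype.card_option, ZMod.card]) H hH hHH
  have hg : 2 ^ i * (q + 1) * 2 ^ c = 2 ^ e * (q + 1) := by
    rw [he, pow_add]
    ring
  have hRl : ∀ l, l.Prime → l ∣ M → 2 ^ e * (q + 1) ≡ 2 ^ e * (b l + 1) [MOD l] := by
    intro l hl hlm
    exact ((hql l hl hlm (not_two_of_dvd_odd hM hlm)).add_right 1).mul_left _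
  refine ⟨2 ^ i * (q + 1), hasHad_pow hR i, by positivity, ?_, ?_⟩
  · rw [hg]
    refine Nat.coprime_of_dvd fun l hl hla hlm => ?_
    have hl2 := not_two_of_dvd_odd hM hlm
    have h2 := ((hRl l hl hlm).dvd_iff (dvd_refl l)).1 hla
    rcases (Nat.Prime.dvd_mul hl).1 h2 with h4 | h4
    · exact hnd l hl hl2 e h4
    · simp only [b] at h4
      split_ifs at h4 with h'
      · have h5 : l = 3 := (Nat.prime_dvd_prime_iff_eq hl Nat.prime_three).1 h4
        subst h5
        exact h3 h'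
      · exact hnd l hl hl2 1 (by rwa [pow_one])
  · intro l hl hlm h
    rw [hg] at h
    have hl2 := not_two_of_dvd_odd hM hlm
    have h1 := (hRl l hl hlm).symm.trans h
    simp only [b] at h1
    split_ifs at h1 with h'
    · have h2 := h1.trans h'
      have h4 : 2 ^ e * (2 + 1) = 2 * 2 ^ e + 2 ^ e := by ring
      rw [h4] at h2
      have h5 : l ∣ 2 ^ e := by
        have := (Nat.modEq_iff_dvd' (by omega : 2 * 2 ^ e ≤ 2 * 2 ^ e + 2 ^ e)).1 h2.symm
        simpa using this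
      exact hnd l hl hl2 e h5
    · apply h'
      have h4 : 2 ^ e * (1 + 1) = 2 * 2 ^ e := by ring
      rw [h4] at h1
      exact h1.symm

/-- modulus `4 m`, `m` odd -/
theorem mod_four_all (m : ℕ) (hm : m % 2 = 1) : ∃ N, ∀ n, N ≤ n → 4 ∣ n → ModHad (4 * m) n := by
  have hm0 : 0 < m := by omega
  refine finite_classes (Q := 4 * m) (by omega) ?_
  intro a ha4
  obtain ⟨s, k, hs, hW, hk4, hka, hks⟩ := weights m hm (a / 4)
  obtain ⟨c, hc, hcodd⟩ : ∃ c, 4 * s = 2 * (c + 1) ∧ c % 2 = 1 := ⟨2 * s - 1, by omega, by omega⟩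
  rw [hc] at hW hks
  have hM : (m * s) % 2 = 1 := by
    rw [Nat.mul_mod, hm, hs]
  have hM0 : 0 < m * s := by omega
  have key : ∃ N, ∀ n, N ≤ n → (4 ∣ n ∧ n ≡ a [MOD 4 * m]) → ModHad (4 * m) n := by
    refine finite_classes (Q := 4 * (m * s)) (by omega) ?_
    rintro a' ⟨ha'4, ha'a⟩
    obtain ⟨g, hg, hg0, hcop, hgl⟩ := base_order (m * s) hM c a'
    obtain ⟨x0, hx0⟩ := solve_mod hcop a'
    obtain ⟨x1, hx1, hx1'⟩ := Nat.chineseRemainder (four_cop hM) x0 0
    set x := x1 + 4 * (m * s) with hx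
    have hxM : x ≡ x0 [MOD m * s] := by
      have h1 : 4 * (m * s) ≡ 0 [MOD m * s] := (Nat.modEq_zero_iff_dvd).2 (Dvd.intro_left _ rfl)
      have := hx1.add h1
      rwa [add_zero] at this
    have hx4 : x % 4 = 0 := by
      have h1 : 4 * (m * s) ≡ 0 [MOD 4] := (Nat.modEq_zero_iff_dvd).2 (Dvd.intro _ rfl)
      have := hx1'.add h1
      rw [add_zero] at this
      exact this
    have hx1 : 1 ≤ x := by omega
    have hgx : g * 2 ^ c * x ≡ a' [MOD m * s] := (hxM.mul_left _).trans hx0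
    have hcopx : (x - 1).Coprime (4 * (m * s)) := by
      refine Nat.Coprime.mul_right (four_cop (by omega)) ?_
      refine Nat.coprime_of_dvd fun l hl hlx hlm => ?_
      have h1 : x ≡ 1 [MOD l] := by
        have := (Nat.modEq_iff_dvd' hx1).2 hlx
        exact this.symm
      have h2 := h1.mul_left (g * 2 ^ c)
      rw [mul_one] at h2
      exact hgl l hl hlm (h2.symm.trans (hgx.of_dvd hlm))
    obtain ⟨P, hP⟩ := large_enough (2 * (2 * (c + 1)))
    obtain ⟨p, hpP, hp, hpx⟩ := Nat.forall_exists_prime_gt_and_modEq P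
      (by omega : 4 * (m * s) ≠ 0) hcopx
    have hp1x : p + 1 ≡ x [MOD 4 * (m * s)] := by
      have := Nat.ModEq.add_right 1 hpx
      rwa [Nat.sub_add_cancel hx1] at this
    have hp3 : p % 4 = 3 := by
      have h1 : p + 1 ≡ x [MOD 4] := hp1x.of_dvd ⟨m * s, rfl⟩
      have h2 : (p + 1) % 4 = x % 4 := h1
      omega
    have : Fact p.Prime := ⟨hp⟩
    obtain ⟨hbig, hle⟩ := hP p hpP.le
    have hn0M : (p + 1) * g * 2 ^ c ≡ a' [MOD m * s] := by
      have h1 : (p + 1) * g * 2 ^ c = g * 2 ^ c * (p + 1) := by ring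
      rw [h1]
      exact ((hp1x.of_dvd (Dvd.intro_left _ rfl)).mul_left _).trans hgx
    have hn04 : (p + 1) * g * 2 ^ c ≡ a' [MOD 4] := by
      have h1 : 4 ∣ (p + 1) * g * 2 ^ c := by
        have : 4 ∣ p + 1 := by omega
        exact (this.mul_right g).mul_right _
      exact ((Nat.modEq_zero_iff_dvd).2 h1).trans ((Nat.modEq_zero_iff_dvd).2 ha'4).symm
    have hn0 : (p + 1) * g * 2 ^ c ≡ a' [MOD 4 * (m * s)] :=
      (Nat.modEq_and_modEq_iff_modEq_mul (four_cop hM).symm).1 ⟨hn04, hn0M⟩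
    refine ⟨(p + 1) * g * 2 ^ c, fun n hn hna => ?_⟩
    obtain ⟨j, hj⟩ := (Nat.modEq_iff_dvd' hn).1 (hn0.trans hna.symm)
    have hn2 : n = (p + 1) * g * 2 ^ c + 2 * (c + 1) * (m * j) := by
      have h1 : 2 * (c + 1) * (m * j) = 4 * (m * s) * j := by
        rw [← hc]
        ring
      omega
    rw [hn2]
    refine mod_four_of_core (p := p) hp3 m k g c (m * j) hm0 (four_cop hm) (Dvd.intro _ rfl)
      hcodd hg hg0 hW (dvd_trans (by norm_num) hk4) hks ?_ hbig hle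
    have h1 : 4 * k ≡ 4 * (a / 4) [MOD m] := hka.mul_left 4
    rw [Nat.mul_div_cancel' ha4] at h1
    have h2 : a' ≡ a [MOD m] := ha'a.of_dvd (Dvd.intro_left _ rfl)
    exact h1.trans (h2.symm.trans (hn0M.of_dvd (Dvd.intro _ rfl)).symm)
  obtain ⟨N, hN⟩ := key
  exact ⟨N + a, fun n hn hna => by
    refine hN n (by omega) ⟨?_, hna⟩
    have h1 : n ≡ a [MOD 4] := hna.of_dvd (Dvd.intro _ rfl)
    exact (h1.dvd_iff (dvd_refl 4)).2 ha4⟩

theorem modHad_mono {m m' n : ℕ} (h : m ∣ m') (hM : ModHad m' n) : ModHad m n := by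
  obtain ⟨H, hH, hHH⟩ := hM
  refine ⟨H, hH, fun i j hij => dvd_trans ?_ (hHH i j hij)⟩
  exact_mod_cast h

/-- the combined statement -/
theorem modular_all_two (m : ℕ) (hm : 0 < m) : ∃ N, ∀ n, N ≤ n → 4 ∣ n →
    (¬ 8 ∣ m ∨ 8 ∣ n ∨ (∃ l a b : ℕ, l.Prime ∧ m = 2 ^ a * l ^ b) ∨
      (n - 1).Coprime m ∨ (n / 2 - 1).Coprime m) → ModHad m n := by
  obtain ⟨N1, hN1⟩ := modular_all m hm
  obtain ⟨N2, hN2⟩ := mod_eight m hm
  obtain ⟨i, m', hm', hmm'⟩ := Nat.exists_eq_two_pow_mul_odd hm.ne'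
  obtain ⟨N3, hN3⟩ := mod_four_all m' (Nat.odd_iff.1 hm')
  refine ⟨max N1 (max N2 N3), fun n hn h4 h => ?_⟩
  have h1 : N1 ≤ n := (le_max_left _ _).trans hn
  have h2 : N2 ≤ n := ((le_max_left _ _).trans (le_max_right _ _)).trans hn
  have h3 : N3 ≤ n := ((le_max_right _ _).trans (le_max_right _ _)).trans hn
  rcases h with h | h | h | h | h
  · refine modHad_mono ?_ (hN3 n h3 h4)
    rw [hmm']
    refine Nat.mul_dvd_mul_right ?_ m'
    have hi : i ≤ 2 := by
      by_contra hi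
      push Not at hi
      apply h
      rw [hmm']
      refine Dvd.dvd.mul_right ?_ m'
      have : (8 : ℕ) = 2 ^ 3 := by norm_num
      rw [this]
      exact pow_dvd_pow 2 hi
    have : (4 : ℕ) = 2 ^ 2 := by norm_num
    rw [this]
    exact pow_dvd_pow 2 hi
  · exact hN2 n h2 h
  · exact hN1 n h1 h4 (Or.inl h)
  · refine hN1 n h1 h4 (Or.inr (Or.inr ⟨0, ?_, ?_⟩))
    · rw [zero_add, pow_one]
      exact dvd_trans (by norm_num) h4
    · rwa [pow_zero, Nat.div_one]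
  · refine hN1 n h1 h4 (Or.inr (Or.inr ⟨1, ?_, ?_⟩))
    · exact h4
    · rwa [pow_one]

end Pool.Agent.H114R2
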