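import Pool.Agent.H114R2.Had

/-! Paley conference matrices and Paley-type Hadamard matrices over prime fields. -/

namespace Pool.Agent.H114R2

open Finset Matrix

section
variable (p : ℕ) [Fact p.Prime]

/-- the quadratic character mod `p` -/
noncomputable def qc (x : ZMod p) : ℤ := quadraticChar (ZMod p) x

variable {p}

theorem ringChar_ne (hp : p ≠ 2) : ringChar (ZMod p) ≠ 2 := by
  rw [ZMod.ringChar_zmod_n]
  exact hp

theorem qc_zero : qc p 0 = 0 := by
  unfold qc
  simp

theorem qc_sign {x : ZMod p} (hx : x ≠ 0) : qc p x = 1 ∨ qc p x = -1 :=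
  quadraticChar_dichotomy hx

theorem qc_mul (x y : ZMod p) : qc p (x * y) = qc p x * qc p y := by
  unfold qc
  exact map_mul _ _ _

theorem qc_one : qc p 1 = 1 := by
  unfold qc
  exact map_one _

theorem qc_sq {x : ZMod p} (hx : x ≠ 0) : qc p x * qc p x = 1 := by
  rcases qc_sign hx with h | h <;> rw [h] <;> norm_num

theorem sum_qc (hp : p ≠ 2) : ∑ x : ZMod p, qc p x = 0 :=
  quadraticChar_sum_zero (ringChar_ne hp)

theorem sum_qc_sub (hp : p ≠ 2) (a : ZMod p) : ∑ y : ZMod p, qc p (a - y) = 0 := by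
  rw [← sum_qc hp]
  exact Fintype.sum_equiv (Equiv.subLeft a) _ _ (fun y => rfl)

theorem jac (hp : p ≠ 2) : ∑ x : ZMod p, qc p x * qc p (1 - x) = - qc p (-1) := by
  have h := jacobiSum_nontrivial_inv (quadraticChar_ne_one (F := ZMod p) (ringChar_ne hp))
  have h2 : (quadraticChar (ZMod p))⁻¹ = quadraticChar (ZMod p) :=
    (quadraticChar_isQuadratic (F := ZMod p)).inv
  rw [h2] at h
  exact h

theorem sum_qc_mul (hp : p ≠ 2) (a b : ZMod p) (hab : a ≠ b) :
    ∑ y : ZMod p, qc p (a - y) * qc p (b - y) = -1 := by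
  have hc : a - b ≠ 0 := sub_ne_zero.2 hab
  have h1 : ∑ y : ZMod p, qc p (a - y) * qc p (b - y) =
      ∑ u : ZMod p, qc p (-1) * (qc p u * qc p (1 - u)) := by
    -- y = a - (a - b) * u
    let e : ZMod p ≃ ZMod p := (Equiv.mulLeft₀ (a - b) hc).trans (Equiv.subLeft a)
    rw [← Equiv.sum_comp e]
    refine Finset.sum_congr rfl fun u _ => ?_
    have h2 : a - e u = (a - b) * u := by
      simp [e]
    have h3 : b - e u = (a - b) * (-1 * (1 - u)) := by
      simp only [e, Equiv.trans_apply, Equiv.subLeft_apply]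
      have : (Equiv.mulLeft₀ (a - b) hc) u = (a - b) * u := rfl
      rw [this]
      ring
    rw [h2, h3, qc_mul, qc_mul, qc_mul]
    linear_combination qc p u * qc p (-1) * qc p (1 - u) * qc_sq hc
  rw [h1, ← Finset.mul_sum, jac hp]
  have hm : (-1 : ZMod p) ≠ 0 := by
    rw [neg_ne_zero]
    exact one_ne_zero
  linear_combination - qc_sq hm

/-- the Paley conference matrix -/
noncomputable def pal (p : ℕ) [Fact p.Prime] : Matrix (Option (ZMod p)) (Option (ZMod p)) ℤ
  | none, none => 0
  | none, some _ => 1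
  | some _, none => qc p (-1)
  | some x, some y => qc p (x - y)

theorem pal_zero_or (a b : Option (ZMod p)) (hab : a ≠ b) : pal p a b = 1 ∨ pal p a b = -1 := by
  rcases a with _ | a <;> rcases b with _ | b
  · exact absurd rfl hab
  · exact Or.inl rfl
  · have hm : (-1 : ZMod p) ≠ 0 := by
      rw [neg_ne_zero]
      exact one_ne_zero
    exact qc_sign hm
  · exact qc_sign (sub_ne_zero.2 fun h => hab (by rw [h]))

theorem pal_diag (a : Option (ZMod p)) : pal p a a = 0 := by
  rcases a with _ | a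
  · rfl
  · show qc p (a - a) = 0
    rw [sub_self, qc_zero]

theorem pal_tr : (pal p)ᵀ = qc p (-1) • pal p := by
  have hm : (-1 : ZMod p) ≠ 0 := by
    rw [neg_ne_zero]
    exact one_ne_zero
  ext a b
  rw [Matrix.transpose_apply, Matrix.smul_apply, smul_eq_mul]
  rcases a with _ | a <;> rcases b with _ | b
  · show (0 : ℤ) = _ * 0
    rw [mul_zero]
  · show qc p (-1) = qc p (-1) * 1
    rw [mul_one]
  · show (1 : ℤ) = qc p (-1) * qc p (-1)
    rw [qc_sq hm]
  · show qc p (b - a) = qc p (-1) * qc p (a - b)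
    rw [← qc_mul]
    congr 1
    ring

theorem pal_mul (hp : p ≠ 2) : pal p * (pal p)ᵀ = (p : ℤ) • 1 := by
  have hm : (-1 : ZMod p) ≠ 0 := by
    rw [neg_ne_zero]
    exact one_ne_zero
  ext a b
  rw [Matrix.mul_apply, Fintype.sum_option, Matrix.smul_apply, Matrix.one_apply]
  simp only [Matrix.transpose_apply]
  rcases a with _ | a <;> rcases b with _ | b
  · show (0 : ℤ) * 0 + ∑ i : ZMod p, (1 : ℤ) * 1 = _
    simp [ZMod.card]
  · show (0 : ℤ) * qc p (-1) + ∑ i : ZMod p, (1 : ℤ) * qc p (b - i) = _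
    simp only [one_mul]
    rw [sum_qc_sub hp]
    simp
  · show qc p (-1) * 0 + ∑ i : ZMod p, qc p (a - i) * 1 = _
    simp only [mul_one]
    rw [sum_qc_sub hp]
    simp
  · show qc p (-1) * qc p (-1) + ∑ i : ZMod p, qc p (a - i) * qc p (b - i) = _
    rw [qc_sq hm]
    by_cases hab : a = b
    · subst hab
      have : ∑ i : ZMod p, qc p (a - i) * qc p (a - i) = (p : ℤ) - 1 := by
        have h1 : ∀ i : ZMod p, qc p (a - i) * qc p (a - i) = 1 - if i = a then 1 else 0 := by
          intro i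
          by_cases hi : i = a
          · rw [hi, sub_self, qc_zero, if_pos rfl]
            ring
          · rw [qc_sq (sub_ne_zero.2 (fun h => hi h.symm)), if_neg hi]
            ring
        simp_rw [h1]
        rw [Finset.sum_sub_distrib]
        simp [ZMod.card]
      rw [this]
      simp
    · rw [sum_qc_mul hp a b hab]
      have : (some a : Option (ZMod p)) ≠ some b := fun h => hab (Option.some_injective _ h)
      simp [this]

theorem qc_neg_one_three (h : p % 4 = 3) : qc p (-1) = -1 := by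
  have hp : p ≠ 2 := by omega
  unfold qc
  rw [quadraticChar_neg_one (ringChar_ne hp), ZMod.card]
  exact ZMod.χ₄_nat_three_mod_four h

theorem qc_neg_one_one (h : p % 4 = 1) : qc p (-1) = 1 := by
  have hp : p ≠ 2 := by omega
  unfold qc
  rw [quadraticChar_neg_one (ringChar_ne hp), ZMod.card]
  exact ZMod.χ₄_nat_one_mod_four h

/-- Paley I -/
theorem paley_one (h : p % 4 = 3) : ∃ H : Matrix (Option (ZMod p)) (Option (ZMod p)) ℤ,
    (∀ i j, H i j = 1 ∨ H i j = -1) ∧ H * Hᵀ = ((p + 1 : ℕ) : ℤ) • 1 ∧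
    ∀ x y : ZMod p, x ≠ y → H (some x) (some y) = qc p (x - y) := by
  have hp : p ≠ 2 := by omega
  have ht : (pal p)ᵀ = - pal p := by
    rw [pal_tr, qc_neg_one_three h]
    simp
  have hm := pal_mul (p := p) hp
  refine ⟨pal p + 1, ?_, ?_, ?_⟩
  · intro i j
    rw [Matrix.add_apply, Matrix.one_apply]
    by_cases hij : i = j
    · subst hij
      rw [pal_diag]
      simp
    · rw [if_neg hij, add_zero]
      exact pal_zero_or i j hij
  · rw [Matrix.transpose_add, Matrix.transpose_one, Matrix.add_mul, Matrix.mul_add, Matrix.mul_add,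
      hm, ht]
    push_cast
    rw [add_smul, one_smul]
    simp
  · intro x y hxy
    rw [Matrix.add_apply, Matrix.one_apply, if_neg (fun h => hxy (Option.some_injective _ h)),
      add_zero]
    rfl

def g2 : Matrix (Fin 2) (Fin 2) ℤ := !![1, -1; -1, -1]

theorem g2_sign : ∀ i j, g2 i j = 1 ∨ g2 i j = -1 := by decide
theorem g2_mul : g2 * g2ᵀ = (2 : ℤ) • 1 := by decide
theorem h2g2 : h2 * g2ᵀ + g2 * h2ᵀ = 0 := by decide

/-- Paley II -/
theorem paley_two (hp : p ≠ 2) :
    ∃ H : Matrix (Option (ZMod p) × Fin 2) (Option (ZMod p) × Fin 2) ℤ,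
    (∀ i j, H i j = 1 ∨ H i j = -1) ∧ H * Hᵀ = ((2 * (p + 1) : ℕ) : ℤ) • 1 ∧
    ∀ x y : ZMod p, x ≠ y → H (some x, 0) (some y, 0) = qc p (x - y) := by
  have h13 : p % 4 = 1 ∨ p % 4 = 3 := by
    have := (Fact.out : p.Prime).eq_two_or_odd
    omega
  rcases h13 with h | h
  · have ht : (pal p)ᵀ = pal p := by
      rw [pal_tr, qc_neg_one_one h]
      simp
    have hm := pal_mul (p := p) hp
    refine ⟨Matrix.kroneckerMap (· * ·) (pal p) h2 + Matrix.kroneckerMap (· * ·) 1 g2, ?_, ?_, ?_⟩
    · rintro ⟨i, a⟩ ⟨j, b⟩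
      rw [Matrix.add_apply, Matrix.kroneckerMap_apply, Matrix.kroneckerMap_apply, Matrix.one_apply]
      by_cases hij : i = j
      · subst hij
        rw [pal_diag, if_pos rfl, zero_mul, zero_add, one_mul]
        exact g2_sign a b
      · rw [if_neg hij, zero_mul, add_zero]
        exact sign_mul (pal_zero_or i j hij) (h2_sign a b)
    · rw [Matrix.transpose_add, kron_tr, kron_tr, Matrix.transpose_one, Matrix.add_mul,
        Matrix.mul_add, Matrix.mul_add, ← Matrix.mul_kronecker_mul,
        ← Matrix.mul_kronecker_mul, ← Matrix.mul_kronecker_mul, ← Matrix.mul_kronecker_mul,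
        hm, ht, h2_mul, g2_mul, Matrix.one_mul, Matrix.one_mul, Matrix.mul_one]
      have h3 : Matrix.kroneckerMap (· * ·) (pal p) (h2 * g2ᵀ) +
          Matrix.kroneckerMap (· * ·) (pal p) (g2 * h2ᵀ) = 0 := by
        rw [← Matrix.kronecker_add, h2g2, Matrix.kronecker_zero]
      rw [Matrix.smul_kronecker, Matrix.kronecker_smul, Matrix.one_kronecker_one]
      have h4 : ((2 * (p + 1) : ℕ) : ℤ) • (1 : Matrix (Option (ZMod p) × Fin 2) (Option (ZMod p) × Fin 2) ℤ) =
          (p : ℤ) • (2 : ℤ) • (1 : Matrix (Option (ZMod p) × Fin 2) (Option (ZMod p) × Fin 2) ℤ) + (2 : ℤ) • 1 := by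
        rw [smul_smul, ← add_smul]
        push_cast
        congr 1
        ring
      rw [h4, ← sub_eq_zero, ← h3]
      abel
    · intro x y hxy
      rw [Matrix.add_apply, Matrix.kroneckerMap_apply, Matrix.kroneckerMap_apply, Matrix.one_apply,
        if_neg (fun h => hxy (Option.some_injective _ h)), zero_mul, add_zero]
      show qc p (x - y) * h2 0 0 = qc p (x - y)
      simp [h2]
  · obtain ⟨H, hH, hHH, hq⟩ := paley_one (p := p) h
    refine ⟨Matrix.kroneckerMap (· * ·) H h2, kron_sign _ _ hH h2_sign, ?_, ?_⟩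
    · have h4 := kron_tr H h2
      rw [h4, ← Matrix.mul_kronecker_mul, hHH, h2_mul, Matrix.smul_kronecker,
        Matrix.kronecker_smul, Matrix.one_kronecker_one, smul_smul]
      congr 1
      push_cast
      ring
    · intro x y hxy
      rw [Matrix.kroneckerMap_apply, hq x y hxy]
      simp [h2]

end

end Pool.Agent.H114R2
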