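import Pool.Agent.H114R2.Blow

/-! Parity: inner products of sign vectors modulo four, and blow-ups modulo `4 m'`. -/

namespace Pool.Agent.H114R2

open Finset Matrix

theorem prod_sign {ι : Type} (s : Finset ι) (f : ι → ℤ) (hf : ∀ i, f i = 1 ∨ f i = -1) :
    ∏ i ∈ s, f i = 1 ∨ ∏ i ∈ s, f i = -1 := by
  classical
  induction s using Finset.induction_on with
  | empty => exact Or.inl (by simp)
  | insert a s ha ih =>
    rw [Finset.prod_insert ha]
    exact sign_mul (hf a) ih

/-- the sum of signs modulo four -/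
theorem sum_mod_four {ι : Type} (s : Finset ι) (f : ι → ℤ) (hf : ∀ i, f i = 1 ∨ f i = -1) :
    (4 : ℤ) ∣ ∑ i ∈ s, f i - s.card - (∏ i ∈ s, f i - 1) := by
  classical
  induction s using Finset.induction_on with
  | empty => simp
  | insert a s ha ih =>
    rw [Finset.prod_insert ha, Finset.sum_insert ha, Finset.card_insert_of_notMem ha]
    obtain ⟨k, hk⟩ := ih
    push_cast
    rcases hf a with h | h
    · rw [h]
      exact ⟨k, by linarith⟩
    · rw [h]
      rcases prod_sign s f hf with h' | h'
      · rw [h'] at hk ⊢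
        exact ⟨k, by linarith⟩
      · rw [h'] at hk ⊢
        exact ⟨k - 1, by linarith⟩

theorem rowprod_eq {ι κ : Type} [Fintype κ] (H : Matrix ι κ ℤ)
    (hH : ∀ i j, H i j = 1 ∨ H i j = -1) (h4 : 4 ∣ Fintype.card κ) (a b : ι)
    (h0 : (4 : ℤ) ∣ (H * Hᵀ) a b) : ∏ c, H a c = ∏ c, H b c := by
  have h1 := sum_mod_four Finset.univ (fun c => H a c * H b c)
    (fun c => sign_mul (hH a c) (hH b c))
  rw [Matrix.mul_apply] at h0
  simp only [Matrix.transpose_apply] at h0
  rw [Finset.card_univ, Finset.prod_mul_distrib] at h1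
  obtain ⟨k, hk⟩ := h1
  obtain ⟨l, hl⟩ := h0
  obtain ⟨t, ht⟩ := h4
  rw [hl, ht] at hk
  push_cast at hk
  rcases prod_sign Finset.univ (H a) (hH a) with h | h <;>
    rcases prod_sign Finset.univ (H b) (hH b) with h' | h' <;> rw [h, h'] at hk ⊢
  · omega
  · omega

theorem four_dvd_of_rowprod {ι κ : Type} [Fintype κ] (H : Matrix ι κ ℤ)
    (hH : ∀ i j, H i j = 1 ∨ H i j = -1) (h4 : 4 ∣ Fintype.card κ) (a b : ι)
    (h : ∏ c, H a c = ∏ c, H b c) : (4 : ℤ) ∣ (H * Hᵀ) a b := by
  have h1 := sum_mod_four Finset.univ (fun c => H a c * H b c)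
    (fun c => sign_mul (hH a c) (hH b c))
  rw [Matrix.mul_apply]
  simp only [Matrix.transpose_apply]
  rw [Finset.card_univ, Finset.prod_mul_distrib, h] at h1
  have h2 : (∏ c, H b c) * ∏ c, H b c = 1 := by
    rcases prod_sign Finset.univ (H b) (hH b) with h' | h' <;> rw [h'] <;> norm_num
  rw [h2] at h1
  obtain ⟨k, hk⟩ := h1
  obtain ⟨t, ht⟩ := h4
  rw [ht] at hk
  push_cast at hk
  exact ⟨k + t, by linarith⟩

/-- number of nonzero entries in a row of a weighing matrix -/
theorem flip_prod {S : Type} [Fintype S] [DecidableEq S] (A M : S → ℤ)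
    (hM : ∀ l, M l = 0 ∨ M l = A l) (hA : ∀ l, A l = 1 ∨ A l = -1) (k : ℕ)
    (hk : ∑ l, M l * M l = k) (h2 : 2 ∣ k) : ∏ l, (A l - 2 * M l) = ∏ l, A l := by
  have h1 : ∀ l, A l - 2 * M l = A l * (if M l = 0 then 1 else -1) := by
    intro l
    rcases hM l with h | h
    · rw [h]; simp
    · rw [h, if_neg (by rcases hA l with h' | h' <;> rw [h'] <;> norm_num)]
      ring
  simp_rw [h1]
  rw [Finset.prod_mul_distrib]
  have h3 : ∏ l, (if M l = 0 then (1 : ℤ) else -1) = 1 := by
    rw [Finset.prod_ite, Finset.prod_const_one, one_mul, Finset.prod_const]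
    have h4 : ((Finset.univ.filter (fun l => ¬ M l = 0)).card : ℤ) = k := by
      rw [← hk, Finset.card_filter]
      push_cast
      refine Finset.sum_congr rfl fun l _ => ?_
      rcases hM l with h | h
      · rw [h]; simp
      · rcases hA l with h' | h' <;> rw [h, h'] <;> norm_num
    have h5 : (Finset.univ.filter (fun l => ¬ M l = 0)).card = k := by exact_mod_cast h4
    rw [h5]
    exact Even.neg_one_pow (even_iff_two_dvd.2 h2)
  rw [h3, mul_one]

/-- the blow-up lemma modulo `4 m'` -/
theorem blowup_four {ι S : Type} [Fintype ι] [DecidableEq ι] [Fintype S] [DecidableEq S]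
    (m n0 w : ℕ) (hm : 0 < m) (hmodd : m.Coprime 4) (H : Matrix ι ι ℤ)
    (hH : ∀ i j, H i j = 1 ∨ H i j = -1)
    (hHH : H * Hᵀ = (n0 : ℤ) • 1) (hcard : Fintype.card ι = n0) (h4n : 4 ∣ n0)
    (h4S : 4 ∣ Fintype.card S)
    (x y : S → ι) (hx : Function.Injective x) (hy : Function.Injective y)
    (M : Matrix S S ℤ) (hM : ∀ j l, M j l = 0 ∨ M j l = H (x j) (y l)) (k : ℕ) (hk2 : 2 ∣ k)
    (hMM : M * Mᵀ = (k : ℤ) • 1) (hk : 4 * k ≡ n0 [MOD m]) (hw : m ∣ w)
    (hprod : ∀ i, ∏ l, H i (y l) = 1) :
    ModHad (4 * m) (n0 + Fintype.card S * w) := by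
  classical
  let R := {a : ι // a ∉ Set.range x}
  let R' := {a : ι // a ∉ Set.range y}
  let ex : S ⊕ R ≃ ι :=
    (Equiv.sumCongr (Equiv.ofInjective x hx) (Equiv.refl _)).trans (Equiv.Set.sumCompl (Set.range x))
  let ey : S ⊕ R' ≃ ι :=
    (Equiv.sumCongr (Equiv.ofInjective y hy) (Equiv.refl _)).trans (Equiv.Set.sumCompl (Set.range y))
  have hex : ∀ j, ex (Sum.inl j) = x j := by
    intro j
    exact Equiv.Set.sumCompl_apply_inl _ _
  have hey : ∀ j, ey (Sum.inl j) = y j := by
    intro j
    exact Equiv.Set.sumCompl_apply_inl _ _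
  let A : Matrix (S ⊕ R) (S ⊕ R') ℤ := H.submatrix ex ey
  have hAA : A * Aᵀ = (n0 : ℤ) • 1 := by
    simp only [A]
    rw [Matrix.transpose_submatrix, Matrix.submatrix_mul_equiv, hHH]
    ext i j
    rw [Matrix.submatrix_apply, Matrix.smul_apply, Matrix.smul_apply, Matrix.one_apply,
      Matrix.one_apply]
    simp only [ex.injective.eq_iff]
  have hcR : Fintype.card S + Fintype.card R = n0 := by
    rw [← Fintype.card_sum, Fintype.card_congr ex, hcard]
  have hcR' : Fintype.card S + Fintype.card R' = n0 := by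
    rw [← Fintype.card_sum, Fintype.card_congr ey, hcard]
  let E : Matrix ((S × Option (Fin w)) ⊕ R) ((S × Option (Fin w)) ⊕ R') ℤ := blowE A M
  have hcW : Fintype.card (Option (Fin w)) = w + 1 := by simp
  have hA : ∀ a b, A a b = 1 ∨ A a b = -1 := fun a b => hH _ _
  have hMA : ∀ j l, M j l = 0 ∨ M j l = A (Sum.inl j) (Sum.inl l) := by
    intro j l
    have : A (Sum.inl j) (Sum.inl l) = H (x j) (y l) := by
      simp only [A, Matrix.submatrix_apply, hex, hey]
    rw [this]
    exact hM j l
  have hE : ∀ i j, E i j = 1 ∨ E i j = -1 := by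
    rintro (⟨a, t⟩ | a) (⟨b, u⟩ | b)
    · simp only [E, blowE]
      split_ifs with h
      · simpa using hA _ _
      · rcases hMA a b with h0 | h0
        · rw [h0]
          simpa using hA _ _
        · rw [h0]
          rcases hA (Sum.inl a) (Sum.inl b) with h1 | h1 <;> rw [h1] <;> norm_num
    · exact hA _ _
    · exact hA _ _
    · exact hA _ _
  have hcE : Fintype.card ((S × Option (Fin w)) ⊕ R') = n0 + Fintype.card S * w := by
    rw [Fintype.card_sum, Fintype.card_prod, hcW]
    nlinarith
  have hMk : ∀ j, ∑ l, M j l * M j l = k := by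
    intro j
    have := congrFun (congrFun hMM j) j
    rw [Matrix.mul_apply, Matrix.smul_apply, Matrix.one_apply_eq] at this
    simpa using this
  have hprodA : ∀ i : S ⊕ R, ∏ l, A i (Sum.inl l) = 1 := by
    intro i
    rw [← hprod (ex i)]
    refine Finset.prod_congr rfl fun l _ => ?_
    simp only [A, Matrix.submatrix_apply, hey]
  -- row products of the blow-up
  let row : (S × Option (Fin w)) ⊕ R → S ⊕ R := Sum.map Prod.fst id
  have hrow : ∀ i, ∏ c, E i c = ∏ c, A (row i) c := by
    intro i
    rw [Fintype.prod_sum_type, Fintype.prod_sum_type, hprodA, one_mul]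
    have h1 : ∏ c : S × Option (Fin w), E i (Sum.inl c) = 1 := by
      rw [Fintype.prod_prod_type_right]
      refine Finset.prod_eq_one fun u _ => ?_
      rcases i with ⟨a, t⟩ | a
      · simp only [E, blowE]
        by_cases htu : t = u
        · simp only [htu, if_true, sub_zero]
          exact hprodA _
        · simp only [htu, if_false]
          rw [flip_prod (fun l => A (Sum.inl a) (Sum.inl l)) (M a) (hMA a) (fun l => hA _ _) k
            (hMk a) hk2]
          exact hprodA _
      · simp only [E, blowE]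
        exact hprodA _
    rw [h1, one_mul]
    refine Finset.prod_congr rfl fun r _ => ?_
    rcases i with ⟨a, t⟩ | a
    · simp only [E, blowE, row, Sum.map_inl]
    · simp only [E, blowE, row, Sum.map_inr, id]
  have hArow : ∀ a b : S ⊕ R, ∏ c, A a c = ∏ c, A b c := by
    intro a b
    refine rowprod_eq A hA ?_ a b ?_
    · rw [Fintype.card_sum, hcR']
      exact h4n
    · rw [hAA, Matrix.smul_apply, Matrix.one_apply]
      have : (4 : ℤ) ∣ (n0 : ℤ) := by exact_mod_cast h4n
      split_ifs
      · simpa using this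
      · simp
  refine modHad_of_type (ι := (S × Option (Fin w)) ⊕ R) (κ := (S × Option (Fin w)) ⊕ R')
    ?_ hcE E hE ?_
  · rw [Fintype.card_sum, Fintype.card_prod, hcW]
    nlinarith
  · intro i j hij
    have h4 : (4 : ℤ) ∣ (E * Eᵀ) i j := by
      refine four_dvd_of_rowprod E hE ?_ i j ?_
      · rw [hcE]
        exact Nat.dvd_add h4n (h4S.mul_right w)
      · rw [hrow, hrow]
        exact hArow _ _
    have hmdvd : (m : ℤ) ∣ (E * Eᵀ) i j := by
      have hNe : NeZero m := ⟨hm.ne'⟩
      rw [← ZMod.intCast_zmod_eq_zero_iff_dvd]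
      -- map to ZMod m
      let φ : ℤ →+* ZMod m := Int.castRingHom (ZMod m)
      have h1 : blowE (A.map φ) (M.map φ) = E.map φ := by
        ext (⟨a, t⟩ | a) (⟨b, u⟩ | b)
        · simp only [E, blowE, Matrix.map_apply]
          split_ifs <;> simp
        · rfl
        · rfl
        · rfl
      have h2 := blow_mul (K := ZMod m) (W := Option (Fin w)) (S := S) (R := R) (R' := R')
        (by
          rw [hcW]
          push_cast
          rw [(ZMod.natCast_eq_zero_iff w m).2 hw, zero_add])
        (A.map φ) (M.map φ) (n0 : ZMod m)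
        (by
          rw [← Matrix.transpose_map, ← Matrix.map_mul, hAA]
          ext a b
          simp only [Matrix.smul_apply, Matrix.map_apply, Matrix.one_apply, smul_eq_mul, map_mul]
          split_ifs
          · simp [φ]
          · simp)
        (by
          rw [← Matrix.transpose_map, ← Matrix.map_mul, hMM]
          ext a b
          simp only [Matrix.smul_apply, Matrix.map_apply, Matrix.one_apply, smul_eq_mul, map_mul]
          have : (4 : ZMod m) * (k : ZMod m) = (n0 : ZMod m) := by
            have := (ZMod.natCast_eq_natCast_iff _ _ _).2 hk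
            push_cast at this
            exact this
          split_ifs
          · simp only [φ, eq_intCast, Int.cast_natCast, Int.cast_one, mul_one]
            exact this
          · simp) i j hij
      rw [h1, ← Matrix.transpose_map, ← Matrix.map_mul] at h2
      exact h2
    have hcop : IsCoprime (4 : ℤ) (m : ℤ) := by
      have := Nat.isCoprime_iff_coprime.2 hmodd.symm
      exact_mod_cast this
    have := hcop.mul_dvd h4 hmdvd
    push_cast
    exact this

end Pool.Agent.H114R2
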