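import Mathlib

/-!
# The Tamura–Schein problem for finite semigroups: the construction

For a family `g i : Ω → Ω` (`i ∈ ι`) let `Sg g` be the semigroup with the elements
`p i, q i` (rows), `a x, b x` (columns), `z i x, u i x, v i x` and the zero `o`, where
`p i * a x = z i x`, `q i * b x = z i (g i x)`, `p i * b x = u i x`, `q i * a x = v i x` and all the
other products are `o`.  All products of three elements are `o`.

If `θ` is a bijection between the subsets of `Ω` and those of `Ω'` with `θ ∅ = ∅` and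
`θ (g i '' B) = g' i '' θ B`, then the power semigroups of `Sg g` and `Sg g'` are isomorphic.
The map `θ` need not respect inclusion.
-/

set_option autoImplicit false

open scoped Pointwise

namespace Pool.Agent.H114R2.TS

inductive Sg {ι Ω : Type} (g : ι → Ω → Ω) : Type
  | p (i : ι) : Sg g
  | q (i : ι) : Sg g
  | a (x : Ω) : Sg g
  | b (x : Ω) : Sg g
  | z (i : ι) (x : Ω) : Sg g
  | u (i : ι) (x : Ω) : Sg g
  | v (i : ι) (x : Ω) : Sg g
  | o : Sg g

namespace Sg

variable {ι Ω Ω' : Type} {g : ι → Ω → Ω} {g' : ι → Ω' → Ω'}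

/-- The product. -/
def m : Sg g → Sg g → Sg g
  | p i, a x => z i x
  | p i, b x => u i x
  | q i, a x => v i x
  | q i, b x => z i (g i x)
  | _, _ => o

instance : Mul (Sg g) := ⟨m⟩

theorem mul_def (s t : Sg g) : s * t = m s t := rfl

instance : Semigroup (Sg g) where
  mul_assoc := by
    intro x y w
    simp only [mul_def]
    cases x <;> cases y <;> cases w <;> rfl

instance [Finite ι] [Finite Ω] : Finite (Sg g) := by
  let f : (ι ⊕ ι) ⊕ (Ω ⊕ Ω) ⊕ (ι × Ω) ⊕ (ι × Ω) ⊕ (ι × Ω) ⊕ Unit → Sg g := fun x =>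
    match x with
    | .inl (.inl i) => p i
    | .inl (.inr i) => q i
    | .inr (.inl (.inl x)) => a x
    | .inr (.inl (.inr x)) => b x
    | .inr (.inr (.inl x)) => z x.1 x.2
    | .inr (.inr (.inr (.inl x))) => u x.1 x.2
    | .inr (.inr (.inr (.inr (.inl x)))) => v x.1 x.2
    | .inr (.inr (.inr (.inr (.inr _)))) => o
  apply Finite.of_surjective f
  intro s
  cases s with
  | p i => exact ⟨.inl (.inl i), rfl⟩
  | q i => exact ⟨.inl (.inr i), rfl⟩
  | a x => exact ⟨.inr (.inl (.inl x)), rfl⟩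
  | b x => exact ⟨.inr (.inl (.inr x)), rfl⟩
  | z i x => exact ⟨.inr (.inr (.inl (i, x))), rfl⟩
  | u i x => exact ⟨.inr (.inr (.inr (.inl (i, x)))), rfl⟩
  | v i x => exact ⟨.inr (.inr (.inr (.inr (.inl (i, x))))), rfl⟩
  | o => exact ⟨.inr (.inr (.inr (.inr (.inr ())))), rfl⟩

/-- The sections of a subset. -/
def sa (A : Set (Sg g)) : Set Ω := {x | a x ∈ A}
def sb (A : Set (Sg g)) : Set Ω := {x | b x ∈ A}
def sz (A : Set (Sg g)) (i : ι) : Set Ω := {x | z i x ∈ A}
def su (A : Set (Sg g)) (i : ι) : Set Ω := {x | u i x ∈ A}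
def sv (A : Set (Sg g)) (i : ι) : Set Ω := {x | v i x ∈ A}

/-- Two subsets with the same sections are equal. -/
theorem ext_sec {A B : Set (Sg g)} (hp : ∀ i, p i ∈ A ↔ p i ∈ B) (hq : ∀ i, q i ∈ A ↔ q i ∈ B)
    (ha : sa A = sa B) (hb : sb A = sb B) (hz : ∀ i, sz A i = sz B i)
    (hu : ∀ i, su A i = su B i) (hv : ∀ i, sv A i = sv B i) (ho : (o : Sg g) ∈ A ↔ o ∈ B) :
    A = B := by
  ext s
  cases s with
  | p i => exact hp i
  | q i => exact hq i
  | a x => exact Set.ext_iff.1 ha x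
  | b x => exact Set.ext_iff.1 hb x
  | z i x => exact Set.ext_iff.1 (hz i) x
  | u i x => exact Set.ext_iff.1 (hu i) x
  | v i x => exact Set.ext_iff.1 (hv i) x
  | o => exact ho

/-- The subset with given sections. -/
def mk (P Q : ι → Prop) (A B : Set Ω) (Z U V : ι → Set Ω) (O : Prop) : Set (Sg g) := fun s =>
  match s with
  | p i => P i
  | q i => Q i
  | a x => x ∈ A
  | b x => x ∈ B
  | z i x => x ∈ Z i
  | u i x => x ∈ U i
  | v i x => x ∈ V i
  | o => O

section tw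
open Classical

/-- The twist of the sections `z`. -/
noncomputable def tw (g : ι → Ω → Ω) (g' : ι → Ω' → Ω') (θ : Set Ω ≃ Set Ω') (i : ι)
    (U V : Set Ω) : Equiv.Perm (Set Ω') :=
  Equiv.swap (θ (V ∪ g i '' U)) (θ V ∪ g' i '' θ U)

theorem tw_self (θ : Set Ω ≃ Set Ω') (i : ι) (U V : Set Ω) :
    tw g g' θ i U V (θ (V ∪ g i '' U)) = θ V ∪ g' i '' θ U := by
  unfold tw
  rw [Equiv.swap_apply_left]

theorem tw_left (θ : Set Ω ≃ Set Ω') (h0 : θ ∅ = ∅) (i : ι) (V W : Set Ω) :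
    tw g g' θ i ∅ V (θ W) = θ W := by
  unfold tw
  rw [Set.image_empty, Set.union_empty, h0, Set.image_empty, Set.union_empty, Equiv.swap_self]
  rfl

theorem tw_right (θ : Set Ω ≃ Set Ω') (h0 : θ ∅ = ∅) (hθ : ∀ i B, θ (g i '' B) = g' i '' θ B)
    (i : ι) (U W : Set Ω) :
    tw g g' θ i U ∅ (θ W) = θ W := by
  unfold tw
  rw [Set.empty_union, h0, Set.empty_union, hθ, Equiv.swap_self]
  rfl

end tw

/-- The map on subsets. -/
noncomputable def F (θ : Set Ω ≃ Set Ω') (A : Set (Sg g)) : Set (Sg g') :=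
  mk (fun i => p i ∈ A) (fun i => q i ∈ A) (θ (sa A)) (θ (sb A))
    (fun i => tw g g' θ i (su A i) (sv A i) (θ (sz A i)))
    (fun i => θ (su A i)) (fun i => θ (sv A i)) (o ∈ A)

/-- The inverse map. -/
noncomputable def G (θ : Set Ω ≃ Set Ω') (B : Set (Sg g')) : Set (Sg g) :=
  mk (fun i => p i ∈ B) (fun i => q i ∈ B) (θ.symm (sa B)) (θ.symm (sb B))
    (fun i => θ.symm ((tw g g' θ i (θ.symm (su B i)) (θ.symm (sv B i))).symm (sz B i)))
    (fun i => θ.symm (su B i)) (fun i => θ.symm (sv B i)) (o ∈ B)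

theorem G_F (θ : Set Ω ≃ Set Ω') (A : Set (Sg g)) : G θ (F (g' := g') θ A) = A := by
  apply ext_sec
  · intro i; exact Iff.rfl
  · intro i; exact Iff.rfl
  · exact θ.symm_apply_apply _
  · exact θ.symm_apply_apply _
  · intro i
    have h : sz (G θ (F (g' := g') θ A)) i
        = θ.symm ((tw g g' θ i (θ.symm (θ (su A i))) (θ.symm (θ (sv A i)))).symm
          (tw g g' θ i (su A i) (sv A i) (θ (sz A i)))) := rfl
    rw [h, θ.symm_apply_apply, θ.symm_apply_apply, Equiv.symm_apply_apply, θ.symm_apply_apply]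
  · intro i; exact θ.symm_apply_apply _
  · intro i; exact θ.symm_apply_apply _
  · exact Iff.rfl

theorem F_G (θ : Set Ω ≃ Set Ω') (B : Set (Sg g')) : F θ (G (g := g) θ B) = B := by
  apply ext_sec
  · intro i; exact Iff.rfl
  · intro i; exact Iff.rfl
  · exact θ.apply_symm_apply _
  · exact θ.apply_symm_apply _
  · intro i
    have h : sz (F θ (G (g := g) θ B)) i
        = tw g g' θ i (θ.symm (su B i)) (θ.symm (sv B i))
          (θ (θ.symm ((tw g g' θ i (θ.symm (su B i)) (θ.symm (sv B i))).symm (sz B i)))) := rfl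
    rw [h, θ.apply_symm_apply, Equiv.apply_symm_apply]
  · intro i; exact θ.apply_symm_apply _
  · intro i; exact θ.apply_symm_apply _
  · exact Iff.rfl

theorem F_empty (θ : Set Ω ≃ Set Ω') (h0 : θ ∅ = ∅) : F (g := g) (g' := g') θ ∅ = ∅ := by
  have e1 : sa (∅ : Set (Sg g)) = ∅ := rfl
  have e2 : sb (∅ : Set (Sg g)) = ∅ := rfl
  have e3 : ∀ i, sz (∅ : Set (Sg g)) i = ∅ := fun i => rfl
  have e4 : ∀ i, su (∅ : Set (Sg g)) i = ∅ := fun i => rfl
  have e5 : ∀ i, sv (∅ : Set (Sg g)) i = ∅ := fun i => rfl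
  apply ext_sec
  · intro i; exact Iff.rfl
  · intro i; exact Iff.rfl
  · exact (congrArg θ e1).trans h0
  · exact (congrArg θ e2).trans h0
  · intro i
    have h : sz (F (g' := g') θ (∅ : Set (Sg g))) i
        = tw g g' θ i (su (∅ : Set (Sg g)) i) (sv (∅ : Set (Sg g)) i)
          (θ (sz (∅ : Set (Sg g)) i)) := rfl
    rw [h, e3, e4, e5, tw_left θ h0, h0]
    rfl
  · intro i; exact (congrArg θ (e4 i)).trans h0
  · intro i; exact (congrArg θ (e5 i)).trans h0
  · exact Iff.rfl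

/-- The bijection between the subsets. -/
noncomputable def FE (g : ι → Ω → Ω) (g' : ι → Ω' → Ω') (θ : Set Ω ≃ Set Ω') :
    Set (Sg g) ≃ Set (Sg g') where
  toFun := F θ
  invFun := G θ
  left_inv := G_F θ
  right_inv := F_G θ

theorem F_nonempty (θ : Set Ω ≃ Set Ω') (h0 : θ ∅ = ∅) (A : Set (Sg g)) :
    A.Nonempty ↔ (F (g' := g') θ A).Nonempty := by
  rw [Set.nonempty_iff_ne_empty, Set.nonempty_iff_ne_empty]
  refine not_congr ?_
  constructor
  · rintro rfl
    exact F_empty θ h0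
  · intro h
    apply (FE g g' θ).injective
    exact h.trans (F_empty θ h0).symm

/-- Some element of `A` is not a row. -/
def nL (A : Set (Sg g)) : Prop := ∃ s ∈ A, ∀ i, s ≠ p i ∧ s ≠ q i
/-- Some element of `A` is not a column. -/
def nR (A : Set (Sg g)) : Prop := ∃ s ∈ A, ∀ x, s ≠ a x ∧ s ≠ b x

theorem nL_iff (A : Set (Sg g)) : ¬ nL A ↔ (sa A = ∅ ∧ sb A = ∅ ∧ (∀ i, sz A i = ∅) ∧
    (∀ i, su A i = ∅) ∧ (∀ i, sv A i = ∅) ∧ o ∉ A) := by
  unfold nL
  push Not
  constructor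
  · intro h
    refine ⟨?_, ?_, ?_, ?_, ?_, ?_⟩
    · rw [Set.eq_empty_iff_forall_notMem]
      intro x hx
      obtain ⟨i, hi⟩ := h _ hx
      by_cases h2 : (a x : Sg g) = p i
      · cases h2
      · cases (hi h2)
    · rw [Set.eq_empty_iff_forall_notMem]
      intro x hx
      obtain ⟨i, hi⟩ := h _ hx
      by_cases h2 : (b x : Sg g) = p i
      · cases h2
      · cases (hi h2)
    · intro j
      rw [Set.eq_empty_iff_forall_notMem]
      intro x hx
      obtain ⟨i, hi⟩ := h _ hx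
      by_cases h2 : (z j x : Sg g) = p i
      · cases h2
      · cases (hi h2)
    · intro j
      rw [Set.eq_empty_iff_forall_notMem]
      intro x hx
      obtain ⟨i, hi⟩ := h _ hx
      by_cases h2 : (u j x : Sg g) = p i
      · cases h2
      · cases (hi h2)
    · intro j
      rw [Set.eq_empty_iff_forall_notMem]
      intro x hx
      obtain ⟨i, hi⟩ := h _ hx
      by_cases h2 : (v j x : Sg g) = p i
      · cases h2
      · cases (hi h2)
    · intro hx
      obtain ⟨i, hi⟩ := h _ hx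
      by_cases h2 : (o : Sg g) = p i
      · cases h2
      · cases (hi h2)
  · rintro ⟨h1, h2, h3, h4, h5, h6⟩ s hs
    cases s with
    | p i => exact ⟨i, fun h => absurd rfl h⟩
    | q i => exact ⟨i, fun _ => rfl⟩
    | a x => exact absurd hs (Set.eq_empty_iff_forall_notMem.1 h1 x)
    | b x => exact absurd hs (Set.eq_empty_iff_forall_notMem.1 h2 x)
    | z i x => exact absurd hs (Set.eq_empty_iff_forall_notMem.1 (h3 i) x)
    | u i x => exact absurd hs (Set.eq_empty_iff_forall_notMem.1 (h4 i) x)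
    | v i x => exact absurd hs (Set.eq_empty_iff_forall_notMem.1 (h5 i) x)
    | o => exact absurd hs h6

theorem nR_iff (A : Set (Sg g)) : ¬ nR A ↔ ((∀ i, p i ∉ A) ∧ (∀ i, q i ∉ A) ∧ (∀ i, sz A i = ∅) ∧
    (∀ i, su A i = ∅) ∧ (∀ i, sv A i = ∅) ∧ o ∉ A) := by
  unfold nR
  push Not
  constructor
  · intro h
    refine ⟨?_, ?_, ?_, ?_, ?_, ?_⟩
    · intro j hx
      obtain ⟨i, hi⟩ := h _ hx
      by_cases h2 : (p j : Sg g) = a i
      · cases h2
      · cases (hi h2)
    · intro j hx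
      obtain ⟨i, hi⟩ := h _ hx
      by_cases h2 : (q j : Sg g) = a i
      · cases h2
      · cases (hi h2)
    · intro j
      rw [Set.eq_empty_iff_forall_notMem]
      intro x hx
      obtain ⟨i, hi⟩ := h _ hx
      by_cases h2 : (z j x : Sg g) = a i
      · cases h2
      · cases (hi h2)
    · intro j
      rw [Set.eq_empty_iff_forall_notMem]
      intro x hx
      obtain ⟨i, hi⟩ := h _ hx
      by_cases h2 : (u j x : Sg g) = a i
      · cases h2
      · cases (hi h2)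
    · intro j
      rw [Set.eq_empty_iff_forall_notMem]
      intro x hx
      obtain ⟨i, hi⟩ := h _ hx
      by_cases h2 : (v j x : Sg g) = a i
      · cases h2
      · cases (hi h2)
    · intro hx
      obtain ⟨i, hi⟩ := h _ hx
      by_cases h2 : (o : Sg g) = a i
      · cases h2
      · cases (hi h2)
  · rintro ⟨h1, h2, h3, h4, h5, h6⟩ s hs
    cases s with
    | p i => exact absurd hs (h1 i)
    | q i => exact absurd hs (h2 i)
    | a x => exact ⟨x, fun h => absurd rfl h⟩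
    | b x => exact ⟨x, fun _ => rfl⟩
    | z i x => exact absurd hs (Set.eq_empty_iff_forall_notMem.1 (h3 i) x)
    | u i x => exact absurd hs (Set.eq_empty_iff_forall_notMem.1 (h4 i) x)
    | v i x => exact absurd hs (Set.eq_empty_iff_forall_notMem.1 (h5 i) x)
    | o => exact absurd hs h6

theorem theta_empty (θ : Set Ω ≃ Set Ω') (h0 : θ ∅ = ∅) (X : Set Ω) : θ X = ∅ ↔ X = ∅ := by
  constructor
  · intro h
    exact θ.injective (h.trans h0.symm)
  · rintro rfl
    exact h0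

theorem sz_F (θ : Set Ω ≃ Set Ω') (A : Set (Sg g)) (i : ι) : sz (F (g' := g') θ A) i
    = tw g g' θ i (su A i) (sv A i) (θ (sz A i)) := rfl

/-- If the sections `u`, `v` are empty, then the sections `z` correspond. -/
theorem szuv_iff (θ : Set Ω ≃ Set Ω') (h0 : θ ∅ = ∅) (A : Set (Sg g)) :
    ((∀ i, sz (F (g' := g') θ A) i = ∅) ∧ (∀ i, su (F (g' := g') θ A) i = ∅) ∧
      (∀ i, sv (F (g' := g') θ A) i = ∅)) ↔
    ((∀ i, sz A i = ∅) ∧ (∀ i, su A i = ∅) ∧ (∀ i, sv A i = ∅)) := by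
  have hu : (∀ i, su (F (g' := g') θ A) i = ∅) ↔ ∀ i, su A i = ∅ :=
    forall_congr' (fun i => theta_empty θ h0 (su A i))
  have hv : (∀ i, sv (F (g' := g') θ A) i = ∅) ↔ ∀ i, sv A i = ∅ :=
    forall_congr' (fun i => theta_empty θ h0 (sv A i))
  rw [hu, hv]
  constructor
  · rintro ⟨h1, h2, h3⟩
    refine ⟨fun i => ?_, h2, h3⟩
    have h4 := h1 i
    rw [sz_F, h2 i, h3 i, tw_left θ h0] at h4
    exact (theta_empty θ h0 _).1 h4
  · rintro ⟨h1, h2, h3⟩
    refine ⟨fun i => ?_, h2, h3⟩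
    rw [sz_F, h2 i, h3 i, tw_left θ h0, h1 i, h0]

theorem nL_F (θ : Set Ω ≃ Set Ω') (h0 : θ ∅ = ∅) (A : Set (Sg g)) :
    nL (F (g' := g') θ A) ↔ nL A := by
  rw [← not_iff_not, nL_iff, nL_iff]
  have ha : sa (F (g' := g') θ A) = ∅ ↔ sa A = ∅ := theta_empty θ h0 (sa A)
  have hb : sb (F (g' := g') θ A) = ∅ ↔ sb A = ∅ := theta_empty θ h0 (sb A)
  have ho : (o ∉ F (g' := g') θ A) ↔ (o : Sg g) ∉ A := Iff.rfl
  have h := szuv_iff (g' := g') θ h0 A
  rw [ha, hb, ho]
  constructor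
  · rintro ⟨h1, h2, h3, h4, h5, h6⟩
    obtain ⟨k3, k4, k5⟩ := h.1 ⟨h3, h4, h5⟩
    exact ⟨h1, h2, k3, k4, k5, h6⟩
  · rintro ⟨h1, h2, h3, h4, h5, h6⟩
    obtain ⟨k3, k4, k5⟩ := h.2 ⟨h3, h4, h5⟩
    exact ⟨h1, h2, k3, k4, k5, h6⟩

theorem nR_F (θ : Set Ω ≃ Set Ω') (h0 : θ ∅ = ∅) (A : Set (Sg g)) :
    nR (F (g' := g') θ A) ↔ nR A := by
  rw [← not_iff_not, nR_iff, nR_iff]
  have ha : (∀ i, p i ∉ F (g' := g') θ A) ↔ ∀ i, p i ∉ A := Iff.rfl
  have hb : (∀ i, q i ∉ F (g' := g') θ A) ↔ ∀ i, q i ∉ A := Iff.rfl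
  have ho : (o ∉ F (g' := g') θ A) ↔ (o : Sg g) ∉ A := Iff.rfl
  have h := szuv_iff (g' := g') θ h0 A
  rw [ha, hb, ho]
  constructor
  · rintro ⟨h1, h2, h3, h4, h5, h6⟩
    obtain ⟨k3, k4, k5⟩ := h.1 ⟨h3, h4, h5⟩
    exact ⟨h1, h2, k3, k4, k5, h6⟩
  · rintro ⟨h1, h2, h3, h4, h5, h6⟩
    obtain ⟨k3, k4, k5⟩ := h.2 ⟨h3, h4, h5⟩
    exact ⟨h1, h2, k3, k4, k5, h6⟩

/-! ### sections of a product -/

theorem mem_o (A B : Set (Sg g)) (hA : A.Nonempty) (hB : B.Nonempty) :
    o ∈ A * B ↔ (nL A ∨ nR B) := by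
  rw [Set.mem_mul]
  constructor
  · rintro ⟨s, hs, t, ht, h⟩
    by_contra hc
    push Not at hc
    obtain ⟨hc1, hc2⟩ := hc
    unfold nL at hc1
    unfold nR at hc2
    push Not at hc1 hc2
    obtain ⟨i, hi⟩ := hc1 s hs
    obtain ⟨x, hx⟩ := hc2 t ht
    rw [mul_def] at h
    by_cases h1 : s = p i
    · subst h1
      by_cases h2 : t = a x
      · subst h2
        cases h
      · have h3 := hx h2
        subst h3
        cases h
    · have h4 := hi h1
      subst h4
      by_cases h2 : t = a x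
      · subst h2
        cases h
      · have h3 := hx h2
        subst h3
        cases h
  · rintro (⟨s, hs, h⟩ | ⟨t, ht, h⟩)
    · obtain ⟨t, ht⟩ := hB
      refine ⟨s, hs, t, ht, ?_⟩
      rw [mul_def]
      cases s with
      | p i => exact absurd rfl (h i).1
      | q i => exact absurd rfl (h i).2
      | a x => rfl
      | b x => rfl
      | z i x => rfl
      | u i x => rfl
      | v i x => rfl
      | o => rfl
    · obtain ⟨s, hs⟩ := hA
      refine ⟨s, hs, t, ht, ?_⟩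
      rw [mul_def]
      cases t with
      | a x => exact absurd rfl (h x).1
      | b x => exact absurd rfl (h x).2
      | p i => cases s <;> rfl
      | q i => cases s <;> rfl
      | z i x => cases s <;> rfl
      | u i x => cases s <;> rfl
      | v i x => cases s <;> rfl
      | o => cases s <;> rfl

theorem mem_p (A B : Set (Sg g)) (i : ι) : p i ∉ A * B := by
  rw [Set.mem_mul]
  rintro ⟨s, hs, t, ht, h⟩
  rw [mul_def] at h
  cases s <;> cases t <;> cases h

theorem mem_q (A B : Set (Sg g)) (i : ι) : q i ∉ A * B := by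
  rw [Set.mem_mul]
  rintro ⟨s, hs, t, ht, h⟩
  rw [mul_def] at h
  cases s <;> cases t <;> cases h

theorem sec_a (A B : Set (Sg g)) : sa (A * B) = ∅ := by
  rw [Set.eq_empty_iff_forall_notMem]
  intro x hx
  obtain ⟨s, hs, t, ht, h⟩ := hx
  change m s t = a x at h
  cases s <;> cases t <;> cases h

theorem sec_b (A B : Set (Sg g)) : sb (A * B) = ∅ := by
  rw [Set.eq_empty_iff_forall_notMem]
  intro x hx
  obtain ⟨s, hs, t, ht, h⟩ := hx
  change m s t = b x at h
  cases s <;> cases t <;> cases h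

theorem sec_u (A B : Set (Sg g)) (i : ι) : su (A * B) i = {x | p i ∈ A ∧ x ∈ sb B} := by
  ext x
  constructor
  · rintro ⟨s, hs, t, ht, h⟩
    change m s t = u i x at h
    cases s <;> cases t <;> cases h
    exact ⟨hs, ht⟩
  · rintro ⟨h1, h2⟩
    exact ⟨p i, h1, b x, h2, rfl⟩

theorem sec_v (A B : Set (Sg g)) (i : ι) : sv (A * B) i = {x | q i ∈ A ∧ x ∈ sa B} := by
  ext x
  constructor
  · rintro ⟨s, hs, t, ht, h⟩
    change m s t = v i x at h
    cases s <;> cases t <;> cases h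
    exact ⟨hs, ht⟩
  · rintro ⟨h1, h2⟩
    exact ⟨q i, h1, a x, h2, rfl⟩

theorem sec_z (A B : Set (Sg g)) (i : ι) :
    sz (A * B) i = {x | (p i ∈ A ∧ x ∈ sa B) ∨ (q i ∈ A ∧ x ∈ g i '' sb B)} := by
  ext x
  constructor
  · rintro ⟨s, hs, t, ht, h⟩
    change m s t = z i x at h
    cases s <;> cases t <;> cases h
    · exact Or.inl ⟨hs, ht⟩
    · rename_i y
      exact Or.inr ⟨hs, y, ht, rfl⟩
  · rintro (⟨h1, h2⟩ | ⟨h1, y, hy, h2⟩)
    · exact ⟨p i, h1, a x, h2, rfl⟩
    · refine ⟨q i, h1, b y, hy, ?_⟩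
      change z i (g i y) = z i x
      rw [h2]

/-- The main point. -/
theorem F_mul (θ : Set Ω ≃ Set Ω') (h0 : θ ∅ = ∅) (hθ : ∀ i B, θ (g i '' B) = g' i '' θ B)
    (A B : Set (Sg g)) (hA : A.Nonempty) (hB : B.Nonempty) :
    F (g' := g') θ (A * B) = F θ A * F θ B := by
  have eu : ∀ i, su (F (g' := g') θ (A * B)) i = θ (su (A * B) i) := fun i => rfl
  have ev : ∀ i, sv (F (g' := g') θ (A * B)) i = θ (sv (A * B) i) := fun i => rfl
  have ea : sa (F (g' := g') θ B) = θ (sa B) := rfl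
  have eb : sb (F (g' := g') θ B) = θ (sb B) := rfl
  have ep : ∀ i, (p i ∈ F (g' := g') θ A) = (p i ∈ A) := fun i => rfl
  have eq : ∀ i, (q i ∈ F (g' := g') θ A) = (q i ∈ A) := fun i => rfl
  apply ext_sec
  · intro i
    exact iff_of_false (mem_p A B i) (mem_p _ _ i)
  · intro i
    exact iff_of_false (mem_q A B i) (mem_q _ _ i)
  · rw [sec_a]
    have h : sa (F (g' := g') θ (A * B)) = θ (sa (A * B)) := rfl
    rw [h, sec_a, h0]
  · rw [sec_b]
    have h : sb (F (g' := g') θ (A * B)) = θ (sb (A * B)) := rfl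
    rw [h, sec_b, h0]
  · intro i
    rw [sz_F, sec_z, sec_z, sec_u, sec_v, ea, eb]
    simp only [ep, eq]
    by_cases h1 : p i ∈ A
    · by_cases h2 : q i ∈ A
      · simp only [h1, h2, true_and]
        exact tw_self θ i (sb B) (sa B)
      · simp only [h1, h2, true_and, false_and, or_false]
        exact tw_right θ h0 hθ i (sb B) (sa B)
    · by_cases h2 : q i ∈ A
      · simp only [h1, h2, true_and, false_and, false_or]
        exact (tw_left θ h0 i (sa B) (g i '' sb B)).trans (hθ i (sb B))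
      · simp only [h1, h2, false_and, false_or]
        exact (tw_left θ h0 i ∅ ∅).trans h0
  · intro i
    rw [eu, sec_u, sec_u, eb]
    simp only [ep]
    by_cases h1 : p i ∈ A
    · simp only [h1, true_and]
      rfl
    · simp only [h1, false_and]
      exact h0
  · intro i
    rw [ev, sec_v, sec_v, ea]
    simp only [eq]
    by_cases h1 : q i ∈ A
    · simp only [h1, true_and]
      rfl
    · simp only [h1, false_and]
      exact h0
  · rw [mem_o _ _ ((F_nonempty θ h0 A).1 hA) ((F_nonempty θ h0 B).1 hB), nL_F θ h0, nR_F θ h0,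
      ← mem_o A B hA hB]
    exact Iff.rfl

/-- The isomorphism of the power semigroups. -/
theorem power_iso (θ : Set Ω ≃ Set Ω') (h0 : θ ∅ = ∅) (hθ : ∀ i B, θ (g i '' B) = g' i '' θ B) :
    ∃ f : {A : Set (Sg g) // A.Nonempty} ≃ {B : Set (Sg g') // B.Nonempty},
      ∀ A B : {A : Set (Sg g) // A.Nonempty},
        (f ⟨A.1 * B.1, A.2.mul B.2⟩).1 = (f A).1 * (f B).1 := by
  refine ⟨(FE g g' θ).subtypeEquiv (fun A => F_nonempty θ h0 A), ?_⟩
  intro A B
  exact F_mul θ h0 hθ A.1 B.1 A.2 B.2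

end Sg

end Pool.Agent.H114R2.TS
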